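import Pool.Agent.KTop.Far
import Pool.Agent.KLog.Flip

/-! KT11: the type of a composition of far blocks. -/

set_option autoImplicit false

open Pool.Agent.LK

namespace Pool.Agent.KTop

open Pool.Agent.KTube Pool.Agent.KRing Pool.Agent.KLog
open Pool.Agent.KAmp (gl)

/-- The half `l` with displacement `v` is composed of an unknotted half, unknotted blocks, and the
blocks of the list `πs` in this order, each far from the origin. -/
inductive Rz : List PP → ℤ × ℤ → List P3 → Prop
  | nil {v : ℤ × ℤ} {l : List P3} : LU 0 0 v l → Rz [] v l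
  | unk {πs : List PP} {v : ℤ × ℤ} {l : List P3} {ρ : PP} :
      Rz πs v l → Valid v ρ → Rz πs (v + dsp ρ) (glu v l ρ)
  | far {πs : List PP} {v : ℤ × ℤ} {l : List P3} {π : PP} :
      Rz πs v l → Geo v π → nh π < nrm v → Rz (πs ++ [π]) (v + dsp π) (glu v l π)

variable {v v' : ℤ × ℤ} {l l' r r' : List P3} {πs : List PP}

private theorem comp_top {π : PP} (hg : Geo v π) : v + dsp π ≠ 0 := by
  intro h0
  refine hg.ne' ?_
  rw [dsp, add_sub_assoc', sub_eq_zero] at h0
  exact h0.symm

private theorem comp_gl (v' : ℤ × ℤ) (l' : List P3) (s : List PP) (π : PP) :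
    gl v' l' (s ++ [π]) = glu (ed v' s) (gl v' l' s) π := by
  rw [gl_append]
  rfl

theorem Rz.lower (h : Rz πs v l) : Lower 0 0 v l := by
  induction h with
  | nil h => exact h.2.1
  | unk _ hρ ih => exact lower_glu hρ.1 ih
  | far _ hg _ ih => exact lower_glu hg ih

theorem Rz.ne (h : Rz πs v l) : v ≠ 0 := by
  induction h with
  | nil h => exact h.1.symm
  | unk _ hρ _ => exact comp_top hρ.1
  | far _ hg _ _ => exact comp_top hg

theorem Rz.gl {s : List PP} (h : Rz πs v l) (hs : UC v s) :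
    Rz πs (ed v s) (Pool.Agent.KAmp.gl v l s) := by
  induction s generalizing v l with
  | nil =>
    rw [ed_nil]
    exact h
  | cons ρ s ih =>
    rw [ed_cons]
    exact ih (h.unk hs.1) hs.2

/-- A composition of unknotted blocks is an unknotted half. -/
private theorem comp_nil (h : Rz πs v l) (h0 : πs = []) : LU 0 0 v l := by
  induction h with
  | nil h => exact h
  | @unk πs v l ρ _ hρ ih =>
    have h1 : UC v [ρ] := ⟨hρ, comp_top hρ.1⟩
    have h2 := lu_gl h1 (ih h0)
    rw [ed_cons, ed_nil] at h2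
    exact h2
  | far _ _ _ _ => simp at h0

/-- Unknotted lower halves give the same types. -/
private theorem comp_lu (h : LU 0 0 v l) (h' : LU 0 0 v l') : Rel v l l' := by
  refine ⟨h.2.1, h'.2.1, fun r hr => ?_⟩
  have hE := (ring_of h.1 hr h.2.1).isPolygon
  have hF := (ring_of h.1 hr h'.2.1).isPolygon
  have h2 := isTwo_ring_of h.1 hr h.2.1
  have h2' := isTwo_ring_of h.1 hr h'.2.1
  have hEF := uppEq_ring hr h.2.1 h'.2.1
  obtain ⟨C, hC⟩ := exists_uppClose hE h2
  have hC' : UppClose (ring (r ++ l')) 0 C :=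
    ⟨hC.1, fun u v hu => (hC.2.1 u v hu).trans (hEF u v hu), hC.2.2⟩
  obtain ⟨A, hA, hAU⟩ := h.lowU hr
  obtain ⟨A', hA', hAU'⟩ := h'.lowU hr
  exact ((split hE h2 hA hC).2.1 hAU).symm.trans ((split hF h2' hA' hC').2.1 hAU')

/-- Unknotted upper halves give the same types. -/
private theorem comp_uu (h : UU 0 0 v r) (h' : UU 0 0 v r') (hl : Lower 0 0 v l) :
    SameType (ring (r ++ l)) (ring (r' ++ l)) :=
  (typeClosed_type (ring (r ++ l))).good.half _ _ 0 (ring_of h.1 h.2.1 hl).isPolygon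
    (ring_of h'.1 h'.2.1 hl).isPolygon (isTwo_ring_of h.1 h.2.1 hl)
    (lowEq_ring h.2.1 h'.2.1 hl) (h.uppU hl) (h'.uppU hl) (SameType.refl _)

/-- The last block is far on both sides. -/
private theorem comp_far {π : PP} (hg : Geo v π) (hv : nh π < nrm v)
    (ih : ∀ {v' : ℤ × ℤ} {l' : List P3}, Rz πs v' l' → ∀ s, UC v' s → ed v' s = v →
      Rel v l (gl v' l' s)) :
    ∀ {qs : List PP} {v' : ℤ × ℤ} {l' : List P3}, Rz qs v' l' → qs = πs ++ [π] →
      ∀ s, UC v' s → ed v' s = v + dsp π → Rel (v + dsp π) (glu v l π) (gl v' l' s) := by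
  intro qs v' l' h'
  induction h' with
  | nil h => intro h0; simp at h0
  | @unk qs v0 l0 ρ _ hρ ih' =>
    intro h0 s hs he
    have h1 : UC v0 (ρ :: s) := ⟨hρ, hs⟩
    have h2 : ed v0 (ρ :: s) = v + dsp π := by rw [ed_cons]; exact he
    exact ih' h0 (ρ :: s) h1 h2
  | @far qs v0 l0 π' h0' hg' hv0 _ =>
    intro h0 s hs he
    obtain ⟨rfl, h1⟩ := List.append_inj' h0 rfl
    obtain rfl : π' = π := by simpa using h1
    obtain ⟨s0, -, hs0, he0, -⟩ := exists_loop hg'.ne hg.ne
    obtain ⟨s1, -, hs1, he1, -⟩ := exists_loop (comp_top hg) (comp_top hg')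
    have hL := lower_gl hs0.gc h0'.lower
    rw [he0] at hL
    -- the lower parts
    have r1 : Rel (v + dsp π') (glu v l π') (glu v (gl v0 l0 s0) π') :=
      (ih h0' s0 hs0 he0).glu hg
    -- the block is moved
    have r2 := (Pool.Agent.KTop.far hg' hv0 hv h0'.lower hs0 he0 hs1 he1).gl hs.gc
    rw [he] at r2
    have e1 : gl v0 l0 (s0 ++ π' :: s1) = gl (v + dsp π') (glu v (gl v0 l0 s0) π') s1 := by
      rw [gl_append, he0]
      rfl
    have e2 : gl (v0 + dsp π') (gl (v + dsp π') (glu v (gl v0 l0 s0) π') s1) s =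
        gl (v + dsp π') (glu v (gl v0 l0 s0) π') (s1 ++ s) := by
      rw [gl_append, he1]
    rw [e1, e2] at r2
    -- there and back
    have hss : UC (v + dsp π') (s1 ++ s) := by
      rw [uc_append, he1]
      exact ⟨hs1, hs⟩
    have hes : ed (v + dsp π') (s1 ++ s) = v + dsp π' := by rw [ed_append, he1, he]
    have r3 := mid hss (show UC (v + dsp π') [] from comp_top hg)
      (by rw [hes, ed_nil]) (lower_glu hg hL)
    rw [hes] at r3
    exact (r1.trans r3.symm).trans r2.symm

private theorem comp_rel (h : Rz πs v l) : ∀ {v' : ℤ × ℤ} {l' : List P3}, Rz πs v' l' →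
    ∀ s, UC v' s → ed v' s = v → Rel v l (Pool.Agent.KAmp.gl v' l' s) := by
  induction h with
  | @nil v l h =>
    intro v' l' h' s hs he
    have h1 := lu_gl hs (comp_nil h' rfl)
    rw [he] at h1
    exact comp_lu h h1
  | @unk πs v l ρ h hρ ih =>
    intro v' l' h' s hs he
    obtain ⟨s0, -, hs0, he0, -⟩ := exists_loop h'.ne h.ne
    have r1 := (ih h' s0 hs0 he0).glu hρ.1
    have hss : UC v' (s0 ++ [ρ]) := by
      rw [uc_append, he0]
      exact ⟨hs0, hρ, comp_top hρ.1⟩
    have hes : ed v' (s0 ++ [ρ]) = v + dsp ρ := by rw [ed_append, he0, ed_cons, ed_nil]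
    have r2 := mid hss hs (by rw [hes, he]) h'.lower
    rw [hes, comp_gl, he0] at r2
    exact r1.trans r2
  | @far πs v l π h hg hv ih =>
    intro v' l' h' s hs he
    exact comp_far hg hv ih h' rfl s hs he

/-- **The type of a composition of far blocks depends only on the blocks.** -/
theorem comp (h : Rz πs v l) (h' : Rz πs v' l') (hr : UU 0 0 v r) (hr' : UU 0 0 v' r') :
    SameType (ring (r ++ l)) (ring (r' ++ l')) := by
  obtain ⟨s, -, hs, he, -⟩ := exists_loop h'.ne h.ne
  have h1 := (comp_rel h h' s hs he).same r hr.2.1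
  have hr0 : UU 0 0 (ed v' s) r := by rw [he]; exact hr
  obtain ⟨r1, t, -, h3, h4⟩ := pull hs.gc hr0.2.1
  rw [h3 l' h'.lower] at h1
  exact (h1.trans (sameType_shift t _).symm).trans (comp_uu (h4 hs hr0) hr' h'.lower)

/-- The class of the compositions of the far blocks `πs`. -/
def TypeN (T : Finset (Sym2 P3) → Prop) (πs : List PP) : Prop :=
  ∃ v l r, Rz πs v l ∧ LU 0 0 v r ∧ T (ring (flp r ++ l))

theorem typeN_iff {T : Finset (Sym2 P3) → Prop} (hT : TypeClosed T) (h : Rz πs v l)
    (hr : LU 0 0 v r) : T (ring (flp r ++ l)) ↔ TypeN T πs := by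
  constructor
  · exact fun hT' => ⟨v, l, r, h, hr, hT'⟩
  · rintro ⟨v', l', r', h', hr', hT'⟩
    exact hT _ _ (comp h' h (UU_flp hr') (UU_flp hr)) hT'

end Pool.Agent.KTop
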