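import Pool.Agent.KTop.Defs

/-! KT1: the calculus of chains. -/

set_option autoImplicit false

open Pool.Agent.LK

namespace Pool.Agent.KTop

open Pool.Agent.KTube Pool.Agent.KRing Pool.Agent.KLog
open Pool.Agent.KAmp (gl)

variable {v : ℤ × ℤ} {l l' l'' r : List P3} {s t : List PP} {π : PP}

theorem Rel.refl (h : Lower 0 0 v l) : Rel v l l :=
  ⟨h, h, fun _ _ => SameType.refl _⟩

theorem Rel.symm (h : Rel v l l') : Rel v l' l :=
  ⟨h.right, h.left, fun r hr => (h.same r hr).symm⟩

theorem Rel.trans (h : Rel v l l') (h' : Rel v l' l'') : Rel v l l'' :=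
  ⟨h.left, h'.right, fun r hr => (h.same r hr).trans (h'.same r hr)⟩

theorem UC.gc (h : UC v s) : GC v s := by
  induction s generalizing v with
  | nil => exact h
  | cons π s ih => exact ⟨h.1.1, ih h.2⟩

theorem ed_nil (v : ℤ × ℤ) : ed v [] = v := by
  simp [ed]

theorem ed_cons (v : ℤ × ℤ) (π : PP) (s : List PP) : ed v (π :: s) = ed (v + dsp π) s := by
  simp only [ed, List.map_cons, List.sum_cons]
  rw [add_assoc]

theorem ed_append (v : ℤ × ℤ) (s t : List PP) : ed v (s ++ t) = ed (ed v s) t := by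
  simp only [ed, List.map_append, List.sum_append]
  rw [add_assoc]

theorem ash_append (s t : List PP) : ash (s ++ t) = ash s + ash t := by
  simp only [ash, List.map_append, List.sum_append]

theorem gl_append (v : ℤ × ℤ) (l : List P3) (s t : List PP) :
    gl v l (s ++ t) = gl (ed v s) (gl v l s) t := by
  induction s generalizing v l with
  | nil => rw [ed_nil]; rfl
  | cons π s ih =>
    rw [ed_cons]
    exact ih _ _

theorem gc_append : GC v (s ++ t) ↔ GC v s ∧ GC (ed v s) t := by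
  induction s generalizing v with
  | nil =>
    rw [ed_nil, List.nil_append]
    constructor
    · intro h
      refine ⟨?_, h⟩
      cases t with
      | nil => exact h
      | cons π t => exact h.1.ne
    · exact fun h => h.2
  | cons π s ih =>
    rw [ed_cons]
    constructor
    · rintro ⟨h1, h2⟩
      exact ⟨⟨h1, (ih.1 h2).1⟩, (ih.1 h2).2⟩
    · rintro ⟨⟨h1, h2⟩, h3⟩
      exact ⟨h1, ih.2 ⟨h2, h3⟩⟩

theorem uc_append : UC v (s ++ t) ↔ UC v s ∧ UC (ed v s) t := by
  induction s generalizing v with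
  | nil =>
    rw [ed_nil, List.nil_append]
    constructor
    · intro h
      refine ⟨?_, h⟩
      cases t with
      | nil => exact h
      | cons π t => exact h.1.1.ne
    · exact fun h => h.2
  | cons π s ih =>
    rw [ed_cons]
    constructor
    · rintro ⟨h1, h2⟩
      exact ⟨⟨h1, (ih.1 h2).1⟩, (ih.1 h2).2⟩
    · rintro ⟨⟨h1, h2⟩, h3⟩
      exact ⟨h1, ih.2 ⟨h2, h3⟩⟩

theorem GC.ne (h : GC v s) : v ≠ 0 := by
  cases s with
  | nil => exact h
  | cons π s => exact h.1.ne

theorem GC.ed_ne (h : GC v s) : ed v s ≠ 0 := by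
  induction s generalizing v with
  | nil => rw [ed_nil]; exact h
  | cons π s ih =>
    rw [ed_cons]
    exact ih h.2

private theorem csh_a (π : PP) :
    csh (-(π.1.sum.1), -(π.1.sum.2.1), -(hgt π)) (hz π.1.sum) = 0 := by
  refine Prod.ext ?_ ?_
  · simp [csh, hz]
  · simp [csh, hz]

private theorem csh_b (v : ℤ × ℤ) (π : PP) :
    csh (-(π.1.sum.1), -(π.1.sum.2.1), -(hgt π)) (v + hz π.2.sum) = v + dsp π := by
  refine Prod.ext ?_ ?_
  · simp only [csh, hz, dsp, Prod.fst_add, Prod.fst_sub]; ring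
  · simp only [csh, hz, dsp, Prod.snd_add, Prod.snd_sub]; ring

private theorem csh_a' (π : PP) : csh (π.1.sum.1, π.1.sum.2.1, hgt π) 0 = hz π.1.sum := by
  refine Prod.ext ?_ ?_
  · simp [csh, hz]
  · simp [csh, hz]

private theorem csh_b' (v : ℤ × ℤ) (π : PP) :
    csh (π.1.sum.1, π.1.sum.2.1, hgt π) (v + dsp π) = v + hz π.2.sum := by
  refine Prod.ext ?_ ?_
  · simp only [csh, hz, dsp, Prod.fst_add, Prod.fst_sub]; ring
  · simp only [csh, hz, dsp, Prod.snd_add, Prod.snd_sub]; ring

theorem lower_glu (hg : Geo v π) (hl : Lower 0 0 v l) : Lower 0 0 (v + dsp π) (glu v l π) := by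
  have h4 := (hg.block.lower hl).shift (-(π.1.sum.1), -(π.1.sum.2.1), -(hgt π))
  have e1 : hgt π + ((-(π.1.sum.1), -(π.1.sum.2.1), -(hgt π)) : P3).2.2 = 0 := by
    simp only; ring
  rw [e1, csh_a, csh_b] at h4
  exact h4

theorem lower_gl (hs : GC v s) (hl : Lower 0 0 v l) : Lower 0 0 (ed v s) (gl v l s) := by
  induction s generalizing v l with
  | nil => rw [ed_nil]; exact hl
  | cons π s ih =>
    rw [ed_cons]
    exact ih hs.2 (lower_glu hs.1 hl)

private theorem lu_glu (hπ : Valid v π) (hl : LU 0 0 v l) : LU 0 0 (v + dsp π) (glu v l π) := by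
  have h4 := ((unk_lu hπ.1 hl.2.1).2 ⟨hl, hπ.2⟩).shift
    (-(π.1.sum.1), -(π.1.sum.2.1), -(hgt π))
  have e1 : hgt π + ((-(π.1.sum.1), -(π.1.sum.2.1), -(hgt π)) : P3).2.2 = 0 := by
    simp only; ring
  rw [e1, csh_a, csh_b] at h4
  exact h4

theorem lu_gl (hs : UC v s) (hl : LU 0 0 v l) : LU 0 0 (ed v s) (gl v l s) := by
  induction s generalizing v l with
  | nil => rw [ed_nil]; exact hl
  | cons π s ih =>
    rw [ed_cons]
    exact ih hs.2 (lu_glu hs.1 hl)

/-- One block can be moved from the lower half to the upper half. -/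
private theorem pull_one (hg : Geo v π) (hr : Upper 0 0 (v + dsp π) r) :
    ∃ (r' : List P3) (t : P3), Upper 0 0 v r' ∧
    (∀ l, Lower 0 0 v l → ring (r ++ glu v l π) = LK.shift t (ring (r' ++ l))) ∧
    (Valid v π → UU 0 0 (v + dsp π) r → UU 0 0 v r') := by
  set t : P3 := (-(π.1.sum.1), -(π.1.sum.2.1), -(hgt π)) with ht
  set t' : P3 := (π.1.sum.1, π.1.sum.2.1, hgt π) with ht'
  have e0 : (0 : ℤ) + t'.2.2 = hgt π := by simp [ht']
  have h1 : Upper (hgt π) (hz π.1.sum) (v + hz π.2.sum) (r.map (· + t')) := by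
    have h := hr.shift t'
    rw [e0, csh_a', csh_b'] at h
    exact h
  have htt : t' + t = 0 := by
    refine Prod.ext ?_ (Prod.ext ?_ ?_) <;> simp [ht, ht']
  have h2 : (r.map (· + t')).map (· + t) = r := by
    rw [List.map_map]
    conv_rhs => rw [← List.map_id r]
    refine List.map_congr_left fun x _ => ?_
    simp only [Function.comp_apply, id]
    rw [add_assoc, htt, add_zero]
  refine ⟨sdA π ++ (r.map (· + t') ++ sdB v π), t, hg.block.upper h1, ?_, ?_⟩
  · intro l hl
    have h3 : r ++ glu v l π = (r.map (· + t') ++ (sdB v π ++ (l ++ sdA π))).map (· + t) := by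
      rw [List.map_append, h2]
      rfl
    rw [h3, ring_map, ← hg.block.ring_rotate h1 hl]
  · intro hV hU
    have h3 := hU.shift t'
    rw [e0, csh_a', csh_b'] at h3
    exact (unk_iff_UU hg h3).1 hV.2

/-- A chain can be moved from the lower half to the upper half. -/
theorem pull (hs : GC v s) (hr : Upper 0 0 (ed v s) r) : ∃ (r' : List P3) (t : P3),
    Upper 0 0 v r' ∧
    (∀ l, Lower 0 0 v l → ring (r ++ gl v l s) = LK.shift t (ring (r' ++ l))) ∧
    (UC v s → UU 0 0 (ed v s) r → UU 0 0 v r') := by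
  induction s generalizing v with
  | nil =>
    rw [ed_nil] at hr ⊢
    refine ⟨r, 0, hr, fun l _ => ?_, fun _ h => h⟩
    rw [shift_zero]
    rfl
  | cons π s ih =>
    rw [ed_cons] at hr ⊢
    obtain ⟨r1, t1, h1, h2, h3⟩ := ih hs.2 hr
    obtain ⟨r2, t2, k1, k2, k3⟩ := pull_one hs.1 h1
    refine ⟨r2, t1 + t2, k1, fun l hl => ?_, fun hU h => k3 hU.1 (h3 hU.2 h)⟩
    have e1 : gl v l (π :: s) = gl (v + dsp π) (glu v l π) s := rfl
    rw [e1, h2 _ (lower_glu hs.1 hl), k2 l hl, shift_shift]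

/-- **A chain can be added on both sides.** -/
theorem Rel.gl (h : Rel v l l') (hs : GC v s) :
    Rel (ed v s) (Pool.Agent.KAmp.gl v l s) (Pool.Agent.KAmp.gl v l' s) := by
  refine ⟨lower_gl hs h.left, lower_gl hs h.right, fun r hr => ?_⟩
  obtain ⟨r', t, h1, h2, -⟩ := pull hs hr
  rw [h2 _ h.left, h2 _ h.right]
  exact ((sameType_shift t _).symm.trans (h.same r' h1)).trans (sameType_shift t _)

theorem Rel.glu (h : Rel v l l') (hg : Geo v π) :
    Rel (v + dsp π) (Pool.Agent.KLog.glu v l π) (Pool.Agent.KLog.glu v l' π) := by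
  refine ⟨lower_glu hg h.left, lower_glu hg h.right, fun r hr => ?_⟩
  obtain ⟨r', t, h1, h2, -⟩ := pull_one hg hr
  rw [h2 _ h.left, h2 _ h.right]
  exact ((sameType_shift t _).symm.trans (h.same r' h1)).trans (sameType_shift t _)

end Pool.Agent.KTop
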