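import Pool.Agent.KTop.Shear
import Pool.Agent.KTop.Calc
import Pool.Agent.KLog.Rot
import Pool.Agent.KLog.BasicV
import Pool.Agent.KTube.Stretch

/-! KT3: the shears in all four directions, and inserting a straight level, for halves. -/

set_option autoImplicit false

open Pool.Agent.LK

namespace Pool.Agent.KTop

open Pool.Agent.KTube Pool.Agent.KRing Pool.Agent.KLog
open Pool.Agent.KAmp (gl)
open Pool.Agent.LatticeTube (pedges mem_pedges mem_of_mem_pedges)

variable {k : ℤ} {a b v : ℤ × ℤ} {r l : List P3}

/-! ### The quarter turn -/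

private def ri3 (u : P3) : P3 := (u.2.1, -u.1, u.2.2)

private def ri (c : ℤ × ℤ) : ℤ × ℤ := (c.2, -c.1)

private theorem ri3_rt3 (u : P3) : ri3 (rt3 u) = u := by
  refine Prod.ext rfl (Prod.ext ?_ rfl)
  simp [ri3, rt3]

private theorem ri_rt (c : ℤ × ℤ) : ri (rt c) = c := by
  refine Prod.ext rfl ?_
  simp [ri, rt]

private theorem rt3_inj : Function.Injective rt3 := fun u w h => by
  have := congrArg ri3 h
  rwa [ri3_rt3, ri3_rt3] at this

private theorem rt_inj : Function.Injective rt := fun u w h => by
  have := congrArg ri h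
  rwa [ri_rt, ri_rt] at this

private theorem frame_rt : Frame (0, 1, 0) (-1, 0, 0) (0, 0, 1) :=
  ⟨by simp [dot3], by simp [dot3], by simp [dot3], by simp [dot3], by simp [dot3], by simp [dot3]⟩

private theorem rt3_eq : rt3 = latIso (0, 0, 0) (0, 1, 0) (-1, 0, 0) (0, 0, 1) := by
  funext u
  refine Prod.ext ?_ (Prod.ext ?_ ?_) <;> simp [latIso, rt3]

private theorem rt_add (a b : ℤ × ℤ) : rt (a + b) = rt a + rt b := by
  refine Prod.ext ?_ rfl
  simp only [rt, Prod.fst_add, Prod.snd_add]; ring

private theorem adj_rt3 {u w : P3} (h : Adj u w) : Adj (rt3 u) (rt3 w) := by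
  rw [rt3_eq]
  exact (latIso_adj frame_rt _ u w).2 h

private theorem sameType_rot (E : Finset (Sym2 P3)) : SameType E (mapE rt3 E) := by
  rw [rt3_eq]
  obtain ⟨G, -, hG, hseg⟩ := exists_latHomeo frame_rt (0, 0, 0)
  exact ⟨G, (body_mapE G _ hG hseg E).symm⟩

private theorem ring_rot (c : List P3) : ring (c.map rt3) = mapE rt3 (ring c) := by
  unfold ring
  rw [← pedges_map, List.map_append, List.getLast?_map]
  congr 2
  cases c.getLast? <;> rfl

private theorem chain_rot {l : List P3} (h : l.IsChain Adj) : (l.map rt3).IsChain Adj := by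
  rw [List.isChain_map]
  exact h.imp fun u w huw => adj_rt3 huw

private theorem head_rot {l : List P3} {c : ℤ × ℤ} {j : ℤ} (h : l.head? = some (c.1, c.2, j)) :
    (l.map rt3).head? = some ((rt c).1, (rt c).2, j) := by
  rw [List.head?_map, h]
  rfl

private theorem last_rot {l : List P3} {c : ℤ × ℤ} {j : ℤ}
    (h : l.getLast? = some (c.1, c.2, j)) :
    (l.map rt3).getLast? = some ((rt c).1, (rt c).2, j) := by
  rw [List.getLast?_map, h]
  rfl

private theorem upper_rot (h : Upper k a b r) : Upper k (rt a) (rt b) (r.map rt3) := by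
  refine ⟨h.nodup.map rt3_inj, chain_rot h.chain, head_rot h.head, last_rot h.last, ?_⟩
  intro u hu
  obtain ⟨w, hw, rfl⟩ := List.mem_map.1 hu
  exact h.lev w hw

private theorem lower_rot (h : Lower k a b l) : Lower k (rt a) (rt b) (l.map rt3) := by
  refine ⟨h.nodup.map rt3_inj, chain_rot h.chain, head_rot h.head, last_rot h.last, ?_⟩
  intro u hu
  obtain ⟨w, hw, rfl⟩ := List.mem_map.1 hu
  exact h.lev w hw

/-! ### The shears -/

/-- The polygon with the upper part moved by `e`. -/
private def nw (e : ℤ × ℤ) (k : ℤ) (a b : ℤ × ℤ) (r l : List P3) : List P3 :=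
  r.map (· + (e.1, e.2, 1)) ++ ([(b.1 + e.1, b.2 + e.2, k + 1), (b.1, b.2, k + 1)] ++
    (l ++ [(a.1, a.2, k + 1), (a.1 + e.1, a.2 + e.2, k + 1)]))

private def SA (e : ℤ × ℤ) : Prop := ∀ (k : ℤ) (a b : ℤ × ℤ) (r l : List P3), a ≠ b →
  a + e ≠ b → b + e ≠ a → Upper k a b r → Lower k a b l →
    SameType (ring (r ++ l)) (ring (nw e k a b r l))

private theorem rt3_mk (x y z : ℤ) : rt3 (x, y, z) = (-y, x, z) := rfl

private theorem rt3_add' (u w : P3) : rt3 (u + w) = rt3 u + rt3 w := by
  refine Prod.ext ?_ (Prod.ext ?_ ?_)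
  · simp only [rt3, Prod.fst_add, Prod.snd_add]; ring
  · simp only [rt3, Prod.fst_add, Prod.snd_add]
  · simp only [rt3, Prod.snd_add]

private theorem nw_rot (e : ℤ × ℤ) (k : ℤ) (a b : ℤ × ℤ) (r l : List P3) :
    (nw e k a b r l).map rt3 = nw (rt e) k (rt a) (rt b) (r.map rt3) (l.map rt3) := by
  unfold nw
  simp only [List.map_append, List.map_map, List.map_cons, List.map_nil, rt3_mk, rt, neg_add]
  congr 1
  refine List.map_congr_left fun u _ => ?_
  simp only [Function.comp, rt3_add', rt3_mk]

private theorem sa_step {e : ℤ × ℤ} (h : SA (rt e)) : SA e := by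
  intro k a b r l hab h1 h2 hr hl
  have h3 := h k (rt a) (rt b) (r.map rt3) (l.map rt3) (fun h => hab (rt_inj h))
    (fun h => h1 (rt_inj (by rw [rt_add]; exact h))) (fun h => h2 (rt_inj (by rw [rt_add]; exact h)))
    (upper_rot hr) (lower_rot hl)
  rw [← nw_rot, ← List.map_append, ring_rot, ring_rot] at h3
  exact (sameType_rot _).trans (h3.trans (sameType_rot _).symm)

private theorem sa0 : SA (1, 0) := by
  intro k a b r l hab h1 h2 hr hl
  have h3 := shear_x hab h1 h2 hr hl
  have h4 : nw (1, 0) k a b r l = r.map (· + ((1 : ℤ), (0 : ℤ), (1 : ℤ))) ++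
        ([(b.1 + 1, b.2, k + 1), (b.1, b.2, k + 1)] ++
          (l ++ [(a.1, a.2, k + 1), (a.1 + 1, a.2, k + 1)])) := by
    simp only [nw, add_zero]
  rw [h4]
  exact h3

private theorem sa3 : SA (0, -1) := sa_step (by
  have h : rt (0, -1) = (1, 0) := by decide
  rw [h]; exact sa0)

private theorem sa1 : SA (-1, 0) := sa_step (by
  have h : rt (-1, 0) = (0, -1) := by decide
  rw [h]; exact sa3)

private theorem sa2 : SA (0, 1) := sa_step (by
  have h : rt (0, 1) = (-1, 0) := by decide
  rw [h]; exact sa1)

private theorem sa (i : Fin 4) : SA (e4 i) := by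
  fin_cases i
  · exact sa0
  · exact sa1
  · exact sa2
  · exact sa3

private theorem st4_up (i : Fin 4) : st4 i + (0, 0, 1) = ((e4 i).1, (e4 i).2, 1) := by
  simp [st4]

/-- **The upper part moved by a unit vector (and one level up), both strands bent.** -/
theorem shear (i : Fin 4) (hab : a ≠ b) (h1 : a + e4 i ≠ b) (h2 : b + e4 i ≠ a)
    (hr : Upper k a b r) (hl : Lower k a b l) : SameType (ring (r ++ l))
      (ring (r.map (· + (st4 i + (0, 0, 1))) ++
        ([(b.1 + (e4 i).1, b.2 + (e4 i).2, k + 1), (b.1, b.2, k + 1)] ++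
          (l ++ [(a.1, a.2, k + 1), (a.1 + (e4 i).1, a.2 + (e4 i).2, k + 1)])))) := by
  rw [st4_up]
  exact sa i k a b r l hab h1 h2 hr hl

/-! ### A straight level -/

private theorem block_one (hab : a ≠ b) : Block k (k + 1) a b a b
    [((a.1, a.2, k + 1) : P3)] [((b.1, b.2, k + 1) : P3)] := by
  refine ⟨by omega, by simp, by simp, ?_, by simp, by simp, by simp, by simp, by simp, by simp,
    ?_, ?_⟩
  · intro u hu hu'
    rw [List.mem_singleton] at hu hu'
    subst hu
    exact ne_col hab _ hu'
  · intro u hu
    rw [List.mem_singleton] at hu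
    subst hu
    exact ⟨le_refl _, le_refl _⟩
  · intro u hu
    rw [List.mem_singleton] at hu
    subst hu
    exact ⟨le_refl _, le_refl _⟩

private theorem mem_up {u w : P3} : s(u, w) ∈ pedges (r.map (· + ((0 : ℤ), (0 : ℤ), (1 : ℤ)))) ↔
    s(u - (0, 0, 1), w - (0, 0, 1)) ∈ pedges r := by
  rw [pedges_map]
  have := mem_mapE (add_left_injective ((0 : ℤ), (0 : ℤ), (1 : ℤ))) (E := pedges r)
    (u := u - (0, 0, 1)) (v := w - (0, 0, 1))
  simp only [sub_add_cancel] at this
  exact this

/-- A straight level inserted. -/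
theorem straight (hab : a ≠ b) (hr : Upper k a b r) (hl : Lower k a b l) :
    SameType (ring (r ++ l))
      (ring (r.map (· + ((0 : ℤ), (0 : ℤ), (1 : ℤ))) ++
        ([(b.1, b.2, k + 1)] ++ (l ++ [(a.1, a.2, k + 1)])))) := by
  have h0 := (stretchStatement _ k 1 (ring_of hab hr hl).isPolygon).2
  have h1 : stretch (ring (r ++ l)) k 1 = ring (r.map (· + ((0 : ℤ), (0 : ℤ), (1 : ℤ))) ++
        ([(b.1, b.2, k + 1)] ++ (l ++ [(a.1, a.2, k + 1)]))) := by
    have hb := block_one (k := k) hab
    have hr' : Upper (k + 1) a b (r.map (· + ((0 : ℤ), (0 : ℤ), (1 : ℤ)))) := by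
      have := hr.shift (0, 0, 1)
      simpa [csh] using this
    ext e
    induction e using Sym2.ind with
    | _ u w =>
      rw [mem_stretch, mem_ring_of hr' (hb.lower hl), hb.mem_lower hl, mem_up]
      simp only [Nat.cast_one]
      have hA : s(u, w) ∉ pedges [((a.1, a.2, k + 1) : P3)] := by
        simp [LatticeTube.pedges]
      have hB : s(u, w) ∉ pedges [((b.1, b.2, k + 1) : P3)] := by
        simp [LatticeTube.pedges]
      constructor
      · rintro (⟨h, hu, hw⟩ | ⟨h, hu, hw⟩ | ⟨x, y, i, hi, h, he⟩)
        · rw [mem_ring_of hr hl] at h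
          rcases h with h | h | h | h
          · have := (pedges_lev hr.lev h).1
            omega
          · exact Or.inr (Or.inl (Or.inr (Or.inr (Or.inl h))))
          · unfold leg at h
            rw [Sym2.eq_iff] at h
            rcases h with ⟨rfl, rfl⟩ | ⟨rfl, rfl⟩ <;> simp only at hu hw <;> omega
          · unfold leg at h
            rw [Sym2.eq_iff] at h
            rcases h with ⟨rfl, rfl⟩ | ⟨rfl, rfl⟩ <;> simp only at hu hw <;> omega
        · rw [mem_ring_of hr hl] at h
          rcases h with h | h | h | h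
          · exact Or.inl h
          · have := (pedges_lev hl.lev h).1
            simp only [Prod.snd_sub] at this
            omega
          · unfold leg at h
            rw [Sym2.eq_iff] at h
            rcases h with ⟨h, -⟩ | ⟨-, h⟩
            · have := congrArg (fun q : P3 => q.2.2) h
              simp only [Prod.snd_sub] at this
              omega
            · have := congrArg (fun q : P3 => q.2.2) h
              simp only [Prod.snd_sub] at this
              omega
          · unfold leg at h
            rw [Sym2.eq_iff] at h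
            rcases h with ⟨h, -⟩ | ⟨-, h⟩
            · have := congrArg (fun q : P3 => q.2.2) h
              simp only [Prod.snd_sub] at this
              omega
            · have := congrArg (fun q : P3 => q.2.2) h
              simp only [Prod.snd_sub] at this
              omega
        · have hc : ((x, y) : ℤ × ℤ) ∈ cross (ring (r ++ l)) k := h
          rw [cross_ring_of hr hl] at hc
          have hi' : i = 0 ∨ i = 1 := by omega
          rcases hc with hc | hc
          · subst hc
            rcases hi' with rfl | rfl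
            · refine Or.inr (Or.inl (Or.inr (Or.inr (Or.inr (Or.inl ?_)))))
              rw [he]
              simp [leg]
            · refine Or.inr (Or.inr (Or.inl ?_))
              rw [he]
              simp [leg]
          · rw [Set.mem_singleton_iff] at hc
            subst hc
            rcases hi' with rfl | rfl
            · refine Or.inr (Or.inl (Or.inr (Or.inr (Or.inr (Or.inr ?_)))))
              rw [he]
              simp [leg]
            · refine Or.inr (Or.inr (Or.inr ?_))
              rw [he]
              simp [leg]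
      · have hca : leg a k ∈ ring (r ++ l) :=
          (mem_ring_of hr hl).2 (Or.inr (Or.inr (Or.inl rfl)))
        have hcb : leg b k ∈ ring (r ++ l) :=
          (mem_ring_of hr hl).2 (Or.inr (Or.inr (Or.inr rfl)))
        rintro (h | (h | h | h | h | h) | h | h)
        · have hlv := pedges_lev hr.lev h
          simp only [Prod.snd_sub] at hlv
          refine Or.inr (Or.inl ⟨(mem_ring_of hr hl).2 (Or.inl h), ?_, ?_⟩) <;> omega
        · exact absurd h hA
        · exact absurd h hB
        · have hlv := pedges_lev hl.lev h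
          exact Or.inl ⟨(mem_ring_of hr hl).2 (Or.inr (Or.inl h)), hlv.1, hlv.2⟩
        · exact Or.inr (Or.inr ⟨a.1, a.2, 0, by omega, hca, by rw [h]; simp [leg]⟩)
        · exact Or.inr (Or.inr ⟨b.1, b.2, 0, by omega, hcb, by rw [h]; simp [leg]⟩)
        · exact Or.inr (Or.inr ⟨a.1, a.2, 1, le_refl _, hca, by rw [h]; simp [leg]⟩)
        · exact Or.inr (Or.inr ⟨b.1, b.2, 1, le_refl _, hcb, by rw [h]; simp [leg]⟩)
  rw [← h1]
  exact h0

/-! ### The relation -/

private theorem map_back (t : P3) (r : List P3) : (r.map (· + t)).map (· + -t) = r := by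
  rw [List.map_map]
  conv_rhs => rw [← List.map_id r]
  refine List.map_congr_left fun u _ => ?_
  simp

theorem rel_nil (hv : v ≠ 0) (hl : Lower 0 0 v l) : Rel v l (glu v l ([], [])) := by
  have hg : Geo v ([], []) := (valid_nil.2 hv).1
  have hd : dsp ([], []) = 0 := by simp [dsp]
  refine ⟨hl, ?_, fun r hr => ?_⟩
  · have := lower_glu hg hl
    rwa [hd, add_zero] at this
  · have h1 := straight (Ne.symm hv) hr hl
    have h2 : ring (r ++ glu v l ([], [])) = LK.shift (-((0 : ℤ), (0 : ℤ), (1 : ℤ)))
        (ring (r.map (· + ((0 : ℤ), (0 : ℤ), (1 : ℤ))) ++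
          ([(v.1, v.2, 0 + 1)] ++ (l ++ [((0 : ℤ × ℤ).1, (0 : ℤ × ℤ).2, 0 + 1)])))) := by
      rw [← ring_map, List.map_append, map_back]
      congr 2
    rw [h2]
    exact h1.trans (sameType_shift _ _)

private theorem hz_one (i : Fin 4) : hz [st4 i].sum = e4 i := by
  simp [hz, st4]

private theorem hgt_both (i : Fin 4) : KLog.hgt ([st4 i], [st4 i]) = 1 := by
  simp [KLog.hgt, st4]

private theorem isStep_st4 (i : Fin 4) : IsStep (st4 i) := by
  fin_cases i <;> simp [st4, e4, IsStep]

private theorem e4_ne (i : Fin 4) : e4 i ≠ 0 := by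
  fin_cases i <;> simp [e4]

/-- A block with one level is unknotted. -/
private theorem unk_of_one {π : PP} (hg : Geo v π) (h1 : KLog.hgt π = 1) : Unk v π := by
  obtain ⟨l, hl, -⟩ := exists_flat hg.ne
  have hb := hg.block
  have hne : hz π.1.sum ≠ v + hz π.2.sum := by
    intro h
    have hA := List.mem_of_getLast? hb.lastA
    have hB := List.mem_of_head? hb.headB
    rw [h] at hA
    exact hb.disj _ hA hB
  obtain ⟨r, hr⟩ := exists_UU' (k := KLog.hgt π) hne
  rw [unk_iff hg hl hr, ← hb.ring_rotate hr.2.1 hl.2.1]
  refine hb.unknotted hr hl fun j hj hj' => ?_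
  rw [h1] at hj'
  omega

private theorem sdA_both (i : Fin 4) :
    sdA ([st4 i], [st4 i]) = [(0, 0, 1), ((e4 i).1, (e4 i).2, 1)] := by
  simp [sdA, st4]

private theorem sdB_both (v : ℤ × ℤ) (i : Fin 4) : sdB v ([st4 i], [st4 i]) =
    [(v.1 + (e4 i).1, v.2 + (e4 i).2, 1), (v.1, v.2, 1)] := by
  simp [sdB, st4]

theorem valid_both (i : Fin 4) (hv : v ≠ 0) : Valid v ([st4 i], [st4 i]) ↔
    v ≠ e4 i ∧ v + e4 i ≠ 0 := by
  constructor
  · intro h
    have hb := h.1.block
    rw [sdA_both, sdB_both] at hb
    constructor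
    · rintro rfl
      exact hb.disj ((e4 i).1, (e4 i).2, 1) (by simp) (by simp)
    · intro h'
      have h1 : v.1 + (e4 i).1 = 0 := congrArg Prod.fst h'
      have h2 : v.2 + (e4 i).2 = 0 := congrArg Prod.snd h'
      exact hb.disj (0, 0, 1) (by simp) (by simp [h1, h2])
  · rintro ⟨h', h''⟩
    have hg : Geo v ([st4 i], [st4 i]) := by
      refine ⟨hv, fun d hd => ?_, fun d hd => ?_, ?_, ?_⟩
      · simp only [List.mem_singleton] at hd
        rw [hd]
        exact isStep_st4 i
      · simp only [List.mem_singleton] at hd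
        rw [hd]
        exact isStep_st4 i
      · rw [hgt_both, sdA_both, sdB_both]
        refine ⟨by norm_num, ?_, ?_, ?_, ?_, ?_, ?_, ?_, ?_, ?_, ?_, ?_⟩
        · simp only [List.nodup_cons, List.mem_singleton, List.not_mem_nil, not_false_eq_true,
            List.nodup_nil, and_true, Prod.mk.injEq, not_and]
          intro h1 h2
          exact absurd (Prod.ext h1.symm h2.symm) (e4_ne i)
        · simp only [List.nodup_cons, List.mem_singleton, List.not_mem_nil, not_false_eq_true,
            List.nodup_nil, and_true, Prod.mk.injEq, not_and]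
          intro h1 h2
          exact absurd (Prod.ext (by simpa using h1) (by simpa using h2)) (e4_ne i)
        · intro u hu hu'
          simp only [List.mem_cons, List.not_mem_nil, or_false] at hu hu'
          rcases hu with rfl | rfl
          · rcases hu' with h1 | h1
            · simp only [Prod.mk.injEq, and_true] at h1
              exact h'' (Prod.ext h1.1.symm h1.2.symm)
            · simp only [Prod.mk.injEq, and_true] at h1
              exact hv (Prod.ext h1.1.symm h1.2.symm)
          · rcases hu' with h1 | h1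
            · simp only [Prod.mk.injEq, and_true] at h1
              refine hv (Prod.ext ?_ ?_)
              · have := h1.1; simp only [Prod.fst_zero]; omega
              · have := h1.2; simp only [Prod.snd_zero]; omega
            · simp only [Prod.mk.injEq, and_true] at h1
              exact h' (Prod.ext h1.1.symm h1.2.symm)
        · have h1 : ((e4 i).1, (e4 i).2, (1 : ℤ)) = (0, 0, 1) + st4 i := by simp [st4]
          rw [h1]
          simp only [List.isChain_cons_cons, List.isChain_singleton, and_true]
          exact adj_add.2 (isStep_st4 i)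
        · have h1 : (v.1 + (e4 i).1, v.2 + (e4 i).2, (1 : ℤ)) = (v.1, v.2, 1) + st4 i := by
            simp [st4]
          rw [h1]
          simp only [List.isChain_cons_cons, List.isChain_singleton, and_true]
          exact (adj_add.2 (isStep_st4 i)).symm
        · simp
        · simp only [hz_one]
          rfl
        · simp only [hz_one]
          rfl
        · simp
        · intro u hu
          simp only [List.mem_cons, List.not_mem_nil, or_false] at hu
          rcases hu with rfl | rfl <;> simp
        · intro u hu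
          simp only [List.mem_cons, List.not_mem_nil, or_false] at hu
          rcases hu with rfl | rfl <;> simp
      · intro j hj hj'
        rw [hgt_both] at hj'
        omega
    exact ⟨hg, unk_of_one hg (hgt_both i)⟩

theorem rel_both (i : Fin 4) (hv : v ≠ 0) (h1 : v ≠ e4 i) (h2 : v + e4 i ≠ 0)
    (hl : Lower 0 0 v l) : Rel v l (glu v l ([st4 i], [st4 i])) := by
  have hg : Geo v ([st4 i], [st4 i]) := ((valid_both i hv).2 ⟨h1, h2⟩).1
  have hd : dsp ([st4 i], [st4 i]) = 0 := by simp [dsp]
  refine ⟨hl, ?_, fun r hr => ?_⟩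
  · have := lower_glu hg hl
    rwa [hd, add_zero] at this
  · have h3 := shear i (Ne.symm hv) (by rw [zero_add]; exact h1.symm) h2 hr hl
    have h4 : ring (r ++ glu v l ([st4 i], [st4 i])) = LK.shift (-(st4 i + (0, 0, 1)))
        (ring (r.map (· + (st4 i + (0, 0, 1))) ++
        ([(v.1 + (e4 i).1, v.2 + (e4 i).2, 0 + 1), (v.1, v.2, 0 + 1)] ++
          (l ++ [((0 : ℤ × ℤ).1, (0 : ℤ × ℤ).2, 0 + 1),
            ((0 : ℤ × ℤ).1 + (e4 i).1, (0 : ℤ × ℤ).2 + (e4 i).2, 0 + 1)])))) := by
      rw [← ring_map, List.map_append, map_back]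
      congr 2
    rw [h4]
    exact h3.trans (sameType_shift _ _)

end Pool.Agent.KTop
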