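import Pool.Agent.KTop.Calc
import Pool.Agent.KLog.BasicV

/-! KT8: a chain of blocks as one pair of words; blocks with one level. -/

set_option autoImplicit false

open Pool.Agent.LK

namespace Pool.Agent.KTop

open Pool.Agent.KTube Pool.Agent.KRing Pool.Agent.KLog
open Pool.Agent.KAmp (gl)

variable {v : ℤ × ℤ} {l r : List P3} {π ρ : PP} {s : List PP} {n : ℕ}

/-- The composition of two pairs. -/
def cat2 (π ρ : PP) : PP := (π.1 ++ (0, 0, 1) :: ρ.1, π.2 ++ (0, 0, 1) :: ρ.2)

/-- The composition of several pairs. -/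
def cats : PP → List PP → PP
  | π, [] => π
  | π, ρ :: s => cats (cat2 π ρ) s

private theorem wk_snoc (p d : P3) (s t : List P3) :
    wk p (s ++ d :: t) = wk p s ++ wk (p + s.sum + d) t := by
  induction s generalizing p with
  | nil => simp
  | cons e s ih =>
    rw [List.cons_append, wk_cons, ih, wk_cons, List.sum_cons, List.cons_append, add_assoc p e]

theorem level (hg : Geo v π) : π.2.sum.2.2 = π.1.sum.2.2 := by
  have hA := hg.block.lastA
  have hB := hg.block.headB
  rw [sdA, last_wk] at hA
  rw [sdB, List.head?_reverse, last_wk] at hB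
  simp only [Option.some.injEq, Prod.ext_iff, Prod.fst_add, Prod.snd_add] at hA hB
  omega

theorem glu_cat2 (h : π.2.sum.2.2 = π.1.sum.2.2) :
    glu (v + dsp π) (glu v l π) ρ = glu v l (cat2 π ρ) := by
  have hA : sdA (cat2 π ρ) = sdA π ++ (sdA ρ).map (· + (π.1.sum.1, π.1.sum.2.1, hgt π)) := by
    rw [sdA, cat2, wk_snoc, sdA, sdA, map_wk]
    congr 2
    ext <;> simp [KLog.hgt]
    ring
  have hB : sdB v (cat2 π ρ) = (sdB (v + dsp π) ρ).map (· + (π.1.sum.1, π.1.sum.2.1, hgt π)) ++
      sdB v π := by
    rw [sdB, cat2, wk_snoc, List.reverse_append, sdB, sdB, List.map_reverse, map_wk]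
    congr 3
    ext
    · simp [dsp, hz]
      ring
    · simp [dsp, hz]
      ring
    · simp [KLog.hgt, h]
      ring
  have ht : ∀ q : P3, q + (-((cat2 π ρ).1.sum.1), -((cat2 π ρ).1.sum.2.1), -(hgt (cat2 π ρ))) =
      q + (-(π.1.sum.1), -(π.1.sum.2.1), -(hgt π)) +
        (-(ρ.1.sum.1), -(ρ.1.sum.2.1), -(hgt ρ)) := by
    intro q
    ext <;> simp [cat2, KLog.hgt] <;> ring
  have hc : ∀ q : P3, q + (π.1.sum.1, π.1.sum.2.1, hgt π) +
      (-(π.1.sum.1), -(π.1.sum.2.1), -(hgt π)) = q := by
    intro q
    ext <;> simp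
  unfold glu
  rw [hA, hB]
  simp only [List.map_append, List.map_map, List.append_assoc, Function.comp_def, ht, hc]

private theorem dsp_cat2 : dsp (cat2 π ρ) = dsp π + dsp ρ := by
  ext <;> simp [dsp, cat2, hz] <;> ring

private theorem level_cat2 (h : π.2.sum.2.2 = π.1.sum.2.2) (h' : ρ.2.sum.2.2 = ρ.1.sum.2.2) :
    (cat2 π ρ).2.sum.2.2 = (cat2 π ρ).1.sum.2.2 := by
  simp [cat2, h, h']

theorem gl_cats (h : ∀ ρ ∈ π :: s, ρ.2.sum.2.2 = ρ.1.sum.2.2) :
    gl v l (π :: s) = glu v l (cats π s) := by
  induction s generalizing π with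
  | nil => rfl
  | cons ρ s ih =>
    have h1 : gl v l (π :: ρ :: s) = gl v l (cat2 π ρ :: s) := by
      change gl (v + dsp π + dsp ρ) (glu (v + dsp π) (glu v l π) ρ) s =
        gl (v + dsp (cat2 π ρ)) (glu v l (cat2 π ρ)) s
      rw [glu_cat2 (h π (by simp)), dsp_cat2, add_assoc]
    rw [h1, ih]
    · rfl
    · intro σ hσ
      rcases List.mem_cons.1 hσ with rfl | hσ
      · exact level_cat2 (h π (by simp)) (h ρ (by simp))
      · exact h σ (by simp [hσ])

theorem cats_fst (π : PP) (s : List PP) :
    (cats π s).1 = π.1 ++ (s.map fun ρ => ((0, 0, 1) : P3) :: ρ.1).flatten := by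
  induction s generalizing π with
  | nil => simp [cats]
  | cons ρ s ih =>
    rw [cats, ih]
    simp [cat2]

theorem cats_snd (π : PP) (s : List PP) :
    (cats π s).2 = π.2 ++ (s.map fun ρ => ((0, 0, 1) : P3) :: ρ.2).flatten := by
  induction s generalizing π with
  | nil => simp [cats]
  | cons ρ s ih =>
    rw [cats, ih]
    simp [cat2]

/-- The polygon composed of an upper half, a pair and a lower half, not normalised. -/
theorem ring_glu (v : ℤ × ℤ) (l r : List P3) (π : PP) :
    ring (r ++ glu v l π) = LK.shift (-(π.1.sum.1), -(π.1.sum.2.1), -(hgt π))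
      (ring (r.map (· + (π.1.sum.1, π.1.sum.2.1, hgt π)) ++
        ((wk (v.1, v.2, 1) π.2).reverse ++ (l ++ wk (0, 0, 1) π.1)))) := by
  rw [← ring_map, List.map_append, List.map_map]
  congr 2
  symm
  convert List.map_id r
  ext q <;> simp

/-- A block with one level is unknotted. -/
private theorem unk_of_one (hg : Geo v π) (h1 : hgt π = 1) : Unk v π := by
  obtain ⟨l, hl, -⟩ := exists_flat hg.ne
  have hb := hg.block
  have hne : hz π.1.sum ≠ v + hz π.2.sum := by
    intro h
    have hA := List.mem_of_getLast? hb.lastA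
    have hB := List.mem_of_head? hb.headB
    rw [h] at hA
    exact hb.disj _ hA hB
  obtain ⟨r, hr⟩ := exists_UU' (k := hgt π) hne
  rw [unk_iff hg hl hr, ← hb.ring_rotate hr.2.1 hl.2.1]
  refine hb.unknotted hr hl fun j hj hj' => ?_
  rw [h1] at hj'
  omega

private theorem isStep_st4 (i : Fin 4) : IsStep (st4 i) := by
  fin_cases i <;> simp [st4, e4, IsStep]

private theorem sum_row {s : List P3} (hs : ∀ d ∈ s, ∃ i, d = st4 i) : s.sum.2.2 = 0 := by
  induction s with
  | nil => rfl
  | cons d s ih =>
    obtain ⟨i, hi⟩ := hs d (by simp)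
    have h1 := ih fun e he => hs e (by simp [he])
    rw [List.sum_cons]
    change d.2.2 + s.sum.2.2 = 0
    rw [h1, hi]
    rfl

/-- A pair with one level, the second strand moves. -/
theorem valid_row {s : List P3} (hv : v ≠ 0) (hs : ∀ d ∈ s, ∃ i, d = st4 i)
    (hnd : (wk (v.1, v.2, 1) s).Nodup) (h0 : ((0, 0, 1) : P3) ∉ wk (v.1, v.2, 1) s) :
    Valid v ([], s) := by
  have hgt1 : hgt ([], s) = 1 := by simp [KLog.hgt]
  have hlev : ∀ u ∈ wk (v.1, v.2, 1) s, u.2.2 = 1 := by
    intro u hu
    obtain ⟨A, B, rfl, rfl⟩ := mem_wk.1 hu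
    have h1 := sum_row (s := A) fun d hd => hs d (by simp [hd])
    change 1 + A.sum.2.2 = 1
    rw [h1, add_zero]
  have hg : Geo v ([], s) := by
    refine ⟨hv, fun d hd => by simp at hd, fun d hd => ?_, ?_, ?_⟩
    · obtain ⟨i, rfl⟩ := hs d hd
      exact isStep_st4 i
    · rw [hgt1]
      refine ⟨by norm_num, by simp [sdA], ?_, ?_, by simp [sdA], ?_, by simp [sdA],
        by simp [sdA, hz], ?_, ?_, ?_, ?_⟩
      · rw [sdB, List.nodup_reverse]
        exact hnd
      · intro u hu hu'
        simp only [sdA, wk_nil, List.mem_singleton] at hu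
        subst hu
        rw [sdB, List.mem_reverse] at hu'
        exact h0 hu'
      · rw [sdB, List.isChain_reverse]
        refine List.IsChain.imp ?_ (chain_wk.2 fun d hd => ?_)
        · intro a b hab
          exact hab.symm
        · obtain ⟨i, rfl⟩ := hs d hd
          exact isStep_st4 i
      · rw [sdB, List.head?_reverse, last_wk]
        congr 1
        have h1 := sum_row hs
        ext
        · simp [hz]
        · simp [hz]
        · simp [h1]
      · rw [sdB, List.getLast?_reverse, head_wk]
        rfl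
      · intro u hu
        simp only [sdA, wk_nil, List.mem_singleton] at hu
        subst hu
        simp
      · intro u hu
        rw [sdB, List.mem_reverse] at hu
        rw [hlev u hu]
        simp
    · intro j hj hj'
      rw [hgt1] at hj'
      omega
  exact ⟨hg, unk_of_one hg hgt1⟩

private theorem dsp_left (i : Fin 4) : dsp ([st4 i], []) = -e4 i := by
  ext <;> simp [dsp, hz, st4]

private theorem dsp_right (i : Fin 4) : dsp ([], [st4 i]) = e4 i := by
  ext <;> simp [dsp, hz, st4]

private theorem ed_replicate (v : ℤ × ℤ) (n : ℕ) (π : PP) :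
    ed v (List.replicate n π) = v + n • dsp π := by
  rw [ed, List.map_replicate, List.sum_replicate]

theorem right_east (h : 0 < v.1) : UC v (List.replicate n ([], [st4 0])) ∧
    ed v (List.replicate n ([], [st4 0])) = v + ((n : ℤ), 0) := by
  constructor
  · induction n generalizing v with
    | zero =>
      intro h0
      rw [h0] at h
      exact lt_irrefl _ h
    | succ n ih =>
      have h1 : (v + e4 0).1 = v.1 + 1 := rfl
      refine ⟨(valid_right 0).2 ⟨fun h0 => ?_, fun h0 => ?_⟩, ?_⟩
      · rw [h0] at h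
        exact lt_irrefl _ h
      · rw [h0] at h1
        change (0 : ℤ) = v.1 + 1 at h1
        omega
      · rw [dsp_right]
        exact ih (by rw [h1]; omega)
  · rw [ed_replicate, dsp_right]
    ext <;> simp [e4]

theorem right_west (h : (n : ℤ) < v.1) : UC v (List.replicate n ([], [st4 1])) ∧
    ed v (List.replicate n ([], [st4 1])) = v - ((n : ℤ), 0) := by
  constructor
  · induction n generalizing v with
    | zero =>
      intro h0
      rw [h0] at h
      exact lt_irrefl _ h
    | succ n ih =>
      have h1 : (v + e4 1).1 = v.1 + -1 := rfl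
      push_cast at h
      refine ⟨(valid_right 1).2 ⟨fun h0 => ?_, fun h0 => ?_⟩, ?_⟩
      · rw [h0] at h
        change (n : ℤ) + 1 < 0 at h
        omega
      · rw [h0] at h1
        change (0 : ℤ) = v.1 + -1 at h1
        omega
      · rw [dsp_right]
        exact ih (by rw [h1]; omega)
  · rw [ed_replicate, dsp_right]
    ext <;> simp [e4, sub_eq_add_neg]

theorem left_east (h : (n : ℤ) < v.1) : UC v (List.replicate n ([st4 0], [])) ∧
    ed v (List.replicate n ([st4 0], [])) = v - ((n : ℤ), 0) := by
  constructor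
  · induction n generalizing v with
    | zero =>
      intro h0
      rw [h0] at h
      exact lt_irrefl _ h
    | succ n ih =>
      have h1 : (v + -e4 0).1 = v.1 + -1 := rfl
      push_cast at h
      refine ⟨(valid_left 0).2 ⟨fun h0 => ?_, fun h0 => ?_⟩, ?_⟩
      · rw [h0] at h
        change (n : ℤ) + 1 < 0 at h
        omega
      · rw [h0] at h
        change (n : ℤ) + 1 < 1 at h
        omega
      · rw [dsp_left]
        exact ih (by rw [h1]; omega)
  · rw [ed_replicate, dsp_left]
    ext <;> simp [e4, sub_eq_add_neg]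

theorem left_west (h : 0 < v.1) : UC v (List.replicate n ([st4 1], [])) ∧
    ed v (List.replicate n ([st4 1], [])) = v + ((n : ℤ), 0) := by
  constructor
  · induction n generalizing v with
    | zero =>
      intro h0
      rw [h0] at h
      exact lt_irrefl _ h
    | succ n ih =>
      have h1 : (v + -e4 1).1 = v.1 + 1 := rfl
      refine ⟨(valid_left 1).2 ⟨fun h0 => ?_, fun h0 => ?_⟩, ?_⟩
      · rw [h0] at h
        exact lt_irrefl _ h
      · rw [h0] at h
        change (0 : ℤ) < -1 at h
        omega
      · rw [dsp_left]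
        exact ih (by rw [h1]; omega)
  · rw [ed_replicate, dsp_left]
    ext <;> simp [e4]

end Pool.Agent.KTop
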