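import Pool.Agent.KTop.ShearAll

/-! KT4: there-and-back chains, and chains that move both strands. -/

set_option autoImplicit false

open Pool.Agent.LK

namespace Pool.Agent.KTop

open Pool.Agent.KTube Pool.Agent.KRing Pool.Agent.KLog
open Pool.Agent.KAmp (gl)
open Pool.Agent.LatticeTube (pedges mem_pedges mem_of_mem_pedges)

variable {v w : ℤ × ℤ} {l : List P3}

/-! ### Closed walks given by lists -/

private theorem ring_comm {x y : List P3} (hx : x ≠ []) (hy : y ≠ []) :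
    ring (x ++ y) = ring (y ++ x) := by
  have key : ∀ (x y : List P3) (x0 x1 y0 y1 : P3), x.head? = some x0 → x.getLast? = some x1 →
      y.head? = some y0 → y.getLast? = some y1 → ∀ e, e ∈ ring (x ++ y) ↔
      e = s(y1, x0) ∨ e = s(x1, y0) ∨ e ∈ pedges x ∨ e ∈ pedges y := by
    intro x y x0 x1 y0 y1 h0 h1 h2 h3 e
    have h4 : (x ++ y).getLast? = some y1 := by
      rw [List.getLast?_append, h3]; rfl
    have h5 : (x ++ y).head? = some x0 := by
      rw [List.head?_append, h0]; rfl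
    rw [ring_eq h4, ← List.singleton_append, mem_pedges_cat (A := [y1]) (a := y1) rfl h5,
      mem_pedges_cat h1 h2]
    have h6 : e ∉ pedges [y1] := by simp [Pool.Agent.LatticeTube.pedges]
    tauto
  obtain ⟨x0, hx0⟩ : ∃ u, x.head? = some u := by
    cases x with
    | nil => exact absurd rfl hx
    | cons u x => exact ⟨u, rfl⟩
  obtain ⟨y0, hy0⟩ : ∃ u, y.head? = some u := by
    cases y with
    | nil => exact absurd rfl hy
    | cons u y => exact ⟨u, rfl⟩
  have hx1 : x.getLast? = some (x.getLast hx) := List.getLast?_eq_getLast_of_ne_nil hx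
  have hy1 : y.getLast? = some (y.getLast hy) := List.getLast?_eq_getLast_of_ne_nil hy
  ext e
  rw [key x y _ _ _ _ hx0 hx1 hy0 hy1, key y x _ _ _ _ hy0 hy1 hx0 hx1]
  tauto

private theorem verts_ring {c : List P3} {u : P3} (h : u ∈ verts (ring c)) : u ∈ c := by
  obtain ⟨w, hw⟩ := h
  have h1 := (mem_of_mem_pedges hw).1
  rcases List.mem_append.1 h1 with h2 | h2
  · rw [Option.mem_toList] at h2
    exact List.mem_of_getLast? h2
  · exact h2

/-- An edge of a closed walk replaced by three edges. -/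
private theorem bump_ring {X Y : List P3} {p q : P3} (d : P3) (h : (X ++ p :: q :: Y).Nodup)
    (hY : Y ≠ []) : ring (X ++ p :: (p + d) :: (q + d) :: q :: Y) =
      bump (ring (X ++ p :: q :: Y)) p q d := by
  obtain ⟨z, hz⟩ : ∃ z, Y.getLast? = some z := ⟨_, List.getLast?_eq_getLast_of_ne_nil hY⟩
  have hzY : z ∈ Y := List.mem_of_getLast? hz
  have e1 : (X ++ p :: q :: Y).getLast? = some z := by
    simp [List.getLast?_append, List.getLast?_cons, hz]
  have e2 : (X ++ p :: (p + d) :: (q + d) :: q :: Y).getLast? = some z := by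
    simp [List.getLast?_append, List.getLast?_cons, hz]
  have e3 : z :: (X ++ p :: q :: Y) = (z :: X ++ [p]) ++ q :: Y := by simp
  have e4' : z :: (X ++ p :: (p + d) :: (q + d) :: q :: Y) =
      (z :: X ++ [p]) ++ (p + d) :: (q + d) :: q :: Y := by simp
  have hA : (z :: X ++ [p]).getLast? = some p := List.getLast?_concat
  have hn := List.nodup_append.1 h
  have hn2 := List.nodup_cons.1 hn.2.1
  have hn3 := List.nodup_cons.1 hn2.2
  have k1 : s(p, q) ∉ pedges (z :: X ++ [p]) := by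
    intro hm
    have h1 := (mem_of_mem_pedges hm).2
    rcases List.mem_append.1 h1 with h2 | h2
    · rcases List.mem_cons.1 h2 with h3 | h3
      · exact hn3.1 (h3 ▸ hzY)
      · exact hn.2.2 q h3 q (by simp) rfl
    · rw [List.mem_singleton] at h2
      exact hn2.1 (by rw [h2]; simp)
  have k2 : s(p, q) ∉ pedges (q :: Y) := fun hm => hn2.1 (mem_of_mem_pedges hm).1
  ext e
  rw [mem_bump, ring_eq e1, ring_eq e2, e3, e4', mem_pedges_cat hA (B := q :: Y) (b := q) rfl,
    mem_pedges_cat hA (B := (p + d) :: (q + d) :: q :: Y) (b := p + d) rfl, pedges_cons_cons,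
    pedges_cons_cons, Finset.mem_insert, Finset.mem_insert]
  constructor
  · rintro (h1 | h1 | h1 | h1 | h1)
    · exact Or.inl ⟨Or.inl h1, fun he => k1 (he ▸ h1)⟩
    · exact Or.inr (Or.inl h1)
    · exact Or.inr (Or.inr (Or.inl h1))
    · exact Or.inr (Or.inr (Or.inr h1))
    · exact Or.inl ⟨Or.inr (Or.inr h1), fun he => k2 (he ▸ h1)⟩
  · rintro (⟨h1 | h1 | h1, h2⟩ | h1 | h1 | h1)
    · exact Or.inl h1
    · exact absurd h1 h2
    · exact Or.inr (Or.inr (Or.inr (Or.inr h1)))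
    · exact Or.inr (Or.inl h1)
    · exact Or.inr (Or.inr (Or.inl h1))
    · exact Or.inr (Or.inr (Or.inr (Or.inl h1)))

private theorem same_bump {X Y : List P3} {p q d : P3} (h : (X ++ p :: q :: Y).Nodup)
    (hP : IsPolygon (ring (X ++ p :: q :: Y))) (hY : Y ≠ []) (hd : IsUnit3 d)
    (h1 : p + d ∉ X ++ p :: q :: Y) (h2 : q + d ∉ X ++ p :: q :: Y) :
    SameType (ring (X ++ p :: q :: Y)) (ring (X ++ p :: (p + d) :: (q + d) :: q :: Y)) := by
  rw [bump_ring d h hY]
  refine moveFacts.bump _ _ _ _ hP ?_ hd (fun h3 => h1 (verts_ring h3))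
    fun h3 => h2 (verts_ring h3)
  exact mem_ring_mid _ X Y p q rfl

/-! ### Two straight levels -/

private theorem block_one {k : ℤ} {a b : ℤ × ℤ} (hab : a ≠ b) : Block k (k + 1) a b a b
    [((a.1, a.2, k + 1) : P3)] [((b.1, b.2, k + 1) : P3)] := by
  refine ⟨by omega, by simp, by simp, ?_, by simp, by simp, by simp, by simp, by simp, by simp,
    ?_, ?_⟩
  · intro u hu hu'
    rw [List.mem_singleton] at hu hu'
    subst hu
    exact ne_col hab _ hu'
  · intro u hu
    rw [List.mem_singleton] at hu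
    subst hu
    exact ⟨le_refl _, le_refl _⟩
  · intro u hu
    rw [List.mem_singleton] at hu
    subst hu
    exact ⟨le_refl _, le_refl _⟩

private theorem straight2 {r : List P3} (hv : v ≠ 0) (hr : Upper 0 0 v r) (hl : Lower 0 0 v l) :
    SameType (ring (r ++ l)) (ring (r.map (· + ((0 : ℤ), (0 : ℤ), (2 : ℤ))) ++
      ([(v.1, v.2, 2), (v.1, v.2, 1)] ++ (l ++ [(0, 0, 1), (0, 0, 2)])))) ∧
    Upper 2 0 v (r.map (· + ((0 : ℤ), (0 : ℤ), (2 : ℤ)))) ∧
    Lower 2 0 v ([(v.1, v.2, 2), (v.1, v.2, 1)] ++ (l ++ [(0, 0, 1), (0, 0, 2)])) := by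
  have hv' : (0 : ℤ × ℤ) ≠ v := Ne.symm hv
  have hc : ∀ (c : ℤ × ℤ) (j : ℤ), csh (0, 0, j) c = c := fun c j => by simp [csh]
  have hr1 : Upper 1 0 v (r.map (· + ((0 : ℤ), (0 : ℤ), (1 : ℤ)))) := by
    have := hr.shift (0, 0, 1)
    rw [hc, hc] at this
    exact this
  have hr2 : Upper 2 0 v (r.map (· + ((0 : ℤ), (0 : ℤ), (2 : ℤ)))) := by
    have := hr.shift (0, 0, 2)
    rw [hc, hc] at this
    exact this
  have hl1 : Lower (0 + 1) 0 v ([(v.1, v.2, 0 + 1)] ++ (l ++ [(0, 0, 0 + 1)])) :=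
    (block_one (k := 0) hv').lower hl
  have hl1' : Lower 1 0 v ([(v.1, v.2, 1)] ++ (l ++ [(0, 0, 1)])) := by simpa using hl1
  have hl2 := (block_one (k := 1) hv').lower hl1'
  have e1 : [((v.1, v.2, 1 + 1) : P3)] ++ (([(v.1, v.2, 1)] ++ (l ++ [(0, 0, 1)])) ++
      [((0 : ℤ × ℤ).1, (0 : ℤ × ℤ).2, 1 + 1)]) =
      [(v.1, v.2, 2), (v.1, v.2, 1)] ++ (l ++ [(0, 0, 1), (0, 0, 2)]) := by
    simp
  rw [e1] at hl2
  have h1 := straight hv' hr hl
  have h2 := straight hv' hr1 hl1'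
  rw [e1] at h2
  have e2 : (r.map (· + ((0 : ℤ), (0 : ℤ), (1 : ℤ)))).map (· + ((0 : ℤ), (0 : ℤ), (1 : ℤ))) =
      r.map (· + ((0 : ℤ), (0 : ℤ), (2 : ℤ))) := by
    rw [List.map_map]
    refine List.map_congr_left fun u _ => ?_
    simp only [Function.comp_apply, add_assoc]
    rfl
  rw [e2] at h2
  have e3 : [((v.1, v.2, 0 + 1) : P3)] ++ (l ++ [((0 : ℤ × ℤ).1, (0 : ℤ × ℤ).2, 0 + 1)]) =
      [(v.1, v.2, 1)] ++ (l ++ [(0, 0, 1)]) := by simp
  rw [e3] at h1
  exact ⟨h1.trans h2, hr2, hl2⟩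

/-! ### The opposite step -/

private def op : Fin 4 → Fin 4 := ![1, 0, 3, 2]

private theorem e4_op (i : Fin 4) : e4 (op i) = -e4 i := by
  fin_cases i <;> simp [op, e4]

private theorem st4_op (i : Fin 4) : st4 (op i) = -st4 i := by
  simp [st4, e4_op]

private theorem e4_ne (i : Fin 4) : e4 i ≠ 0 := by
  fin_cases i <;> simp [e4]

private theorem unit_st4 (i : Fin 4) : IsUnit3 (st4 i) := by
  fin_cases i <;> simp [st4, e4, IsUnit3, Adj]

private theorem map_back (t : P3) (r : List P3) : (r.map (· + t)).map (· + -t) = r := by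
  rw [List.map_map]
  conv_rhs => rw [← List.map_id r]
  refine List.map_congr_left fun u _ => ?_
  simp

private theorem comp_add (t t' : P3) :
    ((fun u : P3 => u + t') ∘ fun u => u + t) = fun u => u + (t + t') := by
  funext u
  simp only [Function.comp_apply, add_assoc]

private theorem gl_right (v : ℤ × ℤ) (l : List P3) (i : Fin 4) :
    gl v l [([], [st4 i]), ([], [-st4 i])] =
      ([((v.1, v.2, 2) : P3), (v.1, v.2, 2) + st4 i, (v.1, v.2, 1) + st4 i, (v.1, v.2, 1)] ++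
        (l ++ [(0, 0, 1), (0, 0, 2)])).map (· + -((0 : ℤ), (0 : ℤ), (2 : ℤ))) := by
  simp only [gl, glu, sdA, sdB, dsp, hz, KLog.hgt, st4, wk_nil, wk_cons, List.sum_nil,
    List.sum_cons, List.map_append, List.map_map, List.map_cons, List.map_nil,
    List.reverse_cons, List.reverse_nil, List.nil_append, List.cons_append, Prod.fst_zero,
    Prod.snd_zero, Prod.mk_add_mk, Prod.neg_mk, add_zero, neg_zero, zero_add,
    List.append_assoc, comp_add, Prod.fst_add, Prod.snd_add, Prod.fst_sub, Prod.snd_sub,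
    sub_zero, add_neg_cancel_right]
  norm_num

private theorem gl_left (v : ℤ × ℤ) (l : List P3) (i : Fin 4) :
    gl v l [([st4 i], []), ([-st4 i], [])] =
      ([((v.1, v.2, 2) : P3), (v.1, v.2, 1)] ++
        (l ++ [(0, 0, 1), (0, 0, 1) + st4 i, (0, 0, 2) + st4 i, (0, 0, 2)])).map
          (· + -((0 : ℤ), (0 : ℤ), (2 : ℤ))) := by
  simp only [gl, glu, sdA, sdB, dsp, hz, KLog.hgt, st4, wk_nil, wk_cons, List.sum_nil,
    List.sum_cons, List.map_append, List.map_map, List.map_cons, List.map_nil,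
    List.reverse_cons, List.reverse_nil, List.nil_append, List.cons_append, Prod.fst_zero,
    Prod.snd_zero, Prod.mk_add_mk, Prod.neg_mk, add_zero, neg_zero, zero_add,
    List.append_assoc, comp_add, Prod.fst_add, Prod.snd_add, Prod.fst_sub, Prod.snd_sub,
    zero_sub, neg_neg, neg_add_cancel_right, neg_add_cancel, add_neg_cancel]
  norm_num

private theorem uc_right (i : Fin 4) (hv : v ≠ 0) (h : v + e4 i ≠ 0) :
    UC v [([], [st4 i]), ([], [-st4 i])] := by
  have hd : dsp ([], [st4 i]) = e4 i := by simp [dsp, hz, st4]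
  have hd' : dsp ([], [-st4 i]) = -e4 i := by simp [dsp, hz, st4]; rfl
  refine ⟨(valid_right i).2 ⟨hv, h⟩, ?_, ?_⟩
  · rw [hd, ← st4_op, valid_right, e4_op]
    exact ⟨h, by simpa using hv⟩
  · rw [hd, hd']
    simpa [UC] using hv

private theorem ed_right (v : ℤ × ℤ) (i : Fin 4) :
    ed v [([], [st4 i]), ([], [-st4 i])] = v := by
  have hd : dsp ([], [st4 i]) = e4 i := by simp [dsp, hz, st4]
  have hd' : dsp ([], [-st4 i]) = -e4 i := by simp [dsp, hz, st4]; rfl
  rw [ed_cons, ed_cons, ed_nil, hd, hd']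
  simp

private theorem uc_left (i : Fin 4) (hv : v ≠ 0) (h : v ≠ e4 i) :
    UC v [([st4 i], []), ([-st4 i], [])] := by
  have hd : dsp ([st4 i], []) = -e4 i := by simp [dsp, hz, st4]
  have hd' : dsp ([-st4 i], []) = e4 i := by simp [dsp, hz, st4]
  have h0 : v + -e4 i ≠ 0 := fun h1 => h (by rwa [← sub_eq_add_neg, sub_eq_zero] at h1)
  refine ⟨(valid_left i).2 ⟨hv, h⟩, ?_, ?_⟩
  · rw [hd, ← st4_op, valid_left, e4_op]
    exact ⟨h0, by simpa using hv⟩
  · rw [hd, hd']
    simpa [UC] using hv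

private theorem ed_left (v : ℤ × ℤ) (i : Fin 4) :
    ed v [([st4 i], []), ([-st4 i], [])] = v := by
  have hd : dsp ([st4 i], []) = -e4 i := by simp [dsp, hz, st4]
  have hd' : dsp ([-st4 i], []) = e4 i := by simp [dsp, hz, st4]
  rw [ed_cons, ed_cons, ed_nil, hd, hd']
  simp

theorem rel_right (i : Fin 4) (hv : v ≠ 0) (h : v + e4 i ≠ 0) (hl : Lower 0 0 v l) :
    Rel v l (gl v l [([], [st4 i]), ([], [-st4 i])]) := by
  refine ⟨hl, ?_, fun r hr => ?_⟩
  · have := lower_gl (uc_right i hv h).gc hl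
    rwa [ed_right] at this
  · obtain ⟨h1, hr2, hl2⟩ := straight2 hv hr hl
    have hR := ring_of (Ne.symm hv) hr2 hl2
    have hne : ∀ j : ℤ, 1 ≤ j → j ≤ 2 → ((v.1, v.2, j) : P3) + st4 i ∉
        r.map (· + ((0 : ℤ), (0 : ℤ), (2 : ℤ))) ++
        (v.1, v.2, 2) :: (v.1, v.2, 1) :: (l ++ [(0, 0, 1), (0, 0, 2)]) := by
      intro j hj hj' hm
      have hz : (((v.1, v.2, j) : P3) + st4 i).2.2 = j := by simp [st4]
      rcases List.mem_append.1 hm with h2 | h2
      · have := hr2.lev _ h2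
        omega
      · rw [List.mem_cons, List.mem_cons, List.mem_append] at h2
        rcases h2 with h2 | h2 | h2 | h2
        · simp only [st4, Prod.mk_add_mk, Prod.mk.injEq] at h2
          exact e4_ne i (Prod.ext (by simpa using h2.1) (by simpa using h2.2.1))
        · simp only [st4, Prod.mk_add_mk, Prod.mk.injEq] at h2
          exact e4_ne i (Prod.ext (by simpa using h2.1) (by simpa using h2.2.1))
        · have := hl.lev _ h2
          omega
        · simp only [List.mem_cons, List.not_mem_nil, or_false, st4, Prod.mk_add_mk,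
            Prod.mk.injEq] at h2
          rcases h2 with h2 | h2
          · exact h (Prod.ext h2.1 h2.2.1)
          · exact h (Prod.ext h2.1 h2.2.1)
    have h2 := same_bump (X := r.map (· + ((0 : ℤ), (0 : ℤ), (2 : ℤ)))) (p := (v.1, v.2, 2))
      (q := (v.1, v.2, 1)) (Y := l ++ [(0, 0, 1), (0, 0, 2)]) (d := st4 i) hR.nodup
      hR.isPolygon (by simp) (unit_st4 i) (hne 2 (by norm_num) le_rfl)
      (hne 1 le_rfl (by norm_num))
    refine (h1.trans h2).trans ?_
    have h3 : ring (r ++ gl v l [([], [st4 i]), ([], [-st4 i])]) =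
        LK.shift (-((0 : ℤ), (0 : ℤ), (2 : ℤ)))
        (ring (r.map (· + ((0 : ℤ), (0 : ℤ), (2 : ℤ))) ++ (v.1, v.2, 2) ::
          ((v.1, v.2, 2) + st4 i) :: ((v.1, v.2, 1) + st4 i) :: (v.1, v.2, 1) ::
            (l ++ [(0, 0, 1), (0, 0, 2)]))) := by
      rw [← ring_map, List.map_append, map_back, gl_right]
      rfl
    rw [h3]
    exact sameType_shift _ _

theorem rel_left (i : Fin 4) (hv : v ≠ 0) (h : v ≠ e4 i) (hl : Lower 0 0 v l) :
    Rel v l (gl v l [([st4 i], []), ([-st4 i], [])]) := by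
  refine ⟨hl, ?_, fun r hr => ?_⟩
  · have := lower_gl (uc_left i hv h).gc hl
    rwa [ed_left] at this
  · obtain ⟨h1, hr2, hl2⟩ := straight2 hv hr hl
    have hR := ring_of (Ne.symm hv) hr2 hl2
    have hrne : r.map (· + ((0 : ℤ), (0 : ℤ), (2 : ℤ))) ≠ [] := hr2.ne_nil
    have hlne : [((v.1, v.2, 2) : P3), (v.1, v.2, 1)] ++ (l ++ [(0, 0, 1), (0, 0, 2)]) ≠ [] := by
      simp
    have e1 : ([((v.1, v.2, 2) : P3), (v.1, v.2, 1)] ++ (l ++ [(0, 0, 1), (0, 0, 2)])) ++
        r.map (· + ((0 : ℤ), (0 : ℤ), (2 : ℤ))) = ([(v.1, v.2, 2), (v.1, v.2, 1)] ++ l) ++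
        (0, 0, 1) :: (0, 0, 2) :: r.map (· + ((0 : ℤ), (0 : ℤ), (2 : ℤ))) := by simp
    have hnd : (([((v.1, v.2, 2) : P3), (v.1, v.2, 1)] ++ l) ++
        (0, 0, 1) :: (0, 0, 2) :: r.map (· + ((0 : ℤ), (0 : ℤ), (2 : ℤ)))).Nodup := by
      rw [← e1]
      exact List.perm_append_comm.nodup_iff.1 hR.nodup
    have hP := hR.isPolygon
    rw [ring_comm hrne hlne, e1] at hP h1
    have hne : ∀ j : ℤ, 1 ≤ j → j ≤ 2 → ((0, 0, j) : P3) + st4 i ∉
        ([(v.1, v.2, 2), (v.1, v.2, 1)] ++ l) ++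
        (0, 0, 1) :: (0, 0, 2) :: r.map (· + ((0 : ℤ), (0 : ℤ), (2 : ℤ))) := by
      intro j hj hj' hm
      have hz : (((0, 0, j) : P3) + st4 i).2.2 = j := by simp [st4]
      rcases List.mem_append.1 hm with h2 | h2
      · rcases List.mem_append.1 h2 with h2 | h2
        · rw [List.mem_cons, List.mem_singleton] at h2
          simp only [st4, Prod.mk_add_mk, Prod.mk.injEq, zero_add] at h2
          rcases h2 with h2 | h2
          · exact h (Prod.ext h2.1.symm h2.2.1.symm)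
          · exact h (Prod.ext h2.1.symm h2.2.1.symm)
        · have := hl.lev _ h2
          omega
      · rw [List.mem_cons, List.mem_cons] at h2
        rcases h2 with h2 | h2 | h2
        · simp only [st4, Prod.mk_add_mk, Prod.mk.injEq, zero_add] at h2
          exact e4_ne i (Prod.ext h2.1 h2.2.1)
        · simp only [st4, Prod.mk_add_mk, Prod.mk.injEq, zero_add] at h2
          exact e4_ne i (Prod.ext h2.1 h2.2.1)
        · have := hr2.lev _ h2
          omega
    have h2 := same_bump (X := [(v.1, v.2, 2), (v.1, v.2, 1)] ++ l) (p := (0, 0, 1))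
      (q := (0, 0, 2)) (Y := r.map (· + ((0 : ℤ), (0 : ℤ), (2 : ℤ)))) (d := st4 i) hnd
      hP hrne (unit_st4 i) (hne 1 le_rfl (by norm_num)) (hne 2 (by norm_num) le_rfl)
    refine (h1.trans h2).trans ?_
    have h3 : ring (r ++ gl v l [([st4 i], []), ([-st4 i], [])]) =
        LK.shift (-((0 : ℤ), (0 : ℤ), (2 : ℤ)))
        (ring (([(v.1, v.2, 2), (v.1, v.2, 1)] ++ l) ++ (0, 0, 1) :: ((0, 0, 1) + st4 i) ::
          ((0, 0, 2) + st4 i) :: (0, 0, 2) :: r.map (· + ((0 : ℤ), (0 : ℤ), (2 : ℤ))))) := by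
      have e2 : ([((v.1, v.2, 2) : P3), (v.1, v.2, 1)] ++ l) ++ (0, 0, 1) ::
          ((0, 0, 1) + st4 i) :: ((0, 0, 2) + st4 i) :: (0, 0, 2) ::
          r.map (· + ((0 : ℤ), (0 : ℤ), (2 : ℤ))) =
          ([((v.1, v.2, 2) : P3), (v.1, v.2, 1)] ++
          (l ++ [(0, 0, 1), (0, 0, 1) + st4 i, (0, 0, 2) + st4 i, (0, 0, 2)])) ++
          r.map (· + ((0 : ℤ), (0 : ℤ), (2 : ℤ))) := by simp
      rw [e2, ring_comm (by simp) hrne, ← ring_map, List.map_append, map_back, gl_left]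
    rw [h3]
    exact sameType_shift _ _

/-! ### Loops -/

/-- The two displacements are connected by a loop. -/
private def Lp (v w : ℤ × ℤ) : Prop := ∃ s s' : List PP, UC v s ∧ ed v s = w ∧
    UC w s' ∧ ed w s' = v ∧ (∀ l, Lower 0 0 v l → Rel v l (gl v l (s ++ s'))) ∧
    ∀ l, Lower 0 0 w l → Rel w l (gl w l (s' ++ s))

private theorem Lp.refl (hv : v ≠ 0) : Lp v v :=
  ⟨[], [], hv, ed_nil v, hv, ed_nil v, fun _ h => Rel.refl h, fun _ h => Rel.refl h⟩

private theorem Lp.symm (h : Lp v w) : Lp w v := by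
  obtain ⟨s, s', h1, h2, h3, h4, h5, h6⟩ := h
  exact ⟨s', s, h3, h4, h1, h2, h6, h5⟩

private theorem loop_trans {u v w : ℤ × ℤ} {s s' t t' : List PP} (h1 : UC v s)
    (h2 : ed v s = w) (h3 : UC w s') (h4 : ed w s' = v)
    (h5 : ∀ l, Lower 0 0 v l → Rel v l (gl v l (s ++ s')))
    (k2 : ed w t = u) (k4 : ed u t' = w)
    (k5 : ∀ l, Lower 0 0 w l → Rel w l (gl w l (t ++ t'))) :
    ∀ l, Lower 0 0 v l → Rel v l (gl v l ((s ++ t) ++ (t' ++ s'))) := by
  intro l hl
  have e1 : gl v l (s ++ s') = gl w (gl v l s) s' := by rw [gl_append, h2]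
  have e2 : gl v l ((s ++ t) ++ (t' ++ s')) = gl w (gl w (gl v l s) (t ++ t')) s' := by
    rw [gl_append, gl_append, gl_append, gl_append, ed_append, h2, k2, k4]
  have hm : Lower 0 0 w (gl v l s) := by
    have := lower_gl h1.gc hl
    rwa [h2] at this
  have r1 := h5 l hl
  have r2 := (k5 _ hm).gl h3.gc
  rw [h4] at r2
  rw [e2]
  rw [e1] at r1
  exact r1.trans r2

private theorem Lp.trans {u : ℤ × ℤ} (h : Lp v w) (h' : Lp w u) : Lp v u := by
  obtain ⟨s, s', h1, h2, h3, h4, h5, h6⟩ := h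
  obtain ⟨t, t', k1, k2, k3, k4, k5, k6⟩ := h'
  refine ⟨s ++ t, t' ++ s', uc_append.2 ⟨h1, by rwa [h2]⟩, by rw [ed_append, h2, k2],
    uc_append.2 ⟨k3, by rwa [k4]⟩, by rw [ed_append, k4, h4],
    loop_trans h1 h2 h3 h4 h5 k2 k4 k5, loop_trans k3 k4 k1 k2 k6 h4 h2 h6⟩

private theorem Lp.step (i : Fin 4) (hv : v ≠ 0) (h : v + e4 i ≠ 0) : Lp v (v + e4 i) := by
  have hd : dsp ([], [st4 i]) = e4 i := by simp [dsp, hz, st4]
  have hd' : dsp ([], [-st4 i]) = -e4 i := by simp [dsp, hz, st4]; rfl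
  have hU := uc_right i hv h
  have e1 : v + e4 i + e4 (op i) = v := by rw [e4_op]; simp
  refine ⟨[([], [st4 i])], [([], [-st4 i])], ⟨hU.1, by rw [hd]; exact h⟩,
    by rw [ed_cons, ed_nil, hd], ⟨by have := hU.2.1; rwa [hd] at this, ?_⟩, ?_,
    fun l hl => rel_right i hv h hl, fun l hl => ?_⟩
  · rw [hd']
    simpa [UC] using hv
  · rw [ed_cons, ed_nil, hd']
    simp
  · have h1 := rel_right (op i) h (by rw [e1]; exact hv) hl
    rw [st4_op, neg_neg] at h1
    exact h1

private theorem Lp.line (i : Fin 4) (n : ℕ) (h : ∀ j : ℕ, j ≤ n → v + j • e4 i ≠ 0) :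
    Lp v (v + n • e4 i) := by
  induction n with
  | zero =>
    have := h 0 le_rfl
    rw [zero_smul, add_zero] at this ⊢
    exact Lp.refl this
  | succ n ih =>
    have h1 := ih fun j hj => h j (by omega)
    have h2 := Lp.step i (h n (by omega)) (by
      rw [add_assoc, ← succ_nsmul]
      exact h (n + 1) le_rfl)
    rw [add_assoc, ← succ_nsmul] at h2
    exact h1.trans h2

private theorem lp_vert {x : ℤ} (hx : x ≠ 0) (y y' : ℤ) : Lp (x, y) (x, y') := by
  have key : ∀ (y : ℤ) (n : ℕ), Lp (x, y) (x, y + n) := by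
    intro y n
    have h1 := Lp.line (v := (x, y)) 2 n fun j _ h0 => hx (by
      have := congrArg Prod.fst h0
      simpa [e4] using this)
    have h2 : ((x, y) : ℤ × ℤ) + n • e4 2 = (x, y + n) := by simp [e4]
    rwa [h2] at h1
  rcases le_total y y' with h | h
  · have := key y (y' - y).toNat
    rwa [Int.toNat_of_nonneg (by omega), add_sub_cancel] at this
  · have := key y' (y - y').toNat
    rw [Int.toNat_of_nonneg (by omega), add_sub_cancel] at this
    exact this.symm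

private theorem lp_horz {y : ℤ} (hy : y ≠ 0) (x x' : ℤ) : Lp (x, y) (x', y) := by
  have key : ∀ (x : ℤ) (n : ℕ), Lp (x, y) (x + n, y) := by
    intro x n
    have h1 := Lp.line (v := (x, y)) 0 n fun j _ h0 => hy (by
      have := congrArg Prod.snd h0
      simpa [e4] using this)
    have h2 : ((x, y) : ℤ × ℤ) + n • e4 0 = (x + n, y) := by simp [e4]
    rwa [h2] at h1
  rcases le_total x x' with h | h
  · have := key x (x' - x).toNat
    rwa [Int.toNat_of_nonneg (by omega), add_sub_cancel] at this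
  · have := key x' (x - x').toNat
    rw [Int.toNat_of_nonneg (by omega), add_sub_cancel] at this
    exact this.symm

private theorem lp_base (hv : v ≠ 0) : Lp v (1, 0) := by
  obtain ⟨x, y⟩ := v
  by_cases hx : x = 0
  · subst hx
    have hy : y ≠ 0 := fun h => hv (by rw [h]; rfl)
    exact (lp_horz hy 0 1).trans (lp_vert one_ne_zero y 0)
  · exact ((lp_vert hx y 1).trans (lp_horz one_ne_zero x 1)).trans (lp_vert one_ne_zero 1 0)

/-- **There and back.** -/
theorem exists_loop (hv : v ≠ 0) (hw : w ≠ 0) : ∃ s s' : List PP, UC v s ∧ ed v s = w ∧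
    UC w s' ∧ ed w s' = v ∧ (∀ l, Lower 0 0 v l → Rel v l (gl v l (s ++ s'))) ∧
    ∀ l, Lower 0 0 w l → Rel w l (gl w l (s' ++ s)) :=
  (lp_base hv).trans (lp_base hw).symm

/-! ### Moving both strands -/

private def Sh (w : ℤ × ℤ) : Prop := ∃ s : List PP, UC (1, 0) s ∧ ed (1, 0) s = (1, 0) ∧
    ash s = w ∧ ∀ l, Lower 0 0 (1, 0) l → Rel (1, 0) l (gl (1, 0) l s)

private theorem Sh.zero : Sh 0 :=
  ⟨[], by simp [UC], ed_nil _, by simp [ash], fun _ h => Rel.refl h⟩

private theorem Sh.add (h : Sh v) (h' : Sh w) : Sh (v + w) := by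
  obtain ⟨s, h1, h2, h3, h4⟩ := h
  obtain ⟨t, k1, k2, k3, k4⟩ := h'
  refine ⟨s ++ t, uc_append.2 ⟨h1, by rwa [h2]⟩, by rw [ed_append, h2, k2],
    by rw [ash_append, h3, k3], fun l hl => ?_⟩
  rw [gl_append, h2]
  have h5 := h4 l hl
  exact h5.trans (k4 _ h5.right)

private theorem sh_one {i : Fin 4} (h1 : ((1, 0) : ℤ × ℤ) ≠ e4 i)
    (h2 : ((1, 0) : ℤ × ℤ) + e4 i ≠ 0) : Sh (e4 i) := by
  have h0 : ((1, 0) : ℤ × ℤ) ≠ 0 := by simp
  have hd : dsp ([st4 i], [st4 i]) = 0 := by simp [dsp]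
  refine ⟨[([st4 i], [st4 i])], ⟨(valid_both i h0).2 ⟨h1, h2⟩, ?_⟩, ?_, ?_, fun l hl => ?_⟩
  · rw [hd, add_zero]
    exact h0
  · rw [ed_cons, ed_nil, hd, add_zero]
  · simp [ash, hz, st4]
  · exact rel_both i h0 h1 h2 hl

private theorem sh_two {i : Fin 4} (h1 : ((1, 1) : ℤ × ℤ) ≠ e4 i)
    (h2 : ((1, 1) : ℤ × ℤ) + e4 i ≠ 0) : Sh (e4 i) := by
  have h0 : ((1, 0) : ℤ × ℤ) ≠ 0 := by simp
  have h0' : ((1, 1) : ℤ × ℤ) ≠ 0 := by simp
  have he : ((1, 0) : ℤ × ℤ) + e4 2 = (1, 1) := by simp [e4]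
  have hd : dsp ([], [st4 2]) = e4 2 := by simp [dsp, hz, st4]
  have hd' : dsp ([], [-st4 2]) = -e4 2 := by simp [dsp, hz, st4]; rfl
  have hd2 : dsp ([st4 i], [st4 i]) = 0 := by simp [dsp]
  have he' : ((1, 1) : ℤ × ℤ) + -e4 2 = (1, 0) := by simp [e4]
  have hU := uc_right (v := (1, 0)) 2 h0 (by rw [he]; exact h0')
  have hU2 : UC (1, 1) [([], [-st4 2])] := by
    have := hU.2
    rwa [hd, he] at this
  refine ⟨[([], [st4 2]), ([st4 i], [st4 i]), ([], [-st4 2])], ⟨hU.1, ?_⟩, ?_, ?_,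
    fun l hl => ?_⟩
  · rw [hd, he]
    refine ⟨(valid_both i h0').2 ⟨h1, h2⟩, ?_⟩
    rw [hd2, add_zero]
    exact hU2
  · rw [ed_cons, ed_cons, ed_cons, ed_nil, hd, he, hd2, add_zero, hd', he']
  · simp only [ash, hz, st4, List.map_cons, List.map_nil, List.sum_cons, List.sum_nil, add_zero,
      Prod.fst_zero, Prod.snd_zero]
    refine Prod.ext ?_ ?_
    · simp
    · simp
  · have hm : Lower 0 0 (1, 1) (glu (1, 0) l ([], [st4 2])) := by
      have := lower_glu hU.1.1 hl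
      rwa [hd, he] at this
    have r1 := rel_right 2 h0 (by rw [he]; exact h0') hl
    have r2 := (rel_both i h0' h1 h2 hm).gl hU2.gc
    rw [ed_cons, ed_nil, hd', he'] at r2
    have e1 : gl (1, 0) l [([], [st4 2]), ([], [-st4 2])] =
        gl (1, 1) (glu (1, 0) l ([], [st4 2])) [([], [-st4 2])] := by
      change gl ((1, 0) + dsp ([], [st4 2])) _ _ = _
      rw [hd, he]
    have e2 : gl (1, 0) l [([], [st4 2]), ([st4 i], [st4 i]), ([], [-st4 2])] =
        gl (1, 1) (glu (1, 1) (glu (1, 0) l ([], [st4 2])) ([st4 i], [st4 i]))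
          [([], [-st4 2])] := by
      change gl ((1, 0) + dsp ([], [st4 2]) + dsp ([st4 i], [st4 i]))
        (glu ((1, 0) + dsp ([], [st4 2])) _ _) _ = _
      rw [hd, he, hd2, add_zero]
    rw [e1] at r1
    rw [e2]
    exact r1.trans r2

private theorem sh_unit (i : Fin 4) : Sh (e4 i) := by
  fin_cases i
  · exact sh_two (by simp [e4]) (by simp [e4])
  · exact sh_two (by simp [e4]) (by simp [e4])
  · exact sh_one (by simp [e4]) (by simp [e4])
  · exact sh_one (by simp [e4]) (by simp [e4])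

private theorem sh_mul (i : Fin 4) (n : ℕ) : Sh (n • e4 i) := by
  induction n with
  | zero => rw [zero_smul]; exact Sh.zero
  | succ n ih => rw [succ_nsmul]; exact ih.add (sh_unit i)

private theorem sh_x (x : ℤ) : Sh (x, 0) := by
  rcases le_total 0 x with h | h
  · have h1 := sh_mul 0 x.toNat
    have h2 : x.toNat • e4 0 = (x, 0) := by simp [e4, Int.toNat_of_nonneg h]
    rwa [h2] at h1
  · have h1 := sh_mul 1 (-x).toNat
    have h2 : (-x).toNat • e4 1 = (x, 0) := by simp [e4, Int.toNat_of_nonneg (neg_nonneg.2 h)]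
    rwa [h2] at h1

private theorem sh_y (y : ℤ) : Sh (0, y) := by
  rcases le_total 0 y with h | h
  · have h1 := sh_mul 2 y.toNat
    have h2 : y.toNat • e4 2 = (0, y) := by simp [e4, Int.toNat_of_nonneg h]
    rwa [h2] at h1
  · have h1 := sh_mul 3 (-y).toNat
    have h2 : (-y).toNat • e4 3 = (0, y) := by simp [e4, Int.toNat_of_nonneg (neg_nonneg.2 h)]
    rwa [h2] at h1

/-- **Moving both strands.** -/
theorem exists_shift (w : ℤ × ℤ) : ∃ s : List PP, UC (1, 0) s ∧ ed (1, 0) s = (1, 0) ∧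
    ash s = w ∧ ∀ l, Lower 0 0 (1, 0) l → Rel (1, 0) l (gl (1, 0) l s) := by
  have h1 := (sh_x w.1).add (sh_y w.2)
  have h2 : ((w.1, 0) : ℤ × ℤ) + (0, w.2) = w := by simp
  rwa [h2] at h1

end Pool.Agent.KTop
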