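import Pool.Agent.KTop.ShearAll
import Pool.Agent.KLog.XDir

/-! KT7: stretching and shearing in the direction of the first coordinate. -/

set_option autoImplicit false

open Pool.Agent.LK

namespace Pool.Agent.KTop

open Pool.Agent.KTube Pool.Agent.KRing Pool.Agent.KLog
open Pool.Agent.LatticeTube (pedges)

variable {k ε : ℤ} {a b : ℤ × ℤ} {R L x y : List P3}

theorem ring_comm (hx : x ≠ []) (hy : y ≠ []) : ring (x ++ y) = ring (y ++ x) := by
  have key : ∀ (x y : List P3) (x0 x1 y0 y1 : P3), x.head? = some x0 → x.getLast? = some x1 →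
      y.head? = some y0 → y.getLast? = some y1 → ∀ e, e ∈ ring (x ++ y) ↔
      e = s(y1, x0) ∨ e = s(x1, y0) ∨ e ∈ pedges x ∨ e ∈ pedges y := by
    intro x y x0 x1 y0 y1 h0 h1 h2 h3 e
    have h4 : (x ++ y).getLast? = some y1 := by
      rw [List.getLast?_append, h3]; rfl
    have h5 : (x ++ y).head? = some x0 := by
      rw [List.head?_append, h0]; rfl
    rw [ring_eq h4, ← List.singleton_append, mem_pedges_cat (A := [y1]) (a := y1) rfl h5,
      mem_pedges_cat h1 h2]
    have h6 : e ∉ pedges [y1] := by simp [Pool.Agent.LatticeTube.pedges]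
    tauto
  obtain ⟨x0, hx0⟩ : ∃ u, x.head? = some u := by
    cases x with
    | nil => exact absurd rfl hx
    | cons u x => exact ⟨u, rfl⟩
  obtain ⟨y0, hy0⟩ : ∃ u, y.head? = some u := by
    cases y with
    | nil => exact absurd rfl hy
    | cons u y => exact ⟨u, rfl⟩
  have hx1 : x.getLast? = some (x.getLast hx) := List.getLast?_eq_getLast_of_ne_nil hx
  have hy1 : y.getLast? = some (y.getLast hy) := List.getLast?_eq_getLast_of_ne_nil hy
  ext e
  rw [key x y _ _ _ _ hx0 hx1 hy0 hy1, key y x _ _ _ _ hy0 hy1 hx0 hx1]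
  tauto

private theorem xs_sw_eq : KLog.sw = latIso 0 (0, 0, 1) (0, 1, 0) (1, 0, 0) := by
  funext u
  obtain ⟨x, y, z⟩ := u
  simp [KLog.sw, latIso]

private theorem xs_sw_frame : Frame (0, 0, 1) (0, 1, 0) (1, 0, 0) := by
  constructor <;> simp [dot3]

private theorem xs_ring_map_sw (c : List P3) :
    ring (c.map KLog.sw) = mapE KLog.sw (ring c) := by
  unfold ring
  rw [← pedges_map, List.map_append, List.getLast?_map]
  congr 2
  cases c.getLast? <;> rfl

theorem sameType_sw (c : List P3) : SameType (ring c) (ring (c.map KLog.sw)) := by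
  rw [xs_ring_map_sw, xs_sw_eq]
  obtain ⟨G, -, hG, hseg⟩ := exists_latHomeo xs_sw_frame 0
  exact ⟨G, (body_mapE G _ hG hseg _).symm⟩

private theorem xs_map_add (R : List P3) (w : P3) :
    ((R.map KLog.sw).map (· + w)).map KLog.sw = R.map (· + KLog.sw w) := by
  rw [List.map_map, List.map_map]
  congr 1

/-- The steps of a bend in the direction of the second coordinate. -/
def ys (ε : ℤ) : List P3 := if ε = 0 then [] else [(0, ε, 0)]

/-- **The part beyond the plane `x = k + 1/2` is moved by `(1, ε, 0)`.** In the list the columns are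
`(z, y)`. -/
theorem x_sur (hε : ε = 0 ∨ ε = 1 ∨ ε = -1) (hab : a ≠ b) (h1 : a + (0, ε) ≠ b)
    (h2 : b + (0, ε) ≠ a) (hR : Upper k a b (R.map KLog.sw)) (hL : Lower k a b (L.map KLog.sw)) :
    SameType (ring (R ++ L))
      (ring (R.map (· + ((1 : ℤ), ε, (0 : ℤ))) ++ ((wk (k + 1, b.2, b.1) (ys ε)).reverse ++
        (L ++ wk (k + 1, a.2, a.1) (ys ε))))) := by
  refine (sameType_sw (R ++ L)).trans ?_
  rw [List.map_append]
  have hLL : (L.map KLog.sw).map KLog.sw = L := by
    rw [List.map_map]
    exact List.map_id' L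
  rcases hε with rfl | rfl | rfl
  · have h := (straight hab hR hL).trans (sameType_sw _)
    rw [List.map_append, List.map_append, List.map_append, hLL, xs_map_add] at h
    exact h
  · have h := (shear 2 hab h1 h2 hR hL).trans (sameType_sw _)
    rw [List.map_append, List.map_append, List.map_append, hLL, xs_map_add] at h
    simpa [ys, e4, st4, KLog.sw] using h
  · have h := (shear 3 hab h1 h2 hR hL).trans (sameType_sw _)
    rw [List.map_append, List.map_append, List.map_append, hLL, xs_map_add] at h
    simpa [ys, e4, st4, KLog.sw] using h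

end Pool.Agent.KTop
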