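import Pool.Agent.KTop.Cats
import Pool.Agent.KTop.XSur

/-! KT9: the second strand of a block alone beyond a plane `x = c + 1/2`. -/

set_option autoImplicit false

open Pool.Agent.LK

namespace Pool.Agent.KTop

open Pool.Agent.KTube Pool.Agent.KRing Pool.Agent.KLog
open Pool.Agent.KAmp (gl)

variable {v : ℤ × ℤ} {l r : List P3} {π : PP} {ε : ℤ}

/-! ### The surgery -/

private theorem cf_snoc (p d : P3) (s t : List P3) :
    wk p (s ++ d :: t) = wk p s ++ wk (p + s.sum + d) t := by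
  induction s generalizing p with
  | nil => simp
  | cons e s ih =>
    rw [List.cons_append, wk_cons, ih, wk_cons, List.sum_cons, List.cons_append, add_assoc p e]

private theorem cf_adj_sw (u w : P3) (h : Adj u w) : Adj (KLog.sw u) (KLog.sw w) := by
  unfold Adj KLog.sw at *
  simp only
  omega

private theorem cf_sw_inj : Function.Injective KLog.sw := fun u w h => by
  rw [← KLog.sw_sw u, ← KLog.sw_sw w, h]

private theorem cf_ys_sum (hε : ε = 0 ∨ ε = 1 ∨ ε = -1) : (ys ε).sum = ((0, ε, 0) : P3) := by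
  rcases hε with rfl | rfl | rfl
  · rfl
  · simp [ys]
  · simp [ys]

private theorem cf_ys_rev (hε : ε = 0 ∨ ε = 1 ∨ ε = -1) (p : P3) :
    (wk (p + (0, ε, 0)) (ys (-ε))).reverse = wk p (ys ε) := by
  obtain ⟨x, y, z⟩ := p
  rcases hε with rfl | rfl | rfl <;> simp [ys]

/-- The surgery on the closed walk. -/
private theorem cf_key {c : ℤ} {p : P3} {s1 s2 s3 m r1 : List P3}
    (hε : ε = 0 ∨ ε = 1 ∨ ε = -1) (hm0 : m ≠ []) (hr0 : r1 ≠ [])
    (hnd : (r1 ++ ((wk p (s1 ++ (1, 0, 0) :: (s2 ++ (-1, 0, 0) :: s3))).reverse ++ m)).Nodup)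
    (hch : (r1 ++ ((wk p (s1 ++ (1, 0, 0) :: (s2 ++ (-1, 0, 0) :: s3))).reverse ++ m)).IsChain Adj)
    (hcl : ∀ u ∈ m.getLast?, ∀ w ∈ r1.head?, Adj u w)
    (b1 : ∀ u ∈ wk p s1, u.1 ≤ c) (e1 : p.1 + s1.sum.1 = c)
    (b2 : ∀ u ∈ wk (p + s1.sum + (1, 0, 0)) s2, c + 1 ≤ u.1) (e2 : s2.sum.1 = 0)
    (e3 : s2.sum.2.2 ≠ 0)
    (b3 : ∀ u ∈ wk (p + s1.sum + (1, 0, 0) + s2.sum + (-1, 0, 0)) s3, u.1 ≤ c)
    (bm : ∀ u ∈ m, u.1 ≤ c) (br : ∀ u ∈ r1, u.1 ≤ c) :
    SameType (ring (r1 ++ ((wk p (s1 ++ (1, 0, 0) :: (s2 ++ (-1, 0, 0) :: s3))).reverse ++ m)))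
      (ring (r1 ++ ((wk p (s1 ++ (1, 0, 0) :: (ys ε ++ (1, 0, 0) :: (s2 ++ (-1, 0, 0) ::
        (ys (-ε) ++ (-1, 0, 0) :: s3))))).reverse ++ m))) := by
  obtain ⟨p2, hp2⟩ : ∃ p2, p2 = p + s1.sum + (1, 0, 0) := ⟨_, rfl⟩
  obtain ⟨p3, hp3⟩ : ∃ p3, p3 = p2 + s2.sum + (-1, 0, 0) := ⟨_, rfl⟩
  rw [← hp2] at b2 b3
  rw [← hp3] at b3
  have x2 : p2.1 = c + 1 := by
    rw [hp2, ← e1]
    simp
  have x3 : p3.1 = c := by
    rw [hp3]
    simp [e2, x2]
  have hε' : -ε = 0 ∨ -ε = 1 ∨ -ε = -1 := by omega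
  -- the pieces
  have w0 : (wk p (s1 ++ (1, 0, 0) :: (s2 ++ (-1, 0, 0) :: s3))).reverse =
      (wk p3 s3).reverse ++ ((wk p2 s2).reverse ++ (wk p s1).reverse) := by
    rw [cf_snoc, cf_snoc, ← hp2, ← hp3, List.reverse_append, List.reverse_append,
      List.append_assoc]
  have w1 : (wk p (s1 ++ (1, 0, 0) :: (ys ε ++ (1, 0, 0) :: (s2 ++ (-1, 0, 0) ::
      (ys (-ε) ++ (-1, 0, 0) :: s3))))).reverse =
      (wk p3 s3).reverse ++ (wk (p2 + s2.sum) (ys ε) ++ (((wk p2 s2).map (· + (1, ε, 0))).reverse ++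
        ((wk p2 (ys ε)).reverse ++ (wk p s1).reverse))) := by
    have q1 : p2 + (ys ε).sum + (1, 0, 0) = p2 + (1, ε, 0) := by
      rw [cf_ys_sum hε]
      ext <;> simp
    have q2 : p2 + (1, ε, 0) + s2.sum + (-1, 0, 0) = p2 + s2.sum + (0, ε, 0) := by
      ext <;> simp <;> ring
    have q3 : p2 + s2.sum + (0, ε, 0) + (ys (-ε)).sum + (-1, 0, 0) = p3 := by
      rw [cf_ys_sum hε', hp3]
      ext <;> simp
    rw [cf_snoc, cf_snoc, cf_snoc, cf_snoc, ← hp2, q1, q2, q3, map_wk, List.reverse_append,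
      List.reverse_append, List.reverse_append, List.reverse_append, cf_ys_rev hε]
    simp only [List.append_assoc]
  rw [w0] at hnd hch
  rw [w0, w1]
  obtain ⟨T1, hT1⟩ : ∃ T1, T1 = r1 ++ (wk p3 s3).reverse := ⟨_, rfl⟩
  obtain ⟨T2, hT2⟩ : ∃ T2, T2 = (wk p s1).reverse ++ m := ⟨_, rfl⟩
  obtain ⟨R, hR⟩ : ∃ R, R = (wk p2 s2).reverse := ⟨_, rfl⟩
  have c0 : r1 ++ ((wk p3 s3).reverse ++ ((wk p2 s2).reverse ++ (wk p s1).reverse) ++ m) =
      T1 ++ (R ++ T2) := by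
    rw [hT1, hT2, hR]
    simp only [List.append_assoc]
  have c1 : r1 ++ ((wk p3 s3).reverse ++ (wk (p2 + s2.sum) (ys ε) ++
      (((wk p2 s2).map (· + (1, ε, 0))).reverse ++
        ((wk p2 (ys ε)).reverse ++ (wk p s1).reverse))) ++ m) =
      (T1 ++ wk (p2 + s2.sum) (ys ε)) ++ (R.map (· + (1, ε, 0)) ++
        ((wk p2 (ys ε)).reverse ++ T2)) := by
    rw [hT1, hT2, hR, List.map_reverse]
    simp only [List.append_assoc]
  rw [c0] at hnd hch
  rw [c0, c1]
  have hT10 : T1 ≠ [] := by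
    rw [hT1]
    simp [hr0]
  have hR0 : R ≠ [] := by
    rw [hR]
    simp [wk_ne_nil]
  obtain ⟨n1, n2, n3⟩ := List.nodup_append.1 hnd
  obtain ⟨n4, n5, n6⟩ := List.nodup_append.1 n2
  obtain ⟨h1, h2, -⟩ := List.isChain_append.1 hch
  obtain ⟨h4, h5, -⟩ := List.isChain_append.1 h2
  have k1 : (p2.1, p2.2.1, p2.2.2) = p2 := rfl
  have hU : Upper c ((p2 + s2.sum).2.2, (p2 + s2.sum).2.1) (p2.2.2, p2.2.1)
      (R.map KLog.sw) := by
    refine ⟨n4.map cf_sw_inj, ?_, ?_, ?_, ?_⟩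
    · rw [List.isChain_map]
      exact h4.imp fun u w huw => cf_adj_sw u w huw
    · rw [List.head?_map, hR, List.head?_reverse, last_wk, Option.map_some]
      simp [KLog.sw, e2, x2]
    · rw [List.getLast?_map, hR, List.getLast?_reverse, head_wk, Option.map_some]
      simp [KLog.sw, x2]
    · intro u hu
      obtain ⟨w, hw, rfl⟩ := List.mem_map.1 hu
      rw [hR, List.mem_reverse] at hw
      exact b2 w hw
  have hL : Lower c ((p2 + s2.sum).2.2, (p2 + s2.sum).2.1) (p2.2.2, p2.2.1)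
      ((T2 ++ T1).map KLog.sw) := by
    refine ⟨List.Nodup.map cf_sw_inj (List.nodup_append.2 ⟨n5, n1, fun u hu w hw huw =>
      n3 w hw u (List.mem_append_right _ hu) huw.symm⟩), ?_, ?_, ?_, ?_⟩
    · rw [List.isChain_map]
      refine List.IsChain.imp (fun u w huw => cf_adj_sw u w huw) (h5.append h1 ?_)
      intro u hu w hw
      refine hcl u ?_ w ?_
      · rwa [hT2, List.getLast?_append_of_ne_nil _ hm0] at hu
      · rwa [hT1, List.head?_append_of_ne_nil _ hr0] at hw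
    · rw [List.head?_map, hT2, List.append_assoc, List.head?_append, List.head?_reverse, last_wk]
      simp [KLog.sw, hp2, e1]
    · rw [List.getLast?_map, hT1, List.getLast?_append, List.getLast?_append, List.getLast?_reverse,
        head_wk]
      simp [KLog.sw, hp3, e2, x2]
    · intro u hu
      obtain ⟨w, hw, rfl⟩ := List.mem_map.1 hu
      change w.1 ≤ c
      rw [hT1, hT2] at hw
      simp only [List.mem_append, List.mem_reverse] at hw
      rcases hw with (hw | hw) | (hw | hw)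
      · exact b1 w hw
      · exact bm w hw
      · exact br w hw
      · exact b3 w hw
  have hs := x_sur hε (by
      intro h
      have := congrArg Prod.fst h
      simp only [Prod.snd_add] at this
      omega) (by
      intro h
      have := congrArg Prod.fst h
      simp only [Prod.snd_add, Prod.fst_add] at this
      omega) (by
      intro h
      have := congrArg Prod.fst h
      simp only [Prod.snd_add, Prod.fst_add] at this
      omega) hU hL
  have g1 : ((c + 1, p2.2.1, p2.2.2) : P3) = p2 := by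
    rw [← x2]
  have g2 : ((c + 1, (p2 + s2.sum).2.1, (p2 + s2.sum).2.2) : P3) = p2 + s2.sum := by
    ext <;> simp [e2, x2]
  simp only [g1, g2] at hs
  have g3 : R ++ (T2 ++ T1) = (R ++ T2) ++ T1 := by rw [List.append_assoc]
  have g4 : R.map (· + ((1 : ℤ), ε, (0 : ℤ))) ++ ((wk p2 (ys ε)).reverse ++
      (T2 ++ T1 ++ wk (p2 + s2.sum) (ys ε))) = (R.map (· + ((1 : ℤ), ε, (0 : ℤ))) ++
      ((wk p2 (ys ε)).reverse ++ T2)) ++ (T1 ++ wk (p2 + s2.sum) (ys ε)) := by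
    simp only [List.append_assoc]
  have g5 : R ++ T2 ≠ [] := fun h => hR0 (List.append_eq_nil_iff.1 h).1
  have g6 : T1 ++ wk (p2 + s2.sum) (ys ε) ≠ [] := fun h => hT10 (List.append_eq_nil_iff.1 h).1
  have g7 : R.map (· + ((1 : ℤ), ε, (0 : ℤ))) ++ ((wk p2 (ys ε)).reverse ++ T2) ≠ [] := fun h =>
    hR0 (List.map_eq_nil_iff.1 (List.append_eq_nil_iff.1 h).1)
  rw [g3, g4, ring_comm g5 hT10, ring_comm g7 g6] at hs
  exact hs

/-! ### The range of the first coordinate -/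

private def PB (lo hi : ℤ) : ℤ → List P3 → Prop
  | x, [] => lo ≤ x ∧ x ≤ hi
  | x, d :: s => (lo ≤ x ∧ x ≤ hi) ∧ PB lo hi (x + d.1) s

private theorem pb_start {lo hi x : ℤ} {s : List P3} (h : PB lo hi x s) : lo ≤ x ∧ x ≤ hi := by
  cases s with
  | nil => exact h
  | cons d s => exact h.1

private theorem pb_wk {lo hi : ℤ} {p : P3} {s : List P3} (h : PB lo hi p.1 s) :
    ∀ u ∈ wk p s, lo ≤ u.1 ∧ u.1 ≤ hi := by
  induction s generalizing p with
  | nil =>
    intro u hu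
    rw [wk_nil, List.mem_singleton] at hu
    subst hu
    exact h
  | cons d s ih =>
    intro u hu
    rw [wk_cons, List.mem_cons] at hu
    rcases hu with rfl | hu
    · exact h.1
    · exact ih (p := p + d) h.2 u hu

private theorem pb_append {lo hi x : ℤ} {s t : List P3} :
    PB lo hi x (s ++ t) ↔ PB lo hi x s ∧ PB lo hi (x + s.sum.1) t := by
  induction s generalizing x with
  | nil =>
    have e : x + ([] : List P3).sum.1 = x := add_zero x
    rw [e]
    exact ⟨fun h => ⟨pb_start h, h⟩, fun h => h.2⟩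
  | cons d s ih =>
    have e : x + (d :: s).sum.1 = x + d.1 + s.sum.1 := by
      rw [List.sum_cons, Prod.fst_add, add_assoc]
    rw [List.cons_append, e]
    change (lo ≤ x ∧ x ≤ hi) ∧ PB lo hi (x + d.1) (s ++ t) ↔
      ((lo ≤ x ∧ x ≤ hi) ∧ PB lo hi (x + d.1) s) ∧ PB lo hi (x + d.1 + s.sum.1) t
    rw [ih]
    tauto

private theorem pb_steps {s : List P3} (hs : Steps s) {lo hi x : ℤ} (h1 : lo ≤ x - xst s)
    (h2 : x + xst s ≤ hi) : PB lo hi x s := by
  induction s generalizing x with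
  | nil =>
    have e : xst ([] : List P3) = 0 := rfl
    rw [e] at h1 h2
    exact ⟨by simpa using h1, by simpa using h2⟩
  | cons d s ih =>
    have h3 : ((xst (d :: s) : ℕ) : ℤ) = xst s + if d.1 ≠ 0 then 1 else 0 := by
      unfold xst
      rw [List.countP_cons]
      simp
    have h4 : |d.1| ≤ if d.1 ≠ 0 then 1 else 0 := by
      rcases step_cases hs.cons.1 with rfl | rfl | rfl | rfl | rfl | rfl <;> simp
    rw [abs_le] at h4
    rw [h3] at h1 h2
    exact ⟨⟨by omega, by omega⟩, ih hs.cons.2 (by omega) (by omega)⟩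

private theorem sum_steps {s : List P3} (hs : Steps s) :
    -(xst s : ℤ) ≤ s.sum.1 ∧ s.sum.1 ≤ xst s := by
  have h := (pb_append (t := [])).1 (by
    rw [List.append_nil]
    exact pb_steps hs (x := 0) (lo := -(xst s : ℤ)) (hi := xst s) (by simp) (by simp))
  have h2 := h.2
  rw [zero_add] at h2
  exact h2

/-! ### The words of a chain -/

/-- The words of the chain, with the vertical steps between the blocks. -/
private def Fw (f : PP → List P3) (s : List PP) : List P3 :=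
  (s.map fun ρ => ((0, 0, 1) : P3) :: f ρ).flatten

private theorem fw_nil (f : PP → List P3) : Fw f [] = [] := rfl

private theorem fw_cons (f : PP → List P3) (ρ : PP) (s : List PP) :
    Fw f (ρ :: s) = (0, 0, 1) :: (f ρ ++ Fw f s) := rfl

private theorem fw_append (f : PP → List P3) (s t : List PP) :
    Fw f (s ++ t) = Fw f s ++ Fw f t := by
  simp [Fw]

private theorem gl_fw {s : List PP} (h0 : s ≠ []) (h : ∀ ρ ∈ s, ρ.2.sum.2.2 = ρ.1.sum.2.2) :
    gl v l s = glu v l ((Fw Prod.fst s).tail, (Fw Prod.snd s).tail) := by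
  obtain ⟨ρ, s, rfl⟩ := List.exists_cons_of_ne_nil h0
  rw [gl_cats h]
  congr 1
  exact Prod.ext (cats_fst ρ s) (cats_snd ρ s)

private theorem gc_level {s : List PP} (h : GC v s) : ∀ ρ ∈ s, ρ.2.sum.2.2 = ρ.1.sum.2.2 := by
  induction s generalizing v with
  | nil => simp
  | cons ρ s ih =>
    intro σ hσ
    rcases List.mem_cons.1 hσ with rfl | hσ
    · exact level h.1
    · exact ih h.2 σ hσ

private theorem fw_rep_sum (f : PP → List P3) (n : ℕ) (ρ : PP) :
    (Fw f (List.replicate n ρ)).sum = n • ((0, 0, 1) + (f ρ).sum) := by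
  induction n with
  | zero => simp [Fw]
  | succ n ih =>
    rw [List.replicate_succ, fw_cons, List.sum_cons, List.sum_append, ih, succ_nsmul]
    abel

private theorem pb_rep0 {f : PP → List P3} {n : ℕ} {ρ : PP} {lo hi x : ℤ} (h : f ρ = [])
    (h1 : lo ≤ x) (h2 : x ≤ hi) : PB lo hi x (Fw f (List.replicate n ρ)) := by
  induction n generalizing x with
  | zero => exact ⟨h1, h2⟩
  | succ n ih =>
    rw [List.replicate_succ, fw_cons, h, List.nil_append]
    exact ⟨⟨h1, h2⟩, ih (by simpa using h1) (by simpa using h2)⟩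

private theorem pb_repE {f : PP → List P3} {n : ℕ} {ρ : PP} {lo hi x : ℤ} (h : f ρ = [(1, 0, 0)])
    (h1 : lo ≤ x) (h2 : x + n ≤ hi) : PB lo hi x (Fw f (List.replicate n ρ)) := by
  induction n generalizing x with
  | zero => exact ⟨h1, by simpa using h2⟩
  | succ n ih =>
    rw [List.replicate_succ, fw_cons, h, List.cons_append, List.nil_append]
    push_cast at h2
    refine ⟨⟨h1, by omega⟩, ⟨?_, ?_⟩, ih ?_ ?_⟩ <;> simp only [add_zero] <;> omega

private theorem pb_repW {f : PP → List P3} {n : ℕ} {ρ : PP} {lo hi x : ℤ}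
    (h : f ρ = [(-1, 0, 0)]) (h1 : lo ≤ x - n) (h2 : x ≤ hi) :
    PB lo hi x (Fw f (List.replicate n ρ)) := by
  induction n generalizing x with
  | zero => exact ⟨by simpa using h1, h2⟩
  | succ n ih =>
    rw [List.replicate_succ, fw_cons, h, List.cons_append, List.nil_append]
    push_cast at h1
    refine ⟨⟨by omega, h2⟩, ⟨?_, ?_⟩, ih ?_ ?_⟩ <;> simp only [add_zero] <;> omega

/-! ### The two chains -/

private def NN (p q n : ℕ) (t : List P3) : List PP :=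
  List.replicate p ([], [st4 0]) ++ ([], t) :: (List.replicate q ([], [st4 0]) ++
    List.replicate n ([st4 0], []))

private def NW (p q n : ℕ) (t : List P3) : List PP :=
  List.replicate n ([st4 1], []) ++ (List.replicate p ([], [st4 1]) ++ ([], t) ::
    List.replicate q ([], [st4 1]))

private theorem uc_NN {p q n : ℕ} {t : List P3} {w : ℤ × ℤ} (hv : 0 < v.1)
    (ht : Valid (v + ((p : ℤ), 0)) ([], t)) (hw : v + ((p : ℤ), 0) + dsp ([], t) = w)
    (hw0 : 0 < w.1) (hn : (n : ℤ) < w.1 + q) :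
    UC v (NN p q n t) ∧ ed v (NN p q n t) = w + ((q : ℤ), 0) - ((n : ℤ), 0) := by
  obtain ⟨u1, d1⟩ := right_east (n := p) hv
  obtain ⟨u2, d2⟩ := right_east (n := q) hw0
  obtain ⟨u3, d3⟩ := left_east (n := n) (v := w + ((q : ℤ), 0)) hn
  unfold NN
  constructor
  · rw [uc_append, d1]
    refine ⟨u1, ht, ?_⟩
    rw [hw, uc_append, d2]
    exact ⟨u2, u3⟩
  · rw [ed_append, d1, ed_cons, hw, ed_append, d2, d3]

private theorem uc_NW {p q n : ℕ} {t : List P3} {w : ℤ × ℤ} (hv : 0 < v.1)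
    (hp : (p : ℤ) < v.1 + n) (ht : Valid (v + ((n : ℤ), 0) - ((p : ℤ), 0)) ([], t))
    (hw : v + ((n : ℤ), 0) - ((p : ℤ), 0) + dsp ([], t) = w) (hq : (q : ℤ) < w.1) :
    UC v (NW p q n t) ∧ ed v (NW p q n t) = w - ((q : ℤ), 0) := by
  obtain ⟨u1, d1⟩ := left_west (n := n) hv
  obtain ⟨u2, d2⟩ := right_west (n := p) (v := v + ((n : ℤ), 0)) hp
  obtain ⟨u3, d3⟩ := right_west (n := q) hq
  unfold NW
  constructor
  · rw [uc_append, d1, uc_append, d2]
    refine ⟨u1, u2, ht, ?_⟩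
    rw [hw]
    exact u3
  · rw [ed_append, d1, ed_append, d2, ed_cons, hw, d3]

private theorem cf_ne {v : ℤ × ℤ} (h : 0 < v.1) : v ≠ 0 := by
  intro h0
  rw [h0] at h
  exact lt_irrefl _ h

private theorem cf_e (h : 0 < v.1) : Valid v ([], [st4 0]) ∧ dsp ([], [st4 0]) = (1, 0) := by
  refine ⟨(valid_right 0).2 ⟨cf_ne h, cf_ne ?_⟩, by simp [dsp, hz, st4, e4]⟩
  change 0 < v.1 + 1
  omega

private theorem cf_w (h : 1 < v.1) : Valid v ([], [st4 1]) ∧ dsp ([], [st4 1]) = (-1, 0) := by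
  refine ⟨(valid_right 1).2 ⟨cf_ne (by omega), cf_ne ?_⟩, by simp [dsp, hz, st4, e4]⟩
  change 0 < v.1 + -1
  omega

private theorem cf_ys (hε : ε = 0 ∨ ε = 1 ∨ ε = -1) : ∀ d ∈ ys ε, ∃ i, d = st4 i := by
  rcases hε with rfl | rfl | rfl
  · simp [ys]
  · intro d hd
    have h1 : d = (0, 1, 0) := by simpa [ys] using hd
    exact ⟨2, h1⟩
  · intro d hd
    have h1 : d = (0, -1, 0) := by simpa [ys] using hd
    exact ⟨3, h1⟩

private theorem cf_ee (hε : ε = 0 ∨ ε = 1 ∨ ε = -1) (h : 0 < v.1) :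
    Valid v ([], st4 0 :: (ys ε ++ [st4 0])) ∧
      dsp ([], st4 0 :: (ys ε ++ [st4 0])) = (2, ε) := by
  constructor
  · refine valid_row (cf_ne h) ?_ ?_ ?_
    · intro d hd
      rcases List.mem_cons.1 hd with rfl | hd
      · exact ⟨0, rfl⟩
      · rcases List.mem_append.1 hd with hd | hd
        · exact cf_ys hε d hd
        · exact ⟨0, by simpa using hd⟩
    · rcases hε with rfl | rfl | rfl <;> simp [ys, st4, e4]
      omega
    · rcases hε with rfl | rfl | rfl <;> simp [ys, st4, e4] <;> omega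
  · rcases hε with rfl | rfl | rfl <;> simp [dsp, hz, ys, st4, e4]

private theorem cf_ww (hε : ε = 0 ∨ ε = 1 ∨ ε = -1) (h : 2 < v.1) :
    Valid v ([], st4 1 :: (ys ε ++ [st4 1])) ∧
      dsp ([], st4 1 :: (ys ε ++ [st4 1])) = (-2, ε) := by
  constructor
  · refine valid_row (cf_ne (by omega)) ?_ ?_ ?_
    · intro d hd
      rcases List.mem_cons.1 hd with rfl | hd
      · exact ⟨1, rfl⟩
      · rcases List.mem_append.1 hd with hd | hd
        · exact cf_ys hε d hd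
        · exact ⟨1, by simpa using hd⟩
    · rcases hε with rfl | rfl | rfl <;> simp [ys, st4, e4]
      omega
    · rcases hε with rfl | rfl | rfl <;> simp [ys, st4, e4] <;> omega
  · rcases hε with rfl | rfl | rfl <;> simp [dsp, hz, ys, st4, e4]

/-! ### The words of the whole chain -/

private theorem cf_tail (f : PP → List P3) (s : List PP) :
    Fw f s ++ [((0, 0, 1) : P3)] = (0, 0, 1) :: (Fw f s ++ [((0, 0, 1) : P3)]).tail := by
  cases s <;> rfl

/-- The chain between the two middle blocks. -/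
private def PM (q n p' : ℕ) (π : PP) : List PP :=
  List.replicate q ([], [st4 0]) ++ (List.replicate n ([st4 0], []) ++ π ::
    (List.replicate n ([st4 1], []) ++ List.replicate p' ([], [st4 1])))

private theorem cf_full (p q n p' q' : ℕ) (t t' : List P3) (π : PP) :
    NN p q n t ++ π :: NW p' q' n t' = List.replicate p ([], [st4 0]) ++ ([], t) ::
      (PM q n p' π ++ ([], t') :: List.replicate q' ([], [st4 1])) := by
  simp [NN, NW, PM]

private theorem cf_fst (p q n p' q' : ℕ) (t t' : List P3) (π : PP) :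
    Fw Prod.fst (NN p q n t ++ π :: NW p' q' n t') =
      Fw Prod.fst (NN p q n [] ++ π :: NW p' q' n []) := by
  rw [cf_full, cf_full]
  simp [fw_append, fw_cons]

private theorem cf_snd (p q n p' q' : ℕ) (t t' : List P3) (π : PP) :
    (Fw Prod.snd (NN p q n t ++ π :: NW p' q' n t')).tail =
      (Fw Prod.snd (List.replicate p ([], [st4 0])) ++ [(0, 0, 1)]).tail ++ (t ++
        ((Fw Prod.snd (PM q n p' π) ++ [(0, 0, 1)]) ++ (t' ++
          Fw Prod.snd (List.replicate q' ([], [st4 1]))))) := by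
  have h : Fw Prod.snd (NN p q n t ++ π :: NW p' q' n t') =
      (Fw Prod.snd (List.replicate p ([], [st4 0])) ++ [(0, 0, 1)]) ++ (t ++
        ((Fw Prod.snd (PM q n p' π) ++ [(0, 0, 1)]) ++ (t' ++
          Fw Prod.snd (List.replicate q' ([], [st4 1]))))) := by
    rw [cf_full]
    simp [fw_append, fw_cons]
  rw [h, cf_tail, List.cons_append, List.tail_cons, List.tail_cons]

private theorem cf_map (v : ℤ × ℤ) (l r : List P3) (π : PP) :
    (r.map (· + (π.1.sum.1, π.1.sum.2.1, hgt π)) ++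
      ((wk (v.1, v.2, 1) π.2).reverse ++ (l ++ wk (0, 0, 1) π.1))).map
        (· + (-(π.1.sum.1), -(π.1.sum.2.1), -(hgt π))) = r ++ glu v l π := by
  rw [List.map_append, List.map_map]
  congr 1
  convert List.map_id r
  ext q <;> simp

private theorem exists_bd (l : List P3) : ∃ X : ℕ, ∀ u ∈ l, u.1 ≤ X := by
  induction l with
  | nil => exact ⟨0, by simp⟩
  | cons a l ih =>
    obtain ⟨X, hX⟩ := ih
    refine ⟨X + a.1.toNat, fun u hu => ?_⟩
    push_cast
    rcases List.mem_cons.1 hu with rfl | hu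
    · omega
    · have := hX u hu
      omega

private theorem pb_cons {lo hi x : ℤ} {d : P3} {s : List P3} :
    PB lo hi x (d :: s) ↔ (lo ≤ x ∧ x ≤ hi) ∧ PB lo hi (x + d.1) s := Iff.rfl

private theorem fw_sum1 (f : PP → List P3) (n : ℕ) (ρ : PP) :
    (Fw f (List.replicate n ρ)).sum.1 = n * (f ρ).sum.1 := by
  rw [fw_rep_sum]
  simp

private theorem fw_sum3 (f : PP → List P3) (n : ℕ) (ρ : PP) :
    (Fw f (List.replicate n ρ)).sum.2.2 = n * (1 + (f ρ).sum.2.2) := by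
  rw [fw_rep_sum]
  simp [mul_add]

private theorem st0_x : (st4 0).1 = 1 := rfl

private theorem st1_x : (st4 1).1 = -1 := rfl

private theorem st0_z : (st4 0).2.2 = 0 := rfl

private theorem st1_z : (st4 1).2.2 = 0 := rfl

private theorem cf_pbA {p q n p' q' : ℕ} (hs : Steps π.1) :
    PB (-(xst π.1 : ℤ)) (n + xst π.1) 0 (Fw Prod.fst (NN p q n [] ++ π :: NW p' q' n [])) ∧
      (Fw Prod.fst (NN p q n [] ++ π :: NW p' q' n [])).sum.1 = π.1.sum.1 := by
  obtain ⟨h1, h2⟩ := sum_steps hs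
  unfold NN NW
  simp only [fw_append, fw_cons, pb_append, pb_cons, fw_sum1, List.nil_append, List.sum_nil,
    List.sum_append, List.sum_cons, Prod.fst_add, Prod.fst_zero, mul_zero, add_zero, zero_add,
    st0_x, st1_x, mul_one, mul_neg]
  refine ⟨⟨⟨pb_rep0 rfl ?_ ?_, ⟨?_, ?_⟩, pb_rep0 rfl ?_ ?_, pb_repE rfl ?_ ?_⟩, ⟨?_, ?_⟩,
    pb_steps hs ?_ ?_, pb_repW rfl ?_ ?_, pb_rep0 rfl ?_ ?_, ⟨?_, ?_⟩, pb_rep0 rfl ?_ ?_⟩, ?_⟩ <;>
  omega

private theorem cf_pb2 {q n p' : ℕ} {c : ℤ} (hs : Steps π.2) (hq : (xst π.2 : ℤ) ≤ q)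
    (hp' : (p' : ℤ) = q + π.2.sum.1) :
    PB (c + 1) (c + 1 + q + xst π.2) (c + 1) (Fw Prod.snd (PM q n p' π) ++ [(0, 0, 1)]) ∧
      (Fw Prod.snd (PM q n p' π) ++ [(0, 0, 1)]).sum.1 = 0 ∧
      (0 ≤ π.2.sum.2.2 → (Fw Prod.snd (PM q n p' π) ++ [(0, 0, 1)]).sum.2.2 ≠ 0) := by
  obtain ⟨h1, h2⟩ := sum_steps hs
  unfold PM
  simp only [fw_append, fw_cons, pb_append, pb_cons, fw_sum1, fw_sum3, List.sum_nil,
    List.sum_append, List.sum_cons, Prod.fst_add, Prod.fst_zero, mul_zero, add_zero, zero_add,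
    st0_x, st1_x, mul_one, mul_neg, Prod.snd_add, st0_z, st1_z, Prod.snd_zero]
  refine ⟨⟨⟨pb_repE rfl ?_ ?_, pb_rep0 rfl ?_ ?_, ⟨?_, ?_⟩, pb_steps hs ?_ ?_, pb_rep0 rfl ?_ ?_,
    pb_repW rfl ?_ ?_⟩, ⟨?_, ?_⟩, ⟨?_, ?_⟩⟩, ?_, fun h3 => ?_⟩ <;>
  omega

/-- The surgery on the polygon with the two chains. -/
private theorem cf_main (hg : Geo v π) (hε : ε = 0 ∨ ε = 1 ∨ ε = -1) (hl : Lower 0 0 v l)
    (hr : Upper 0 0 (v + dsp π) r) (hw : v + dsp π ≠ 0) {p q n p' q' : ℕ}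
    (hX : ∀ u ∈ l ++ r, u.1 ≤ n) (hp : v.1 + p = n + xst π.1) (hq : (xst π.2 : ℤ) ≤ q)
    (hp' : (p' : ℤ) = q + π.2.sum.1)
    (hU : UC v (NN p q n [st4 0])) (he : ed v (NN p q n [st4 0]) = v)
    (hU' : UC (v + dsp π) (NW p' q' n [st4 1]))
    (he' : ed (v + dsp π) (NW p' q' n [st4 1]) = v + dsp π)
    (hM : ∀ ρ ∈ NN p q n (st4 0 :: (ys ε ++ [st4 0])), ρ.2.sum.2.2 = ρ.1.sum.2.2)
    (hM' : ∀ ρ ∈ NW p' q' n (st4 1 :: (ys (-ε) ++ [st4 1])), ρ.2.sum.2.2 = ρ.1.sum.2.2) :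
    SameType (ring (r ++ gl v l (NN p q n [st4 0] ++ π :: NW p' q' n [st4 1])))
      (ring (r ++ gl v l (NN p q n (st4 0 :: (ys ε ++ [st4 0])) ++ π ::
        NW p' q' n (st4 1 :: (ys (-ε) ++ [st4 1]))))) := by
  obtain ⟨A, hA⟩ : ∃ A, A = (Fw Prod.fst (NN p q n [] ++ π :: NW p' q' n [])).tail := ⟨_, rfl⟩
  have hA' : Fw Prod.fst (NN p q n [] ++ π :: NW p' q' n []) = (0, 0, 1) :: A := by
    rw [hA]
    unfold NN
    cases p <;> rfl
  obtain ⟨a1, a2⟩ := cf_pbA (p := p) (q := q) (n := n) (p' := p') (q' := q') hg.stA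
  rw [hA', pb_cons] at a1
  rw [hA', List.sum_cons, Prod.fst_add, zero_add] at a2
  obtain ⟨s1, hs1⟩ : ∃ s1, s1 = (Fw Prod.snd (List.replicate p ([], [st4 0])) ++
    [((0, 0, 1) : P3)]).tail := ⟨_, rfl⟩
  have hs1' := cf_tail Prod.snd (List.replicate p ([], [st4 0]))
  rw [← hs1] at hs1'
  obtain ⟨s2, hs2⟩ : ∃ s2, s2 = Fw Prod.snd (PM q n p' π) ++ [((0, 0, 1) : P3)] := ⟨_, rfl⟩
  obtain ⟨s3, hs3⟩ : ∃ s3, s3 = Fw Prod.snd (List.replicate q' ([], [st4 1])) := ⟨_, rfl⟩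
  have hgl : ∀ t t' : List P3,
      (∀ ρ ∈ NN p q n t ++ π :: NW p' q' n t', ρ.2.sum.2.2 = ρ.1.sum.2.2) →
      gl v l (NN p q n t ++ π :: NW p' q' n t') =
        glu v l (A, s1 ++ (t ++ (s2 ++ (t' ++ s3)))) := by
    intro t t' h
    rw [gl_fw (by simp [NN]) h, cf_fst, cf_snd, ← hA, ← hs1, ← hs2, ← hs3]
  have hl0 : ∀ ρ ∈ NN p q n [st4 0] ++ π :: NW p' q' n [st4 1], ρ.2.sum.2.2 = ρ.1.sum.2.2 := by
    intro ρ hρ
    rcases List.mem_append.1 hρ with h | h
    · exact gc_level hU.gc ρ h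
    · rcases List.mem_cons.1 h with rfl | h
      · exact level hg
      · exact gc_level hU'.gc ρ h
  have hl1 : ∀ ρ ∈ NN p q n (st4 0 :: (ys ε ++ [st4 0])) ++ π ::
      NW p' q' n (st4 1 :: (ys (-ε) ++ [st4 1])), ρ.2.sum.2.2 = ρ.1.sum.2.2 := by
    intro ρ hρ
    rcases List.mem_append.1 hρ with h | h
    · exact hM ρ h
    · rcases List.mem_cons.1 h with rfl | h
      · exact level hg
      · exact hM' ρ h
  have hLow : Lower 0 0 (v + dsp π) (gl v l (NN p q n [st4 0] ++ π :: NW p' q' n [st4 1])) := by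
    have hG : GC v (NN p q n [st4 0] ++ π :: NW p' q' n [st4 1]) := by
      rw [gc_append, he]
      exact ⟨hU.gc, hg, hU'.gc⟩
    have h := lower_gl hG hl
    rwa [ed_append, he, ed_cons, he'] at h
  have hRing := ring_of (Ne.symm hw) hr hLow
  rw [hgl _ _ hl0] at hRing ⊢
  rw [hgl _ _ hl1]
  obtain ⟨T, hT⟩ : ∃ T : P3, T = (A.sum.1, A.sum.2.1, A.sum.2.2 + 1) := ⟨_, rfl⟩
  have hB0 : s1 ++ ([st4 0] ++ (s2 ++ ([st4 1] ++ s3))) =
      s1 ++ (1, 0, 0) :: (s2 ++ (-1, 0, 0) :: s3) := rfl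
  have hB1 : s1 ++ (st4 0 :: (ys ε ++ [st4 0]) ++ (s2 ++ (st4 1 :: (ys (-ε) ++ [st4 1]) ++ s3))) =
      s1 ++ (1, 0, 0) :: (ys ε ++ (1, 0, 0) :: (s2 ++ (-1, 0, 0) ::
        (ys (-ε) ++ (-1, 0, 0) :: s3))) := by
    simp only [List.cons_append, List.append_assoc, List.nil_append]
    rfl
  have hnd : (r.map (· + T) ++ ((wk (v.1, v.2, 1) (s1 ++ (1, 0, 0) ::
      (s2 ++ (-1, 0, 0) :: s3))).reverse ++ (l ++ wk (0, 0, 1) A))).Nodup := by
    have h := hRing.nodup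
    rw [← cf_map, hB0] at h
    rw [hT]
    exact h.of_map
  have hch : (r.map (· + T) ++ ((wk (v.1, v.2, 1) (s1 ++ (1, 0, 0) ::
      (s2 ++ (-1, 0, 0) :: s3))).reverse ++ (l ++ wk (0, 0, 1) A))).IsChain Adj := by
    have h := hRing.chain
    rw [← cf_map, hB0, List.isChain_map] at h
    rw [hT]
    refine h.imp fun u w huw => ?_
    simpa [Adj] using huw
  have hm0 : l ++ wk (0, 0, 1) A ≠ [] := fun h => wk_ne_nil _ _ (List.append_eq_nil_iff.1 h).2
  have hr0 : r.map (· + T) ≠ [] := by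
    intro h
    have h1 := hr.head
    rw [List.map_eq_nil_iff.1 h] at h1
    simp at h1
  have hcl : ∀ u ∈ (l ++ wk (0, 0, 1) A).getLast?, ∀ w ∈ (r.map (· + T)).head?, Adj u w := by
    intro u hu w hw
    rw [List.getLast?_append, last_wk] at hu
    rw [List.head?_map, hr.head] at hw
    simp only [Option.some_or, Option.mem_def, Option.some.injEq, Option.map_some] at hu hw
    subst hu hw
    simp [Adj, hT]
  obtain ⟨c1, c2, c3⟩ := cf_pb2 (q := q) (n := n) (p' := p') (c := n + xst π.1) hg.stB hq hp'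
  rw [← hs2] at c1 c2 c3
  have e1 : v.1 + s1.sum.1 = n + xst π.1 := by
    have h := congrArg (fun x : List P3 => x.sum.1) hs1'
    simp only [List.sum_append, List.sum_cons, List.sum_nil, Prod.fst_add, add_zero, zero_add,
      fw_sum1, st0_x, mul_one] at h
    omega
  have b1 : PB v.1 (n + xst π.1) v.1 s1 := by
    have h : PB v.1 (n + xst π.1) v.1 ((0, 0, 1) :: s1) := by
      rw [← hs1', pb_append]
      simp only [pb_cons, fw_sum1, List.sum_cons, List.sum_nil, add_zero, st0_x, mul_one]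
      refine ⟨pb_repE rfl ?_ ?_, ⟨?_, ?_⟩, ⟨?_, ?_⟩⟩ <;> omega
    rw [pb_cons, add_zero] at h
    exact h.2
  have b3 : PB (n + xst π.1 - q') (n + xst π.1) (n + xst π.1) s3 := by
    rw [hs3]
    exact pb_repW rfl le_rfl le_rfl
  have key := cf_key (c := n + xst π.1) (p := (v.1, v.2, 1)) (s1 := s1) (s2 := s2) (s3 := s3)
    (m := l ++ wk (0, 0, 1) A) (r1 := r.map (· + T)) hε hm0 hr0 hnd hch hcl
    (fun u hu => (pb_wk b1 u hu).2) e1
    (fun u hu => (pb_wk (p := (v.1, v.2, 1) + s1.sum + (1, 0, 0)) (by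
      have e : ((v.1, v.2, 1) + s1.sum + (1, 0, 0) : P3).1 = n + xst π.1 + 1 := by
        simp [e1]
      rw [e]
      exact c1) u hu).1) c2 (c3 (by
        have h1 := level hg
        have h2 := hg.block.lt
        unfold KLog.hgt at h2
        omega))
    (fun u hu => (pb_wk (p := (v.1, v.2, 1) + s1.sum + (1, 0, 0) + s2.sum + (-1, 0, 0)) (by
      have e : ((v.1, v.2, 1) + s1.sum + (1, 0, 0) + s2.sum + (-1, 0, 0) : P3).1 = n + xst π.1 := by
        simp [e1, c2]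
      rw [e]
      exact b3) u hu).2) (by
        intro u hu
        rcases List.mem_append.1 hu with h | h
        · have := hX u (List.mem_append_left _ h)
          omega
        · exact (pb_wk (p := (0, 0, 1)) a1.2 u h).2) (by
        intro u hu
        obtain ⟨w, hw, rfl⟩ := List.mem_map.1 hu
        have h1 := hX w (List.mem_append_right _ hw)
        have h2 := (sum_steps hg.stA).2
        have h3 : (w + T).1 = w.1 + A.sum.1 := by rw [hT]; rfl
        omega)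
  rw [hB0, hB1, ring_glu, ring_glu]
  rw [hT] at key
  exact (sameType_shift _ _).symm.trans (key.trans (sameType_shift _ _))

/-- **Moving the second strand of a block** by `(1, ε)`. -/
theorem conf_x (hg : Geo v π) (h : ((xst π.1 + xst π.2 : ℕ) : ℤ) < v.1)
    (hε : ε = 0 ∨ ε = 1 ∨ ε = -1) (hl : Lower 0 0 v l) (hr : Upper 0 0 (v + dsp π) r) :
    ∃ N N' M M' : List PP, UC v N ∧ ed v N = v ∧
      UC (v + dsp π) N' ∧ ed (v + dsp π) N' = v + dsp π ∧
      UC v M ∧ ed v M = v + (1, ε) ∧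
      UC (v + (1, ε) + dsp π) M' ∧ ed (v + (1, ε) + dsp π) M' = v + dsp π ∧
      SameType (ring (r ++ gl v l (N ++ π :: N'))) (ring (r ++ gl v l (M ++ π :: M'))) := by
  obtain ⟨X, hX⟩ := exists_bd (l ++ r)
  obtain ⟨sa1, sa2⟩ := sum_steps hg.stA
  obtain ⟨sb1, sb2⟩ := sum_steps hg.stB
  push_cast at h
  obtain ⟨n, hn⟩ : ∃ n : ℕ, n = X + v.1.toNat + xst π.1 + xst π.2 + 1 := ⟨_, rfl⟩
  obtain ⟨p, hp⟩ : ∃ p : ℕ, (p : ℤ) = n + xst π.1 - v.1 :=
    ⟨(n + xst π.1 - v.1).toNat, by omega⟩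
  obtain ⟨q, hq⟩ : ∃ q : ℕ, (q : ℤ) = v.1 - xst π.1 - 1 := ⟨(v.1 - xst π.1 - 1).toNat, by omega⟩
  obtain ⟨p', hp'⟩ : ∃ p' : ℕ, (p' : ℤ) = q + π.2.sum.1 := ⟨(q + π.2.sum.1).toNat, by omega⟩
  obtain ⟨q', hq'⟩ : ∃ q' : ℕ, (q' : ℤ) = n - 1 - p' := ⟨(n - 1 - p' : ℤ).toNat, by omega⟩
  have hd : (v + dsp π).1 = v.1 + π.2.sum.1 - π.1.sum.1 := by
    simp only [Prod.fst_add, dsp, hz, Prod.fst_sub]
    ring
  have hd' : (v + (1, ε) + dsp π).1 = v.1 + 1 + π.2.sum.1 - π.1.sum.1 := by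
    simp only [Prod.fst_add, dsp, hz, Prod.fst_sub]
    ring
  have hε' : -ε = 0 ∨ -ε = 1 ∨ -ε = -1 := by omega
  have hp1 : (v + ((p : ℤ), 0)).1 = v.1 + p := rfl
  have hE := cf_e (v := v + ((p : ℤ), 0)) (by omega)
  have hEE := cf_ee (v := v + ((p : ℤ), 0)) hε (by omega)
  have hq1 : (v + dsp π + ((n : ℤ), 0) - ((p' : ℤ), 0)).1 =
      v.1 + π.2.sum.1 - π.1.sum.1 + n - p' := by
    rw [← hd]
    rfl
  have hq2 : (v + (1, ε) + dsp π + ((n : ℤ), 0) - ((p' : ℤ), 0)).1 =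
      v.1 + 1 + π.2.sum.1 - π.1.sum.1 + n - p' := by
    rw [← hd']
    rfl
  have hW := cf_w (v := v + dsp π + ((n : ℤ), 0) - ((p' : ℤ), 0)) (by omega)
  have hWW := cf_ww (v := v + (1, ε) + dsp π + ((n : ℤ), 0) - ((p' : ℤ), 0)) hε' (by omega)
  obtain ⟨u1, d1⟩ := uc_NN (q := q) (n := n) (w := v + ((p : ℤ) + 1, 0)) (by omega) hE.1
    (by rw [hE.2]; ext <;> simp [add_assoc]) (by simp; omega) (by simp; omega)
  obtain ⟨u2, d2⟩ := uc_NN (q := q) (n := n) (w := v + ((p : ℤ) + 2, ε)) (by omega) hEE.1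
    (by rw [hEE.2]; ext <;> simp [add_assoc]) (by simp; omega) (by simp; omega)
  obtain ⟨u3, d3⟩ := uc_NW (q := q') (n := n) (p := p')
    (w := v + dsp π + ((n : ℤ) - p' - 1, 0)) (by omega) (by omega) hW.1
    (by rw [hW.2]; ext <;> simp <;> ring) (by rw [Prod.fst_add, hd]; simp; omega)
  obtain ⟨u4, d4⟩ := uc_NW (q := q') (n := n) (p := p')
    (w := v + (1, ε) + dsp π + ((n : ℤ) - p' - 2, -ε)) (by omega) (by omega) hWW.1
    (by rw [hWW.2]; ext <;> simp <;> ring) (by rw [Prod.fst_add, hd']; simp; omega)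
  have d1' : ed v (NN p q n [st4 0]) = v := by
    rw [d1]
    ext
    · simp
      omega
    · simp
  have d2' : ed v (NN p q n (st4 0 :: (ys ε ++ [st4 0]))) = v + (1, ε) := by
    rw [d2]
    ext
    · simp
      omega
    · simp
  have d3' : ed (v + dsp π) (NW p' q' n [st4 1]) = v + dsp π := by
    rw [d3]
    ext
    · simp
      omega
    · simp
  have d4' : ed (v + (1, ε) + dsp π) (NW p' q' n (st4 1 :: (ys (-ε) ++ [st4 1]))) =
      v + dsp π := by
    rw [d4]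
    ext
    · simp
      omega
    · simp
      ring
  refine ⟨_, _, _, _, u1, d1', u3, d3', u2, d2', u4, d4', ?_⟩
  refine cf_main hg hε hl hr (cf_ne (by omega)) (fun u hu => ?_) (by omega) (by omega) hp' u1 d1'
    u3 d3' (gc_level u2.gc) (gc_level u4.gc)
  have := hX u hu
  omega

end Pool.Agent.KTop
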