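import Pool.Agent.KAmp.Gl
import Pool.Agent.KLog.Far

/-! Chains of blocks on lower halves, and equality of types in all upper contexts: definitions. -/

set_option autoImplicit false

open Pool.Agent.LK

namespace Pool.Agent.KTop

open Pool.Agent.KTube Pool.Agent.KRing Pool.Agent.KLog
open Pool.Agent.KAmp (gl)

/-- The lower halves `l` and `l'` with displacement `v` give the same type together with every upper
half. -/
structure Rel (v : ℤ × ℤ) (l l' : List P3) : Prop where
  left : Lower 0 0 v l
  right : Lower 0 0 v l'
  same : ∀ r, Upper 0 0 v r → SameType (ring (r ++ l)) (ring (r ++ l'))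

/-- The blocks of the list can be put on a half with displacement `v`. -/
def GC : ℤ × ℤ → List PP → Prop
  | v, [] => v ≠ 0
  | v, π :: s => Geo v π ∧ GC (v + dsp π) s

/-- The same for unknotted blocks. -/
def UC : ℤ × ℤ → List PP → Prop
  | v, [] => v ≠ 0
  | v, π :: s => Valid v π ∧ UC (v + dsp π) s

/-- The displacement at the end of the chain. -/
def ed (v : ℤ × ℤ) (s : List PP) : ℤ × ℤ := v + (s.map dsp).sum

/-- The movement of the first strand along the chain. -/
def ash (s : List PP) : ℤ × ℤ := (s.map fun π => hz π.1.sum).sum

end Pool.Agent.KTop
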