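import Pool.Agent.KTop.Calc
import Pool.Agent.KTube.Middle
import Pool.Agent.KTube.Slide

/-! KT5: exchange of the middle part between two sections at the columns `(0, 0)`, `(1, 0)`. -/

set_option autoImplicit false

open Pool.Agent.LK

namespace Pool.Agent.KTop

open Pool.Agent.KTube Pool.Agent.KRing Pool.Agent.KLog
open Pool.Agent.KAmp (gl)
open Pool.Agent.LatticeTube (pedges mem_pedges mem_of_mem_pedges)

variable {r l : List P3} {s s' : List PP}

/-! ### Blocks -/

private theorem block_cat {k k' k'' : ℤ} {a b a' b' a'' b'' : ℤ × ℤ} {A B A' B' : List P3}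
    (h : Block k k' a b a' b' A B) (h' : Block k' k'' a' b' a'' b'' A' B') :
    Block k k'' a b a'' b'' (A ++ A') (B' ++ B) := by
  have hlt := h.lt
  have hlt' := h'.lt
  refine ⟨hlt.trans hlt', ?_, ?_, ?_, ?_, ?_, ?_, ?_, ?_, ?_, ?_, ?_⟩
  · refine List.nodup_append.2 ⟨h.nodupA, h'.nodupA, ?_⟩
    intro u hu v hv huv
    subst huv
    have h1 := (h.levA u hu).2
    have h2 := (h'.levA u hv).1
    omega
  · refine List.nodup_append.2 ⟨h'.nodupB, h.nodupB, ?_⟩
    intro u hu v hv huv
    subst huv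
    have h1 := (h'.levB u hu).1
    have h2 := (h.levB u hv).2
    omega
  · intro u hu hv
    rcases List.mem_append.1 hu with h1 | h1
    · rcases List.mem_append.1 hv with h2 | h2
      · have h3 := (h.levA u h1).2
        have h4 := (h'.levB u h2).1
        omega
      · exact h.disj u h1 h2
    · rcases List.mem_append.1 hv with h2 | h2
      · exact h'.disj u h1 h2
      · have h3 := (h'.levA u h1).1
        have h4 := (h.levB u h2).2
        omega
  · refine h.chainA.append h'.chainA ?_
    intro x hx y hy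
    rw [h.lastA] at hx
    rw [h'.headA] at hy
    simp only [Option.mem_def, Option.some.injEq] at hx hy
    subst hx hy
    exact adj_leg a' k'
  · refine h'.chainB.append h.chainB ?_
    intro x hx y hy
    rw [h'.lastB] at hx
    rw [h.headB] at hy
    simp only [Option.mem_def, Option.some.injEq] at hx hy
    subst hx hy
    exact (adj_leg b' k').symm
  · rw [List.head?_append, h.headA]; rfl
  · rw [List.getLast?_append, h'.lastA]; rfl
  · rw [List.head?_append, h'.headB]; rfl
  · rw [List.getLast?_append, h.lastB]; rfl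
  · intro u hu
    rcases List.mem_append.1 hu with h1 | h1
    · have h3 := h.levA u h1
      omega
    · have h3 := h'.levA u h1
      omega
  · intro u hu
    rcases List.mem_append.1 hu with h1 | h1
    · have h3 := h'.levB u h1
      omega
    · have h3 := h.levB u h1
      omega

private theorem block_shift {k k' : ℤ} {a b a' b' : ℤ × ℤ} {A B : List P3}
    (h : Block k k' a b a' b' A B) (t : P3) :
    Block (k + t.2.2) (k' + t.2.2) (csh t a) (csh t b) (csh t a') (csh t b')
      (A.map (· + t)) (B.map (· + t)) := by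
  have hlt := h.lt
  have hch : ∀ {C : List P3}, C.IsChain Adj → (C.map (· + t)).IsChain Adj := by
    intro C hC
    rw [List.isChain_map]
    refine hC.imp fun u v huv => ?_
    simpa [Adj] using huv
  refine ⟨by omega, h.nodupA.map (add_left_injective t), h.nodupB.map (add_left_injective t), ?_,
    hch h.chainA, hch h.chainB, ?_, ?_, ?_, ?_, ?_, ?_⟩
  · intro u hu hv
    obtain ⟨x, hx, rfl⟩ := List.mem_map.1 hu
    obtain ⟨y, hy, hxy⟩ := List.mem_map.1 hv
    have h1 : y = x := add_left_injective t hxy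
    rw [h1] at hy
    exact h.disj x hx hy
  · rw [List.head?_map, h.headA]
    simp only [Option.map_some, Option.some.injEq, csh]
    refine Prod.ext rfl (Prod.ext rfl ?_)
    simp only [Prod.snd_add]; ring
  · rw [List.getLast?_map, h.lastA]
    rfl
  · rw [List.head?_map, h.headB]
    rfl
  · rw [List.getLast?_map, h.lastB]
    simp only [Option.map_some, Option.some.injEq, csh]
    refine Prod.ext rfl (Prod.ext rfl ?_)
    simp only [Prod.snd_add]; ring
  · intro u hu
    obtain ⟨v, hv, rfl⟩ := List.mem_map.1 hu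
    have := h.levA v hv
    simp only [Prod.snd_add]; omega
  · intro u hu
    obtain ⟨v, hv, rfl⟩ := List.mem_map.1 hu
    have := h.levB v hv
    simp only [Prod.snd_add]; omega

/-- One block in normal position. -/
private theorem block_one {v : ℤ × ℤ} {π : PP} (hg : Geo v π) :
    Block (-(hgt π)) 0 (-(hz π.1.sum)) (v - hz π.1.sum) 0 (v + dsp π)
      ((sdA π).map (· + (-(π.1.sum.1), -(π.1.sum.2.1), -(hgt π))))
      ((sdB v π).map (· + (-(π.1.sum.1), -(π.1.sum.2.1), -(hgt π)))) := by
  have h := block_shift hg.block (-(π.1.sum.1), -(π.1.sum.2.1), -(hgt π))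
  have e1 : (0 : ℤ) + ((-(π.1.sum.1), -(π.1.sum.2.1), -(hgt π)) : P3).2.2 = -(hgt π) := by
    simp only; ring
  have e2 : hgt π + ((-(π.1.sum.1), -(π.1.sum.2.1), -(hgt π)) : P3).2.2 = 0 := by
    simp only; ring
  have e3 : csh (-(π.1.sum.1), -(π.1.sum.2.1), -(hgt π)) 0 = -(hz π.1.sum) := by
    refine Prod.ext ?_ ?_ <;> simp [csh, hz]
  have e4 : csh (-(π.1.sum.1), -(π.1.sum.2.1), -(hgt π)) v = v - hz π.1.sum := by
    refine Prod.ext ?_ ?_ <;> simp [csh, hz, sub_eq_add_neg]
  have e5 : csh (-(π.1.sum.1), -(π.1.sum.2.1), -(hgt π)) (hz π.1.sum) = 0 := by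
    refine Prod.ext ?_ ?_ <;> simp [csh, hz]
  have e6 : csh (-(π.1.sum.1), -(π.1.sum.2.1), -(hgt π)) (v + hz π.2.sum) = v + dsp π := by
    refine Prod.ext ?_ ?_
    · simp only [csh, hz, dsp, Prod.fst_add, Prod.fst_sub]; ring
    · simp only [csh, hz, dsp, Prod.snd_add, Prod.snd_sub]; ring
  rw [e1, e2, e3, e4, e5, e6] at h
  exact h

/-- A chain of blocks as one block. -/
private theorem chain_block : ∀ (s : List PP) (v : ℤ × ℤ), s ≠ [] → GC v s →
    ∃ (A B : List P3) (k : ℤ), Block k 0 (-ash s) (v - ash s) 0 (ed v s) A B ∧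
      ∀ l, gl v l s = B ++ (l.map (· + (-(ash s).1, -(ash s).2, k)) ++ A)
  | [], _, h, _ => absurd rfl h
  | [π], v, _, hs => by
    have e1 : ash [π] = hz π.1.sum := by simp [ash]
    refine ⟨(sdA π).map (· + (-(π.1.sum.1), -(π.1.sum.2.1), -(hgt π))),
      (sdB v π).map (· + (-(π.1.sum.1), -(π.1.sum.2.1), -(hgt π))), -(hgt π), ?_, ?_⟩
    · rw [e1, ed_cons, ed_nil]
      exact block_one hs.1
    · intro l
      change glu v l π = _
      unfold glu
      rw [List.map_append, List.map_append, e1]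
      rfl
  | π :: ρ :: s, v, _, hs => by
    obtain ⟨A', B', k', hb', hl'⟩ := chain_block (ρ :: s) (v + dsp π) (by simp) hs.2
    set S := ρ :: s with hS
    have hb := block_shift (block_one hs.1) (-(ash S).1, -(ash S).2, k')
    have e1 : ash (π :: S) = hz π.1.sum + ash S := by simp [ash]
    have e2 : (0 : ℤ) + ((-(ash S).1, -(ash S).2, k') : P3).2.2 = k' := by simp
    have e3 : csh (-(ash S).1, -(ash S).2, k') (-(hz π.1.sum)) = -ash (π :: S) := by
      rw [e1]
      refine Prod.ext ?_ ?_
      · simp only [csh, Prod.fst_neg, Prod.fst_add]; ring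
      · simp only [csh, Prod.snd_neg, Prod.snd_add]; ring
    have e4 : csh (-(ash S).1, -(ash S).2, k') (v - hz π.1.sum) = v - ash (π :: S) := by
      rw [e1]
      refine Prod.ext ?_ ?_
      · simp only [csh, Prod.fst_sub, Prod.fst_add]; ring
      · simp only [csh, Prod.snd_sub, Prod.snd_add]; ring
    have e5 : csh (-(ash S).1, -(ash S).2, k') 0 = -ash S := by
      refine Prod.ext ?_ ?_ <;> simp [csh]
    have e6 : csh (-(ash S).1, -(ash S).2, k') (v + dsp π) = v + dsp π - ash S := by
      refine Prod.ext ?_ ?_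
      · simp only [csh, Prod.fst_sub, Prod.fst_add]; ring
      · simp only [csh, Prod.snd_sub, Prod.snd_add]; ring
    rw [e2, e3, e4, e5, e6] at hb
    refine ⟨_, _, _, by rw [ed_cons]; exact block_cat hb hb', ?_⟩
    intro l
    change gl (v + dsp π) (glu v l π) S = _
    rw [hl']
    unfold glu
    simp only [List.map_append, List.map_map, List.append_assoc]
    congr 2
    congr 1
    refine List.map_congr_left fun x _ => ?_
    simp only [Function.comp_apply, e1]
    refine Prod.ext ?_ (Prod.ext ?_ ?_)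
    · simp only [Prod.fst_add, hz]; ring
    · simp only [Prod.fst_add, Prod.snd_add, hz]; ring
    · simp only [Prod.snd_add]; ring

/-! ### Caps -/

/-- The cap above. -/
private def cU (k : ℤ) : List P3 := [(0, 0, k + 1), (1, 0, k + 1)]

/-- The cap below. -/
private def cL (k : ℤ) : List P3 := [(1, 0, k), (0, 0, k)]

private theorem ne01 : (0 : ℤ × ℤ) ≠ (1, 0) := by
  intro h
  have := congrArg Prod.fst h
  simp at this

private theorem upper_cU (k : ℤ) : Upper k 0 (1, 0) (cU k) := by
  refine ⟨by simp [cU], ?_, rfl, rfl, ?_⟩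
  · simp [cU, Adj]
  · intro u hu
    simp only [cU, List.mem_cons, List.not_mem_nil, or_false] at hu
    rcases hu with rfl | rfl <;> simp

private theorem lower_cL (k : ℤ) : Lower k 0 (1, 0) (cL k) := by
  refine ⟨by simp [cL], ?_, rfl, rfl, ?_⟩
  · simp [cL, Adj]
  · intro u hu
    simp only [cL, List.mem_cons, List.not_mem_nil, or_false] at hu
    rcases hu with rfl | rfl <;> simp

private theorem mem_pedges_cU (k : ℤ) {e : Sym2 P3} : e ∈ pedges (cU k) ↔ e = cap (k + 1) := by
  simp [cU, cap, LatticeTube.pedges]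

private theorem mem_pedges_cL (k : ℤ) {e : Sym2 P3} : e ∈ pedges (cL k) ↔ e = cap k := by
  simp only [cL, LatticeTube.pedges, cap]
  rw [Sym2.eq_swap]
  simp

private theorem cap_not_upper {k j : ℤ} (hr : Upper k 0 (1, 0) r) (hj : j ≤ k) :
    cap j ∉ pedges r := by
  intro h
  have := (pedges_lev hr.lev h).1
  simp only at this
  omega

private theorem cap_not_lower {k j : ℤ} (hl : Lower k 0 (1, 0) l) (hj : k < j) :
    cap j ∉ pedges l := by
  intro h
  have := (pedges_lev hl.lev h).1
  simp only at this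
  omega

private theorem glue_caps {k : ℤ} (hr : Upper k 0 (1, 0) r) (hl : Lower k 0 (1, 0) l) :
    glue (ring (cU k ++ l)) (ring (r ++ cL k)) k = ring (r ++ l) := by
  have h1 := cap_not_upper hr le_rfl
  have h2 := cap_not_lower hl (lt_add_one k)
  have l0 : ∀ j, leg 0 k ≠ cap j := by
    intro j
    simp [leg, cap]
  have l1 : ∀ j, leg (1, 0) k ≠ cap j := by
    intro j
    simp [leg, cap]
  ext e
  rw [mem_glue', mem_ring_of (upper_cU k) hl, mem_ring_of hr (lower_cL k), mem_ring_of hr hl,
    mem_pedges_cU, mem_pedges_cL]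
  constructor
  · rintro (⟨h3 | h3 | h3 | h3, h4⟩ | ⟨h3 | h3 | h3 | h3, h4⟩)
    · exact absurd h3 h4
    · exact Or.inr (Or.inl h3)
    · exact Or.inr (Or.inr (Or.inl h3))
    · exact Or.inr (Or.inr (Or.inr h3))
    · exact Or.inl h3
    · exact absurd h3 h4
    · exact Or.inr (Or.inr (Or.inl h3))
    · exact Or.inr (Or.inr (Or.inr h3))
  · rintro (h3 | h3 | h3 | h3)
    · exact Or.inr ⟨Or.inl h3, fun h => h1 (h ▸ h3)⟩
    · exact Or.inl ⟨Or.inr (Or.inl h3), fun h => h2 (h ▸ h3)⟩
    · exact Or.inl ⟨Or.inr (Or.inr (Or.inl h3)), fun h => l0 _ (h3.symm.trans h)⟩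
    · exact Or.inl ⟨Or.inr (Or.inr (Or.inr h3)), fun h => l1 _ (h3.symm.trans h)⟩

private theorem isV0_ring {k : ℤ} (hr : Upper k 0 (1, 0) r) (hl : Lower k 0 (1, 0) l) :
    IsV0 (ring (r ++ l)) k := by
  unfold IsV0
  rw [cross_ring_of hr hl]
  rfl

private theorem isLow_ring {k : ℤ} (hl : Lower k 0 (1, 0) l) : IsLow (ring (cU k ++ l)) k := by
  have hR := ring_of ne01 (upper_cU k) hl
  refine ⟨hR.isPolygon, isV0_ring (upper_cU k) hl, ?_, ?_⟩
  · rw [mem_ring_of (upper_cU k) hl]
    exact Or.inl ((mem_pedges_cU k).2 rfl)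
  · intro u hu
    rw [hR.mem_verts, List.mem_append] at hu
    rcases hu with hu | hu
    · simp only [cU, List.mem_cons, List.not_mem_nil, or_false] at hu
      rcases hu with rfl | rfl <;> simp
    · have := hl.lev u hu
      omega

private theorem isUpp_ring {k : ℤ} (hr : Upper k 0 (1, 0) r) : IsUpp (ring (r ++ cL k)) k := by
  have hR := ring_of ne01 hr (lower_cL k)
  refine ⟨hR.isPolygon, isV0_ring hr (lower_cL k), ?_, ?_⟩
  · rw [mem_ring_of hr (lower_cL k)]
    exact Or.inr (Or.inl ((mem_pedges_cL k).2 rfl))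
  · intro u hu
    rw [hR.mem_verts, List.mem_append] at hu
    rcases hu with hu | hu
    · have := hr.lev u hu
      omega
    · simp only [cL, List.mem_cons, List.not_mem_nil, or_false] at hu
      rcases hu with rfl | rfl <;> simp

private theorem lu_cL : LU 0 0 (1, 0) (cL 0) := by
  have hP := (ring_of ne01 (upper_cU 0) (lower_cL 0)).isPolygon
  refine ⟨ne01, lower_cL 0, cU 0, upper_cU 0, ((unknotted_iff hP
    (isTwo_ring_of ne01 (upper_cU 0) (lower_cL 0))).1 unknotted_caps).1⟩

/-- A path along a walk read backwards. -/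
private theorem path_rev {E : Sym2 P3 → Prop} : ∀ (B : List P3) (x y : P3), B.head? = some x →
    B.getLast? = some y → (∀ e ∈ pedges B, E e) → Relation.ReflTransGen (fun a b => E s(a, b)) y x
  | [], x, y, h, _, _ => by simp at h
  | [z], x, y, h, h', _ => by
    simp only [List.head?_cons, Option.some.injEq] at h
    simp only [List.getLast?_singleton, Option.some.injEq] at h'
    subst h h'
    exact Relation.ReflTransGen.refl
  | z :: z' :: B, x, y, h, h', hE => by
    simp only [List.head?_cons, Option.some.injEq] at h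
    subst h
    rw [List.getLast?_cons_cons] at h'
    have h1 := path_rev (z' :: B) z' y rfl h' fun e he => hE e (by
      rw [pedges_cons_cons]
      exact Finset.mem_insert_of_mem he)
    refine h1.tail ?_
    rw [Sym2.eq_swap]
    exact hE _ (by
      rw [pedges_cons_cons]
      exact Finset.mem_insert_self _ _)

/-- The data of the middle lemma for a chain. -/
private theorem chain_data (hs : UC (1, 0) s) (he : ed (1, 0) s = (1, 0)) (ha : ash s = 0)
    (hn : s ≠ []) : ∃ (M : Finset (Sym2 P3)) (k : ℤ), IsBlock M k 0 ∧ Unknotted M ∧ Even M k 0 ∧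
      ∀ r l, Upper 0 0 (1, 0) r → Lower 0 0 (1, 0) l →
        IsLow (LK.shift (0, 0, k) (ring (cU 0 ++ l))) k ∧
        glue (LK.shift (0, 0, k) (ring (cU 0 ++ l))) (glue M (ring (r ++ cL 0)) 0) k =
          ring (r ++ gl (1, 0) l s) := by
  obtain ⟨A, B, k, hb, hgl⟩ := chain_block s (1, 0) hn hs.gc
  rw [ha, he, neg_zero, sub_zero] at hb
  have hgl' : ∀ l, gl (1, 0) l s = B ++ (l.map (· + (0, 0, k)) ++ A) := by
    intro l
    rw [hgl l, ha]
    rfl
  have hk := hb.lt
  have hcL : (cL 0).map (· + (0, 0, k)) = cL k := by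
    simp [cL]
  have hM1 : gl (1, 0) (cL 0) s = B ++ (cL k ++ A) := by rw [hgl', hcL]
  have hLM : Lower 0 0 (1, 0) (gl (1, 0) (cL 0) s) := by
    have := lower_gl hs.gc (lower_cL 0)
    rwa [he] at this
  have hrot : ring (cU 0 ++ gl (1, 0) (cL 0) s) = ring ((A ++ (cU 0 ++ B)) ++ cL k) := by
    rw [hM1, hb.ring_rotate (upper_cU 0) (lower_cL k)]
  have hmemB : ∀ e ∈ pedges B, e ∈ ring (cU 0 ++ gl (1, 0) (cL 0) s) := by
    intro e he'
    rw [hrot, mem_ring_of (hb.upper (upper_cU 0)) (lower_cL k), hb.mem_upper (upper_cU 0)]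
    exact Or.inl (Or.inr (Or.inl he'))
  refine ⟨ring (cU 0 ++ gl (1, 0) (cL 0) s), k, ⟨hk, ?_, isLow_ring hLM⟩, ?_, ?_, ?_⟩
  · rw [hrot]
    exact isUpp_ring (hb.upper (upper_cU 0))
  · have h1 := lu_gl hs lu_cL
    rw [he] at h1
    exact unknotted_halves UU_capU h1
  · -- the second strand
    have hlegk : leg (1, 0) k ∈ ring (cU 0 ++ gl (1, 0) (cL 0) s) := by
      rw [hrot, mem_ring_of (hb.upper (upper_cU 0)) (lower_cL k)]
      exact Or.inr (Or.inr (Or.inr rfl))
    have hleg0 : leg (1, 0) 0 ∈ ring (cU 0 ++ gl (1, 0) (cL 0) s) := by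
      rw [mem_ring_of (upper_cU 0) hLM]
      exact Or.inr (Or.inr (Or.inr rfl))
    have hl1 : ∀ i j, leg (1, 0) i ≠ cap j := by
      intro i j
      simp [leg, cap]
    have h1 := path_rev (E := fun e => e ∈ ring (cU 0 ++ gl (1, 0) (cL 0) s) ∧ e ≠ cap k ∧
      e ≠ cap (0 + 1)) B _ _ hb.headB hb.lastB (by
        intro e he'
        refine ⟨hmemB e he', ?_, ?_⟩
        · rintro rfl
          have := (pedges_lev hb.levB he').1.1
          simp only at this
          omega
        · rintro rfl
          have := (pedges_lev hb.levB he').1.2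
          simp only at this
          omega)
    refine (Relation.ReflTransGen.head ?_ h1).tail ?_
    · exact ⟨hlegk, hl1 _ _, hl1 _ _⟩
    · exact ⟨hleg0, hl1 _ _, hl1 _ _⟩
  · intro r l hr hl
    have hl' : Lower k 0 (1, 0) (l.map (· + (0, 0, k))) := by
      have h1 := hl.shift (0, 0, k)
      have e1 : (0 : ℤ) + ((0, 0, k) : P3).2.2 = k := by simp
      have e2 : csh (0, 0, k) 0 = 0 := by
        refine Prod.ext ?_ ?_ <;> simp [csh]
      have e3 : csh (0, 0, k) (1, 0) = (1, 0) := by
        refine Prod.ext ?_ ?_ <;> simp [csh]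
      rw [e1, e2, e3] at h1
      exact h1
    have hA : LK.shift (0, 0, k) (ring (cU 0 ++ l)) = ring (cU k ++ l.map (· + (0, 0, k))) := by
      rw [← ring_map, List.map_append]
      congr 2
      simp [cU, add_comm]
    rw [hA]
    refine ⟨isLow_ring hl', ?_⟩
    rw [glue_caps hr hLM, hM1, ← hb.ring_rotate hr (lower_cL k), glue_caps (hb.upper hr) hl',
      hb.ring_rotate hr hl', hgl']

/-- **Unknotted middle parts are interchangeable** (at the columns `(0, 0)` and `(1, 0)`). -/
theorem v0mid (hs : UC (1, 0) s) (he : ed (1, 0) s = (1, 0)) (ha : ash s = 0) (hn : s ≠ [])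
    (hs' : UC (1, 0) s') (he' : ed (1, 0) s' = (1, 0)) (ha' : ash s' = 0) (hn' : s' ≠ [])
    (hr : Upper 0 0 (1, 0) r) (hl : Lower 0 0 (1, 0) l) :
    SameType (ring (r ++ gl (1, 0) l s)) (ring (r ++ gl (1, 0) l s')) := by
  obtain ⟨M, k, hM, hU, hE, hD⟩ := chain_data hs he ha hn
  obtain ⟨M', k', hM', hU', hE', hD'⟩ := chain_data hs' he' ha' hn'
  obtain ⟨h1, h2⟩ := hD r l hr hl
  obtain ⟨-, h3⟩ := hD' r l hr hl
  have h4 := middleStatement slideStatement turnStatement _ _ M M' k k' 0 h1 hM hM'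
    (isUpp_ring hr) hU hU' ⟨fun _ => hE', fun _ => hE⟩
  rw [h2, shift_shift] at h4
  have e1 : ((0, 0, k' - k) : P3) + (0, 0, k) = (0, 0, k') := by
    refine Prod.ext ?_ (Prod.ext ?_ ?_) <;> simp
  rw [e1, h3] at h4
  exact h4

end Pool.Agent.KTop
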