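import Pool.Agent.KTop.Loop
import Pool.Agent.KTop.V0

/-! KT6: unknotted chains with the same ends are interchangeable. -/

set_option autoImplicit false

open Pool.Agent.LK

namespace Pool.Agent.KTop

open Pool.Agent.KTube Pool.Agent.KRing Pool.Agent.KLog
open Pool.Agent.KAmp (gl)

variable {v : ℤ × ℤ} {l : List P3} {s s' : List PP}

/-- A chain with the same context, whose middle part is a loop at `(1, 0)` that does not move the
first strand. -/
private theorem mid_aux {v' : ℤ × ℤ} {τ τ' κ κ' : List PP} (hs : UC v s) (he : ed v s = v')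
    (hl : Lower 0 0 v l) (hτ : UC v τ) (hτe : ed v τ = (1, 0)) (hτ' : UC (1, 0) τ')
    (hτe' : ed (1, 0) τ' = v) (hττ : ∀ l, Lower 0 0 v l → Rel v l (gl v l (τ ++ τ')))
    (hκ : UC v' κ) (hκe : ed v' κ = (1, 0)) (hκ' : UC (1, 0) κ') (hκe' : ed (1, 0) κ' = v')
    (hκκ : ∀ l, Lower 0 0 v' l → Rel v' l (gl v' l (κ ++ κ'))) :
    ∃ m : List PP, UC (1, 0) m ∧ ed (1, 0) m = (1, 0) ∧ ash m = 0 ∧ m ≠ [] ∧
      Rel v' (gl v l s) (gl (1, 0) (gl (1, 0) (gl v l τ) m) κ') := by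
  obtain ⟨S, hS, hSe, hSa, hSr⟩ := exists_shift (-(ash (τ' ++ s ++ κ)))
  have h10 : ((1 : ℤ), (0 : ℤ)) ≠ 0 := by simp
  have hnil : dsp ([], []) = 0 := by simp [dsp]
  have hmU : UC (1, 0) (τ' ++ s ++ κ) := by
    rw [uc_append, uc_append, ed_append, hτe', he]
    exact ⟨⟨hτ', hs⟩, hκ⟩
  have hmE : ed (1, 0) (τ' ++ s ++ κ) = (1, 0) := by
    rw [ed_append, ed_append, hτe', he, hκe]
  have hmU' : UC (1, 0) (τ' ++ s ++ κ ++ S) := by
    rw [uc_append, hmE]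
    exact ⟨hmU, hS⟩
  have hmE' : ed (1, 0) (τ' ++ s ++ κ ++ S) = (1, 0) := by
    rw [ed_append, hmE, hSe]
  have hnilU : UC (1, 0) [(([] : List P3), ([] : List P3))] := by
    refine ⟨valid_nil.2 h10, ?_⟩
    rw [hnil, add_zero]
    exact h10
  have hnilE : ed (1, 0) [(([] : List P3), ([] : List P3))] = (1, 0) := by
    rw [ed_cons, ed_nil, hnil, add_zero]
  refine ⟨τ' ++ s ++ κ ++ S ++ [([], [])], ?_, ?_, ?_, by simp, ?_⟩
  · rw [uc_append, hmE']
    exact ⟨hmU', hnilU⟩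
  · rw [ed_append, hmE', hnilE]
  · have h0 : ash [(([] : List P3), ([] : List P3))] = 0 := by simp [ash, hz]
    rw [ash_append, ash_append, hSa, h0]
    simp
  -- the relations
  have hlτ : Lower 0 0 (1, 0) (gl v l τ) := by
    have := lower_gl hτ.gc hl
    rwa [hτe] at this
  -- step 1
  have e1 : Rel v' (gl v l s) (gl v (gl v l (τ ++ τ')) s) := by
    have := (hττ l hl).gl hs.gc
    rwa [he] at this
  have g1 : gl v (gl v l (τ ++ τ')) s = gl (1, 0) (gl v l τ) (τ' ++ s) := by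
    rw [gl_append v l τ τ', hτe, gl_append (1, 0) (gl v l τ) τ' s, hτe']
  rw [g1] at e1
  -- step 2
  have e2 := hκκ _ e1.right
  have g2 : gl v' (gl (1, 0) (gl v l τ) (τ' ++ s)) (κ ++ κ') =
      gl (1, 0) (gl (1, 0) (gl v l τ) (τ' ++ s ++ κ)) κ' := by
    rw [gl_append v' _ κ κ', hκe, gl_append (1, 0) (gl v l τ) (τ' ++ s) κ, ed_append, hτe', he]
  rw [g2] at e2
  -- step 3
  have hl2 : Lower 0 0 (1, 0) (gl (1, 0) (gl v l τ) (τ' ++ s ++ κ)) := by
    have := lower_gl hmU.gc hlτ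
    rwa [hmE] at this
  have e3 := hSr _ hl2
  have g3 : gl (1, 0) (gl (1, 0) (gl v l τ) (τ' ++ s ++ κ)) S =
      gl (1, 0) (gl v l τ) (τ' ++ s ++ κ ++ S) := by
    rw [gl_append (1, 0) (gl v l τ) (τ' ++ s ++ κ) S, hmE]
  rw [g3] at e3
  -- step 4
  have e4 : Rel (1, 0) (gl (1, 0) (gl v l τ) (τ' ++ s ++ κ ++ S))
      (gl (1, 0) (gl v l τ) (τ' ++ s ++ κ ++ S ++ [([], [])])) := by
    have h := rel_nil h10 e3.right
    have g4 : gl (1, 0) (gl v l τ) (τ' ++ s ++ κ ++ S ++ [([], [])]) =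
        glu (1, 0) (gl (1, 0) (gl v l τ) (τ' ++ s ++ κ ++ S)) ([], []) := by
      rw [gl_append (1, 0) (gl v l τ) (τ' ++ s ++ κ ++ S) [([], [])], hmE']
      rfl
    rw [g4]
    exact h
  have e5 := (e3.trans e4).gl hκ'.gc
  rw [hκe'] at e5
  exact (e1.trans e2).trans e5

/-- **Unknotted chains with the same ends are interchangeable**, whatever is below and above. -/
theorem mid (hs : UC v s) (hs' : UC v s') (h : ed v s = ed v s') (hl : Lower 0 0 v l) :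
    Rel (ed v s) (gl v l s) (gl v l s') := by
  have h10 : ((1 : ℤ), (0 : ℤ)) ≠ 0 := by simp
  obtain ⟨τ, τ', hτ, hτe, hτ', hτe', hττ, -⟩ := exists_loop hs.gc.ne h10
  obtain ⟨κ, κ', hκ, hκe, hκ', hκe', hκκ, -⟩ := exists_loop hs.gc.ed_ne h10
  obtain ⟨m, hm, hme, hma, hmn, hR⟩ :=
    mid_aux hs rfl hl hτ hτe hτ' hτe' hττ hκ hκe hκ' hκe' hκκ
  obtain ⟨m', hm', hme', hma', hmn', hR'⟩ :=
    mid_aux hs' h.symm hl hτ hτe hτ' hτe' hττ hκ hκe hκ' hκe' hκκ
  have hlτ : Lower 0 0 (1, 0) (gl v l τ) := by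
    have := lower_gl hτ.gc hl
    rwa [hτe] at this
  refine ⟨hR.left, hR'.left, fun r hr => ?_⟩
  have hr' : Upper 0 0 (ed (1, 0) κ') r := by rwa [hκe']
  obtain ⟨r', t, hr2, hpull, -⟩ := pull hκ'.gc hr'
  have hL : Lower 0 0 (1, 0) (gl (1, 0) (gl v l τ) m) := by
    have := lower_gl hm.gc hlτ
    rwa [hme] at this
  have hL' : Lower 0 0 (1, 0) (gl (1, 0) (gl v l τ) m') := by
    have := lower_gl hm'.gc hlτ
    rwa [hme'] at this
  have k0 := v0mid hm hme hma hmn hm' hme' hma' hmn' hr2 hlτ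
  have k1 := hR.same r hr
  have k2 := hR'.same r hr
  rw [hpull _ hL] at k1
  rw [hpull _ hL'] at k2
  exact k1.trans ((sameType_shift t _).symm.trans (k0.trans ((sameType_shift t _).trans k2.symm)))

end Pool.Agent.KTop
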