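import Pool.Agent.KTop.Conf
import Pool.Agent.KTop.Mid

/-! KT10: a block far from the origin can be moved. -/

set_option autoImplicit false

open Pool.Agent.LK

namespace Pool.Agent.KTop

open Pool.Agent.KTube Pool.Agent.KRing Pool.Agent.KLog
open Pool.Agent.KAmp (gl)

variable {v v' : ℤ × ℤ} {l : List P3} {π : PP} {s s' : List PP}

/-! ### The rotation by a quarter turn (copied from `KLog/Rot`) -/

private def ri3 (u : P3) : P3 := (u.2.1, -u.1, u.2.2)

private theorem ri3_rt3 (u : P3) : ri3 (rt3 u) = u := by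
  refine Prod.ext rfl (Prod.ext ?_ rfl)
  simp [ri3, rt3]

private theorem rt3_inj : Function.Injective rt3 := fun u w h => by
  have := congrArg ri3 h
  rwa [ri3_rt3, ri3_rt3] at this

private theorem frame_rt : Frame (0, 1, 0) (-1, 0, 0) (0, 0, 1) :=
  ⟨by simp [dot3], by simp [dot3], by simp [dot3], by simp [dot3], by simp [dot3], by simp [dot3]⟩

private theorem rt3_eq : rt3 = latIso (0, 0, 0) (0, 1, 0) (-1, 0, 0) (0, 0, 1) := by
  funext u
  refine Prod.ext ?_ (Prod.ext ?_ ?_) <;> simp [latIso, rt3]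

private theorem rt3_add (u w : P3) : rt3 (u + w) = rt3 u + rt3 w := by
  refine Prod.ext ?_ (Prod.ext ?_ ?_)
  · simp only [rt3, Prod.fst_add, Prod.snd_add]; ring
  · simp only [rt3, Prod.fst_add, Prod.snd_add]
  · simp only [rt3, Prod.snd_add]

private theorem rt3_zero : rt3 0 = 0 := by
  refine Prod.ext ?_ (Prod.ext ?_ ?_) <;> simp [rt3]

private theorem sum_rt3 (s : List P3) : (s.map rt3).sum = rt3 s.sum := by
  induction s with
  | nil => simp [rt3_zero]
  | cons d s ih => rw [List.map_cons, List.sum_cons, List.sum_cons, ih, rt3_add]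

private theorem wk_rt3 (p : P3) (s : List P3) : (wk p s).map rt3 = wk (rt3 p) (s.map rt3) := by
  induction s generalizing p with
  | nil => rfl
  | cons d s ih =>
    rw [wk_cons, List.map_cons, List.map_cons, wk_cons, ih, rt3_add]

private theorem rt_inj : Function.Injective rt := fun u w h => by
  have h1 := congrArg Prod.fst h
  have h2 := congrArg Prod.snd h
  simp only [rt] at h1 h2
  exact Prod.ext h2 (by omega)

private theorem rt_add (a b : ℤ × ℤ) : rt (a + b) = rt a + rt b := by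
  refine Prod.ext ?_ rfl
  simp only [rt, Prod.fst_add, Prod.snd_add]; ring

private theorem rt_zero : rt 0 = 0 := by
  refine Prod.ext ?_ rfl
  simp [rt]

private theorem adj_rt3 {u w : P3} (h : Adj u w) : Adj (rt3 u) (rt3 w) := by
  rw [rt3_eq]
  exact (latIso_adj frame_rt _ u w).2 h

private theorem sameType_rot (E : Finset (Sym2 P3)) : SameType E (mapE rt3 E) := by
  rw [rt3_eq]
  obtain ⟨G, -, hG, hseg⟩ := exists_latHomeo frame_rt (0, 0, 0)
  exact ⟨G, (body_mapE G _ hG hseg E).symm⟩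

private theorem ring_rot (c : List P3) : ring (c.map rt3) = mapE rt3 (ring c) := by
  unfold ring
  rw [← pedges_map, List.map_append, List.getLast?_map]
  congr 2
  cases c.getLast? <;> rfl

private theorem chain_rot {l : List P3} (h : l.IsChain Adj) : (l.map rt3).IsChain Adj := by
  rw [List.isChain_map]
  exact h.imp fun u w huw => adj_rt3 huw

private theorem head_rot {l : List P3} {c : ℤ × ℤ} {j : ℤ} (h : l.head? = some (c.1, c.2, j)) :
    (l.map rt3).head? = some ((rt c).1, (rt c).2, j) := by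
  rw [List.head?_map, h]
  rfl

private theorem last_rot {l : List P3} {c : ℤ × ℤ} {j : ℤ}
    (h : l.getLast? = some (c.1, c.2, j)) :
    (l.map rt3).getLast? = some ((rt c).1, (rt c).2, j) := by
  rw [List.getLast?_map, h]
  rfl

private theorem upper_rot {k : ℤ} {a b : ℤ × ℤ} {r : List P3} (h : Upper k a b r) :
    Upper k (rt a) (rt b) (r.map rt3) := by
  refine ⟨h.nodup.map rt3_inj, chain_rot h.chain, head_rot h.head, last_rot h.last, ?_⟩
  intro u hu
  obtain ⟨w, hw, rfl⟩ := List.mem_map.1 hu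
  exact h.lev w hw

private theorem lower_rot {k : ℤ} {a b : ℤ × ℤ} {l : List P3} (h : Lower k a b l) :
    Lower k (rt a) (rt b) (l.map rt3) := by
  refine ⟨h.nodup.map rt3_inj, chain_rot h.chain, head_rot h.head, last_rot h.last, ?_⟩
  intro u hu
  obtain ⟨w, hw, rfl⟩ := List.mem_map.1 hu
  exact h.lev w hw

private theorem sdA_rot (π : PP) : sdA (rotP π) = (sdA π).map rt3 := by
  unfold sdA
  rw [wk_rt3]
  rfl

private theorem sdB_rot (v : ℤ × ℤ) (π : PP) : sdB (rt v) (rotP π) = (sdB v π).map rt3 := by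
  unfold sdB
  rw [List.map_reverse, wk_rt3]
  rfl

private theorem hgt_rot (π : PP) :
    Pool.Agent.KLog.hgt (rotP π) = Pool.Agent.KLog.hgt π := by
  unfold Pool.Agent.KLog.hgt rotP
  rw [sum_rt3]
  rfl

private theorem glu_rot (v : ℤ × ℤ) (l : List P3) (π : PP) :
    (glu v l π).map rt3 = glu (rt v) (l.map rt3) (rotP π) := by
  unfold glu
  rw [sdA_rot, sdB_rot, hgt_rot, ← List.map_append, ← List.map_append, List.map_map, List.map_map]
  refine List.map_congr_left fun u _ => ?_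
  have e : (rotP π).1.sum = rt3 π.1.sum := sum_rt3 _
  simp only [Function.comp_apply, rt3_add, e]
  rfl

private theorem gl_rot (v : ℤ × ℤ) (l : List P3) (s : List PP) :
    (gl v l s).map rt3 = gl (rt v) (l.map rt3) (s.map rotP) := by
  induction s generalizing v l with
  | nil => rfl
  | cons π s ih =>
    have h1 : gl v l (π :: s) = gl (v + dsp π) (glu v l π) s := rfl
    have h2 : gl (rt v) (l.map rt3) ((π :: s).map rotP) =
      gl (rt v + dsp (rotP π)) (glu (rt v) (l.map rt3) (rotP π)) (s.map rotP) := rfl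
    rw [h1, h2, ih, glu_rot, rt_add, dsp_rotP]

private theorem uc_rot {v : ℤ × ℤ} {s : List PP} (h : UC v s) : UC (rt v) (s.map rotP) := by
  induction s generalizing v with
  | nil =>
    intro h1
    rw [← rt_zero] at h1
    exact h (rt_inj h1)
  | cons π s ih =>
    refine ⟨valid_rotP h.1, ?_⟩
    have h1 := ih h.2
    rwa [rt_add, ← dsp_rotP] at h1

private theorem ed_rot (v : ℤ × ℤ) (s : List PP) : ed (rt v) (s.map rotP) = rt (ed v s) := by
  induction s generalizing v with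
  | nil => rw [ed_nil, List.map_nil, ed_nil]
  | cons π s ih => rw [List.map_cons, ed_cons, ed_cons, dsp_rotP, ← rt_add, ih]

private theorem rel_unrot {v : ℤ × ℤ} {l l' : List P3} (hl : Lower 0 0 v l)
    (hl' : Lower 0 0 v l') (h : Rel (rt v) (l.map rt3) (l'.map rt3)) : Rel v l l' := by
  refine ⟨hl, hl', fun r hr => ?_⟩
  have h1 := upper_rot hr
  rw [rt_zero] at h1
  have h2 := h.same _ h1
  rw [← List.map_append, ← List.map_append, ring_rot, ring_rot] at h2
  exact ((sameType_rot _).trans h2).trans (sameType_rot _).symm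

/-! ### Steps in the two horizontal directions (copied from `KLog/Far`) -/

private def yst (s : List P3) : ℕ := s.countP fun d => d.2.1 ≠ 0

private theorem far_stp {s : List P3} (h : Steps s) : stp (lets s) = xst s + yst s := by
  induction s with
  | nil => rfl
  | cons d s ih =>
    obtain ⟨hd, hs⟩ := h.cons
    have ih := ih hs
    unfold stp xst yst at ih ⊢
    rw [lets_cons, List.countP_cons, List.countP_cons, List.countP_cons, ih]
    rcases step_cases hd with rfl | rfl | rfl | rfl | rfl | rfl <;>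
      simp [hlet] <;> omega

private theorem far_xst_rt3 (s : List P3) : xst (s.map rt3) = yst s := by
  unfold xst yst
  rw [List.countP_map]
  congr 1
  funext d
  simp [rt3]

private theorem far_yst_rt3 (s : List P3) : yst (s.map rt3) = xst s := by
  unfold xst yst
  rw [List.countP_map]
  rfl

private def XX (π : PP) : ℕ := xst π.1 + xst π.2

private def YY (π : PP) : ℕ := yst π.1 + yst π.2

private theorem far_XX (π : PP) : XX (rotP π) = YY π := by
  simp only [XX, YY, rotP, far_xst_rt3]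

private theorem far_YY (π : PP) : YY (rotP π) = XX π := by
  simp only [XX, YY, rotP, far_yst_rt3]

private theorem far_nh (hA : Steps π.1) (hB : Steps π.2) : nh π = XX π + YY π := by
  unfold nh XX YY
  rw [far_stp hA, far_stp hB]
  omega

/-! ### The relation -/

/-- The block can be moved from `v` to `v'`. -/
private def QQ (π : PP) (v v' : ℤ × ℤ) : Prop :=
  Geo v π ∧ Geo v' π ∧ ∀ (l : List P3) (s s' : List PP), Lower 0 0 v l → UC v s → ed v s = v' →
    UC (v' + dsp π) s' → ed (v' + dsp π) s' = v + dsp π →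
      Rel (v + dsp π) (glu v l π) (gl v l (s ++ π :: s'))

private theorem gl_mid (v : ℤ × ℤ) (l : List P3) (s t : List PP) (π : PP) :
    gl v l (s ++ π :: t) = gl (ed v s + dsp π) (glu (ed v s) (gl v l s) π) t := by
  rw [gl_append]
  rfl

private theorem add_dsp_ne (hg : Geo v π) : v + dsp π ≠ 0 := by
  intro h
  apply hg.ne'
  unfold dsp at h
  have h1 := congrArg Prod.fst h
  have h2 := congrArg Prod.snd h
  simp only [Prod.fst_add, Prod.snd_add, Prod.fst_sub, Prod.snd_sub, Prod.fst_zero,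
    Prod.snd_zero] at h1 h2
  refine Prod.ext ?_ ?_
  · simp only [Prod.fst_add]
    omega
  · simp only [Prod.snd_add]
    omega

private theorem rep {w : ℤ × ℤ} {s₁ s₂ t₁ t₂ : List PP} (hg : Geo v' π) (hl : Lower 0 0 v l)
    (h1 : UC v s₁) (e1 : ed v s₁ = v') (h2 : UC v s₂) (e2 : ed v s₂ = v')
    (k1 : UC (v' + dsp π) t₁) (k2 : UC (v' + dsp π) t₂) (f1 : ed (v' + dsp π) t₁ = w)
    (f2 : ed (v' + dsp π) t₂ = w) : Rel w (gl v l (s₁ ++ π :: t₁)) (gl v l (s₂ ++ π :: t₂)) := by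
  have a := mid h1 h2 (e1.trans e2.symm) hl
  rw [e1] at a
  have b := a.glu hg
  have c := b.gl k1.gc
  have d := mid k1 k2 (f1.trans f2.symm) b.right
  rw [f1] at c d
  rw [gl_mid, gl_mid, e1, e2]
  exact c.trans d

private theorem exists_chain {a b : ℤ × ℤ} (ha : a ≠ 0) (hb : b ≠ 0) :
    ∃ s, UC a s ∧ ed a s = b := by
  obtain ⟨s, -, h1, h2, -⟩ := exists_loop ha hb
  exact ⟨s, h1, h2⟩

private theorem QQ.refl (hg : Geo v π) : QQ π v v := by
  refine ⟨hg, hg, fun l s s' hl hs hse hs' hse' => ?_⟩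
  have h0 : UC v [] := hg.ne
  have h0' : UC (v + dsp π) [] := add_dsp_ne hg
  exact rep (s₁ := []) (t₁ := []) hg hl h0 (ed_nil v) hs hse h0' hs' (ed_nil _) hse'

private theorem QQ.trans {a b c : ℤ × ℤ} (h : QQ π a b) (h' : QQ π b c) : QQ π a c := by
  obtain ⟨ga, gb, h⟩ := h
  obtain ⟨-, gc, h'⟩ := h'
  refine ⟨ga, gc, fun l s s' hl hs hse hs' hse' => ?_⟩
  obtain ⟨α, hα, eα⟩ := exists_chain ga.ne gb.ne
  obtain ⟨α', hα', eα'⟩ := exists_chain (add_dsp_ne gb) (add_dsp_ne ga)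
  obtain ⟨β, hβ, eβ⟩ := exists_chain gb.ne gc.ne
  obtain ⟨β', hβ', eβ'⟩ := exists_chain (add_dsp_ne gc) (add_dsp_ne gb)
  have h1 := h l α α' hl hα eα hα' eα'
  have hl1 : Lower 0 0 b (gl a l α) := by
    have := lower_gl hα.gc hl
    rwa [eα] at this
  have h2 := (h' (gl a l α) β β' hl1 hβ eβ hβ' eβ').gl hα'.gc
  rw [eα'] at h2
  have e1 : gl a l (α ++ π :: α') = gl (b + dsp π) (glu b (gl a l α) π) α' := by
    rw [gl_mid, eα]
  have e2 : gl a l ((α ++ β) ++ π :: (β' ++ α')) =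
      gl (b + dsp π) (gl b (gl a l α) (β ++ π :: β')) α' := by
    have e3 : (α ++ β) ++ π :: (β' ++ α') = α ++ ((β ++ π :: β') ++ α') := by simp
    have e4 : ed b (β ++ π :: β') = b + dsp π := by
      rw [ed_append, ed_cons, eβ, eβ']
    rw [e3, gl_append, eα, gl_append, e4]
  rw [← e1, ← e2] at h2
  refine (h1.trans h2).trans (rep gc hl ?_ ?_ hs hse ?_ hs' ?_ hse')
  · exact uc_append.2 ⟨hα, by rw [eα]; exact hβ⟩
  · rw [ed_append, eα, eβ]
  · exact uc_append.2 ⟨hβ', by rw [eβ']; exact hα'⟩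
  · rw [ed_append, eβ', eα']

private theorem QQ.symm {a b : ℤ × ℤ} (h : QQ π a b) : QQ π b a := by
  obtain ⟨ga, gb, h⟩ := h
  refine ⟨gb, ga, fun l s s' hl hs hse hs' hse' => ?_⟩
  obtain ⟨σ, σ', hσ, eσ, hσ', eσ', hloop, -⟩ := exists_loop gb.ne ga.ne
  obtain ⟨τ, τ', hτ, eτ, hτ', eτ', hloop', -⟩ := exists_loop (add_dsp_ne gb) (add_dsp_ne ga)
  have hl1 : Lower 0 0 a (gl b l σ) := by
    have := lower_gl hσ.gc hl
    rwa [eσ] at this
  have h1 := (h (gl b l σ) σ' τ hl1 hσ' eσ' hτ eτ).gl hτ'.gc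
  rw [eτ'] at h1
  have h2 := hloop l hl
  have e1 : gl b l (σ ++ σ') = gl a (gl b l σ) σ' := by rw [gl_append, eσ]
  rw [e1] at h2
  have h3 := h2.glu gb
  have h4 := (h3.symm.gl hτ.gc).gl (s := τ') (by rw [eτ]; exact hτ'.gc)
  rw [eτ, eτ'] at h4
  have e2 : gl a (gl b l σ) (σ' ++ π :: τ) =
      gl (b + dsp π) (glu b (gl a (gl b l σ) σ') π) τ := by rw [gl_mid, eσ']
  rw [e2] at h1
  have h5 := hloop' (glu b l π) (lower_glu gb hl)
  have e3 : gl (b + dsp π) (glu b l π) (τ ++ τ') =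
      gl (a + dsp π) (gl (b + dsp π) (glu b l π) τ) τ' := by rw [gl_append, eτ]
  rw [e3] at h5
  have h6 := (h5.trans h4.symm).trans h1.symm
  have e4 : gl b l (σ ++ π :: τ') = gl (a + dsp π) (glu a (gl b l σ) π) τ' := by
    rw [gl_mid, eσ]
  rw [← e4] at h6
  exact h6.trans (rep ga hl hσ eσ hs hse hτ' hs' eτ' hse')

/-- One step of the second strand. -/
private theorem QQ.step {ε : ℤ} (hg : Geo v π) (hg' : Geo (v + (1, ε)) π)
    (h : (XX π : ℤ) < v.1) (hε : ε = 0 ∨ ε = 1 ∨ ε = -1) : QQ π v (v + (1, ε)) := by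
  refine ⟨hg, hg', fun l s s' hl hs hse hs' hse' => ?_⟩
  have hL2 : Lower 0 0 (v + dsp π) (gl v l (s ++ π :: s')) := by
    have h1 := lower_gl hs.gc hl
    rw [hse] at h1
    have h2 := lower_gl hs'.gc (lower_glu hg' h1)
    rw [hse'] at h2
    rw [gl_mid, hse]
    exact h2
  refine ⟨lower_glu hg hl, hL2, fun r hr => ?_⟩
  obtain ⟨N, N', M, M', hN, eN, hN', eN', hM, eM, hM', eM', hS⟩ := conf_x hg h hε hl hr
  have h0 : UC v [] := hg.ne
  have h0' : UC (v + dsp π) [] := add_dsp_ne hg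
  have h1 := (rep (s₁ := []) (t₁ := []) hg hl h0 (ed_nil v) hN eN h0' hN' (ed_nil _) eN').same r hr
  have h2 := (rep hg' hl hM eM hs hse hM' hs' eM' hse').same r hr
  exact (h1.trans hS).trans h2

/-! ### The sectors -/

private theorem nrm_ge_fst (w : ℤ × ℤ) : w.1.natAbs ≤ nrm w := Nat.le_add_right _ _

/-- the first sector: to the right -/
private theorem right {u : ℤ × ℤ} (hgeo : ∀ w : ℤ × ℤ, nh π < nrm w → Geo w π)
    (hu : nh π < nrm u) (h : (XX π : ℤ) < u.1) (n : ℕ) : QQ π u (u + ((n : ℤ), 0)) := by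
  have hX0 : (0 : ℤ) ≤ XX π := Int.natCast_nonneg _
  induction n with
  | zero =>
    have e : u + (((0 : ℕ) : ℤ), (0 : ℤ)) = u := Prod.ext (by simp) (by simp)
    rw [e]
    exact QQ.refl (hgeo u hu)
  | succ n ih =>
    have e : u + (((n + 1 : ℕ) : ℤ), (0 : ℤ)) = u + ((n : ℤ), 0) + (1, 0) := by
      refine Prod.ext ?_ (by simp)
      simp only [Prod.fst_add]
      push_cast
      ring
    rw [e]
    refine ih.trans (QQ.step ih.2.1 (hgeo _ ?_) ?_ (Or.inl rfl))
    · unfold nrm at hu ⊢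
      simp only [Prod.fst_add, Prod.snd_add]
      omega
    · simp only [Prod.fst_add]
      omega

/-- far to the right: up -/
private theorem up {u : ℤ × ℤ} (hgeo : ∀ w : ℤ × ℤ, nh π < nrm w → Geo w π)
    (h : (XX π : ℤ) < u.1) (h' : (nh π : ℤ) < u.1) (n : ℕ) : QQ π u (u + (0, (n : ℤ))) := by
  have hX0 : (0 : ℤ) ≤ nh π := Int.natCast_nonneg _
  have hfar : ∀ w : ℤ × ℤ, (nh π : ℤ) < w.1 → nh π < nrm w := by
    intro w hw
    have := nrm_ge_fst w
    omega
  induction n with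
  | zero =>
    have e : u + ((0 : ℤ), ((0 : ℕ) : ℤ)) = u := Prod.ext (by simp) (by simp)
    rw [e]
    exact QQ.refl (hgeo u (hfar u h'))
  | succ n ih =>
    have e1 : (u + (0, (n : ℤ))).1 = u.1 := by simp
    have g1 : Geo (u + (0, (n : ℤ)) + (1, 1)) π := hgeo _ (hfar _ (by
      rw [Prod.fst_add, e1]
      change (nh π : ℤ) < u.1 + 1
      omega))
    have s1 := QQ.step (ε := 1) ih.2.1 g1 (by rw [e1]; exact h) (Or.inr (Or.inl rfl))
    have e2 : (u + (0, ((n + 1 : ℕ) : ℤ))).1 = u.1 := by simp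
    have g2 : Geo (u + (0, ((n + 1 : ℕ) : ℤ))) π := hgeo _ (hfar _ (by rw [e2]; exact h'))
    have e3 : u + (0, ((n + 1 : ℕ) : ℤ)) + (1, 0) = u + (0, (n : ℤ)) + (1, 1) := by
      refine Prod.ext (by simp) ?_
      simp only [Prod.snd_add]
      push_cast
      ring
    have s2 := QQ.step (ε := 0) g2 (by rw [e3]; exact g1) (by rw [e2]; exact h) (Or.inl rfl)
    rw [e3] at s2
    exact (ih.trans s1).trans s2.symm

private theorem sec0 {a b : ℤ × ℤ} (hgeo : ∀ w : ℤ × ℤ, nh π < nrm w → Geo w π)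
    (ha : nh π < nrm a) (hb : nh π < nrm b) (hXa : (XX π : ℤ) < a.1) (hXb : (XX π : ℤ) < b.1) :
    QQ π a b := by
  wlog hab : a.2 ≤ b.2 generalizing a b
  · exact (this hb ha hXb hXa (by omega)).symm
  obtain ⟨W, hW⟩ : ∃ W : ℕ, (nh π : ℤ) < W ∧ a.1 ≤ W ∧ b.1 ≤ W ∧ (XX π : ℤ) < W :=
    ⟨nh π + 1 + a.1.natAbs + b.1.natAbs + XX π, by omega, by omega, by omega, by omega⟩
  obtain ⟨hW1, hW2, hW3, hW4⟩ := hW
  have h1 := right hgeo ha hXa (W - a.1).toNat
  have h2 := right hgeo hb hXb (W - b.1).toNat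
  have e1 : a + (((W - a.1).toNat : ℤ), 0) = ((W : ℤ), a.2) := by
    refine Prod.ext ?_ (by simp)
    simp only [Prod.fst_add]
    rw [Int.toNat_of_nonneg (by omega)]
    ring
  have e2 : b + (((W - b.1).toNat : ℤ), 0) = ((W : ℤ), b.2) := by
    refine Prod.ext ?_ (by simp)
    simp only [Prod.fst_add]
    rw [Int.toNat_of_nonneg (by omega)]
    ring
  rw [e1] at h1
  rw [e2] at h2
  have h3 := up (u := ((W : ℤ), a.2)) hgeo hW4 hW1 (b.2 - a.2).toNat
  have e3 : (((W : ℤ), a.2) : ℤ × ℤ) + (0, ((b.2 - a.2).toNat : ℤ)) = ((W : ℤ), b.2) := by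
    refine Prod.ext (by simp) ?_
    simp only [Prod.snd_add]
    rw [Int.toNat_of_nonneg (by omega)]
    ring
  rw [e3] at h3
  exact (h1.trans h3).trans h2.symm

/-- The relation can be checked after a rotation. -/
private theorem unrot {a b : ℤ × ℤ} (ha : Geo a π) (hb : Geo b π)
    (h : QQ (rotP π) (rt a) (rt b)) : QQ π a b := by
  obtain ⟨-, -, h⟩ := h
  refine ⟨ha, hb, fun l s s' hl hs hse hs' hse' => ?_⟩
  have hL2 : Lower 0 0 (a + dsp π) (gl a l (s ++ π :: s')) := by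
    have h1 := lower_gl hs.gc hl
    rw [hse] at h1
    have h2 := lower_gl hs'.gc (lower_glu hb h1)
    rw [hse'] at h2
    rw [gl_mid, hse]
    exact h2
  have hlr := lower_rot hl
  rw [rt_zero] at hlr
  have h1 := h (l.map rt3) (s.map rotP) (s'.map rotP) hlr (uc_rot hs) (by rw [ed_rot, hse])
    (by rw [dsp_rotP, ← rt_add]; exact uc_rot hs')
    (by rw [dsp_rotP, ← rt_add, ed_rot, hse', rt_add])
  rw [dsp_rotP, ← rt_add, ← glu_rot] at h1
  have e : s.map rotP ++ rotP π :: s'.map rotP = (s ++ π :: s').map rotP := by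
    rw [List.map_append, List.map_cons]
  rw [e, ← gl_rot] at h1
  exact rel_unrot (lower_glu ha hl) hL2 h1

private theorem geo_rot' (hgeo : ∀ w : ℤ × ℤ, nh π < nrm w → Geo w π) (hA : Steps π.1)
    (hB : Steps π.2) (w : ℤ × ℤ) (hw : nh (rotP π) < nrm w) : Geo w (rotP π) := by
  rw [nh_rotP hA hB] at hw
  have e : w = rt (w.2, -w.1) := by
    refine Prod.ext ?_ rfl
    simp [rt]
  rw [e] at hw ⊢
  rw [nrm_rt] at hw
  exact geo_rotP (hgeo _ hw)

private theorem sec3 {a b : ℤ × ℤ} (hgeo : ∀ w : ℤ × ℤ, nh π < nrm w → Geo w π)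
    (ha : nh π < nrm a) (hb : nh π < nrm b) (hXa : (YY π : ℤ) < -a.2)
    (hXb : (YY π : ℤ) < -b.2) : QQ π a b := by
  have gA := (hgeo a ha).stA
  have gB := (hgeo a ha).stB
  refine unrot (hgeo a ha) (hgeo b hb) (sec0 (geo_rot' hgeo gA gB) ?_ ?_ ?_ ?_)
  · rw [nh_rotP gA gB, nrm_rt]
    exact ha
  · rw [nh_rotP gA gB, nrm_rt]
    exact hb
  · rw [far_XX]
    exact hXa
  · rw [far_XX]
    exact hXb

private theorem sec2 {a b : ℤ × ℤ} (hgeo : ∀ w : ℤ × ℤ, nh π < nrm w → Geo w π)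
    (ha : nh π < nrm a) (hb : nh π < nrm b) (hXa : (XX π : ℤ) < -a.1)
    (hXb : (XX π : ℤ) < -b.1) : QQ π a b := by
  have gA := (hgeo a ha).stA
  have gB := (hgeo a ha).stB
  refine unrot (hgeo a ha) (hgeo b hb) (sec3 (geo_rot' hgeo gA gB) ?_ ?_ ?_ ?_)
  · rw [nh_rotP gA gB, nrm_rt]
    exact ha
  · rw [nh_rotP gA gB, nrm_rt]
    exact hb
  · rw [far_YY]
    exact hXa
  · rw [far_YY]
    exact hXb

private theorem sec1 {a b : ℤ × ℤ} (hgeo : ∀ w : ℤ × ℤ, nh π < nrm w → Geo w π)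
    (ha : nh π < nrm a) (hb : nh π < nrm b) (hXa : (YY π : ℤ) < a.2)
    (hXb : (YY π : ℤ) < b.2) : QQ π a b := by
  have gA := (hgeo a ha).stA
  have gB := (hgeo a ha).stB
  refine unrot (hgeo a ha) (hgeo b hb) (sec2 (geo_rot' hgeo gA gB) ?_ ?_ ?_ ?_)
  · rw [nh_rotP gA gB, nrm_rt]
    exact ha
  · rw [nh_rotP gA gB, nrm_rt]
    exact hb
  · rw [far_XX]
    change _ < -(-a.2)
    rw [neg_neg]
    exact hXa
  · rw [far_XX]
    change _ < -(-b.2)
    rw [neg_neg]
    exact hXb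

private theorem corner (hg : Geo v π) (hv : nh π < nrm v) (hv' : nh π < nrm v') : QQ π v v' := by
  have hn : nh π = XX π + YY π := far_nh hg.stA hg.stB
  have hgeo : ∀ w : ℤ × ℤ, nh π < nrm w → Geo w π := fun w hw => geo_far hg hv hw
  obtain ⟨X, hX⟩ : ∃ X : ℤ, X = XX π := ⟨_, rfl⟩
  obtain ⟨Y, hY⟩ : ∃ Y : ℤ, Y = YY π := ⟨_, rfl⟩
  have hX0 : 0 ≤ X := by rw [hX]; positivity
  have hY0 : 0 ≤ Y := by rw [hY]; positivity
  have hc : ∀ a b : ℤ, a.natAbs = XX π + 1 → b.natAbs = YY π + 1 → nh π < nrm (a, b) := by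
    intro a b ha hb
    unfold nrm
    change nh π < a.natAbs + b.natAbs
    omega
  have c0 : nh π < nrm (X + 1, Y + 1) := hc _ _ (by omega) (by omega)
  have c1 : nh π < nrm (-(X + 1), Y + 1) := hc _ _ (by omega) (by omega)
  have c3 : nh π < nrm (X + 1, -(Y + 1)) := hc _ _ (by omega) (by omega)
  have key : ∀ w : ℤ × ℤ, nh π < nrm w → QQ π w (X + 1, Y + 1) := by
    intro w hw
    have h0 : ((XX π : ℤ) < w.1 ∨ (YY π : ℤ) < w.2 ∨ (XX π : ℤ) < -w.1 ∨ (YY π : ℤ) < -w.2) := by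
      unfold nrm at hw
      omega
    rcases h0 with h1 | h1 | h1 | h1
    · exact sec0 hgeo hw c0 h1 (by change _ < X + 1; omega)
    · exact sec1 hgeo hw c0 h1 (by change _ < Y + 1; omega)
    · have h2 := sec2 hgeo hw c1 h1 (by change _ < -(-(X + 1)); omega)
      exact h2.trans (sec1 hgeo c1 c0 (by change _ < Y + 1; omega) (by change _ < Y + 1; omega))
    · have h2 := sec3 hgeo hw c3 h1 (by change _ < -(-(Y + 1)); omega)
      exact h2.trans (sec0 hgeo c3 c0 (by change _ < X + 1; omega) (by change _ < X + 1; omega))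
  exact (key v hv).trans (key v' hv').symm

/-- **A block far from the origin can be moved**, whatever is below and above. -/
theorem far (hg : Geo v π) (hv : nh π < nrm v) (hv' : nh π < nrm v')
    (hl : Lower 0 0 v l) (hs : UC v s) (hse : ed v s = v') (hs' : UC (v' + dsp π) s')
    (hse' : ed (v' + dsp π) s' = v + dsp π) :
    Rel (v + dsp π) (glu v l π) (gl v l (s ++ π :: s')) :=
  (corner hg hv hv').2.2 l s s' hl hs hse hs' hse'

end Pool.Agent.KTop
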