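import Pool.Agent.KTop.Slant

/-! KT2: the upper part of a polygon moved by a unit vector. -/

set_option autoImplicit false

open Pool.Agent.LK

namespace Pool.Agent.KTop

open Pool.Agent.KTube Pool.Agent.KRing
open Pool.Agent.LatticeTube (pedges mem_of_mem_pedges)

variable {k : ℤ} {a b : ℤ × ℤ} {r l : List P3}

/-! ### Segments -/

private theorem mem_slseg {p x : R3} : x ∈ segment ℝ p (p + (1, 0, 1)) ↔
    x.1 = p.1 + (x.2.2 - p.2.2) ∧ x.2.1 = p.2.1 ∧ p.2.2 ≤ x.2.2 ∧ x.2.2 ≤ p.2.2 + 1 := by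
  rw [segment_eq_image']
  constructor
  · rintro ⟨t, ⟨h0, h1⟩, rfl⟩
    rw [add_sub_cancel_left]
    simp only [Prod.smul_mk, smul_eq_mul, mul_one, mul_zero, Prod.fst_add, Prod.snd_add]
    refine ⟨by ring, by ring, by linarith, by linarith⟩
  · rintro ⟨h1, h2, h3, h4⟩
    refine ⟨x.2.2 - p.2.2, ⟨by linarith, by linarith⟩, ?_⟩
    rw [add_sub_cancel_left]
    refine Prod.ext ?_ (Prod.ext ?_ ?_)
    · simp only [Prod.smul_mk, smul_eq_mul, mul_one, mul_zero, Prod.fst_add]
      linarith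
    · simp only [Prod.smul_mk, smul_eq_mul, mul_one, mul_zero, Prod.fst_add, Prod.snd_add]
      linarith
    · simp only [Prod.smul_mk, smul_eq_mul, mul_one, mul_zero, Prod.snd_add]
      linarith

private theorem mem_hzseg {p x : R3} : x ∈ segment ℝ p (p + (1, 0, 0)) ↔
    x.2.2 = p.2.2 ∧ x.2.1 = p.2.1 ∧ p.1 ≤ x.1 ∧ x.1 ≤ p.1 + 1 := by
  rw [segment_eq_image']
  constructor
  · rintro ⟨t, ⟨h0, h1⟩, rfl⟩
    rw [add_sub_cancel_left]
    simp only [Prod.smul_mk, smul_eq_mul, mul_one, mul_zero, Prod.fst_add, Prod.snd_add]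
    refine ⟨by ring, by ring, by linarith, by linarith⟩
  · rintro ⟨h1, h2, h3, h4⟩
    refine ⟨x.1 - p.1, ⟨by linarith, by linarith⟩, ?_⟩
    rw [add_sub_cancel_left]
    refine Prod.ext ?_ (Prod.ext ?_ ?_)
    · simp only [Prod.smul_mk, smul_eq_mul, mul_one, mul_zero, Prod.fst_add]
      linarith
    · simp only [Prod.smul_mk, smul_eq_mul, mul_one, mul_zero, Prod.fst_add, Prod.snd_add]
      linarith
    · simp only [Prod.smul_mk, smul_eq_mul, mul_one, mul_zero, Prod.snd_add]
      linarith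

private theorem mem_vtseg {p x : R3} : x ∈ segment ℝ (p + (1, 0, 0)) (p + (1, 0, 1)) ↔
    x.1 = p.1 + 1 ∧ x.2.1 = p.2.1 ∧ p.2.2 ≤ x.2.2 ∧ x.2.2 ≤ p.2.2 + 1 := by
  have e : p + (1, 0, 1) - (p + (1, 0, 0)) = ((0, 0, 1) : R3) := by
    rw [add_sub_add_left_eq_sub]
    simp
  rw [segment_eq_image', e]
  constructor
  · rintro ⟨t, ⟨h0, h1⟩, rfl⟩
    simp only [Prod.smul_mk, smul_eq_mul, mul_one, mul_zero, Prod.fst_add, Prod.snd_add]
    refine ⟨by ring, by ring, by linarith, by linarith⟩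
  · rintro ⟨h1, h2, h3, h4⟩
    refine ⟨x.2.2 - p.2.2, ⟨by linarith, by linarith⟩, ?_⟩
    refine Prod.ext ?_ (Prod.ext ?_ ?_)
    · simp only [Prod.smul_mk, smul_eq_mul, mul_one, mul_zero, Prod.fst_add]
      linarith
    · simp only [Prod.smul_mk, smul_eq_mul, mul_one, mul_zero, Prod.fst_add, Prod.snd_add]
      linarith
    · simp only [Prod.smul_mk, smul_eq_mul, mul_one, mul_zero, Prod.snd_add]
      linarith

/-- The general position lemma as a statement on unions. -/
private theorem slant_union {R : Set R3} {p : R3}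
    (hR : ∀ x ∈ R, x ∈ Cn p → x = p ∨ x = p + (1, 0, 1)) :
    ∃ φ : R3 ≃ₜ R3, φ '' (R ∪ segment ℝ p (p + (1, 0, 1))) =
      R ∪ (segment ℝ p (p + (1, 0, 0)) ∪ segment ℝ (p + (1, 0, 0)) (p + (1, 0, 1))) := by
  have hX : (R ∪ segment ℝ p (p + (1, 0, 1))) ∩ Cn p = segment ℝ p (p + (1, 0, 1)) := by
    ext x
    constructor
    · rintro ⟨h1 | h1, h2⟩
      · rcases hR x h1 h2 with rfl | rfl
        · exact left_mem_segment ℝ _ _
        · exact right_mem_segment ℝ _ _
      · exact h1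
    · exact fun h => ⟨Or.inr h, seg_sub_cn p h⟩
  obtain ⟨φ, hφ⟩ := slant hX
  refine ⟨φ, ?_⟩
  rw [hφ]
  ext x
  constructor
  · rintro (⟨h1 | h1, h2⟩ | h1)
    · exact Or.inl h1
    · exact absurd h1 h2
    · exact Or.inr h1
  · rintro (h1 | h1)
    · by_cases h2 : x ∈ segment ℝ p (p + (1, 0, 1))
      · rcases hR x h1 (seg_sub_cn p h2) with rfl | rfl
        · exact Or.inr (Or.inl (left_mem_segment ℝ _ _))
        · exact Or.inr (Or.inr (right_mem_segment ℝ _ _))
      · exact Or.inl ⟨Or.inl h1, h2⟩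
    · exact Or.inr h1

/-! ### Bodies -/

/-- The vertical edge over the column `c` from level `j` to level `j + 1`. -/
private def vs (c : ℤ × ℤ) (j : ℤ) : Set R3 :=
  segment ℝ (toR (c.1, c.2, j)) (toR (c.1, c.2, j + 1))

private theorem mem_vs {c : ℤ × ℤ} {j : ℤ} {x : R3} : x ∈ vs c j ↔
    x.1 = c.1 ∧ x.2.1 = c.2 ∧ (j : ℝ) ≤ x.2.2 ∧ x.2.2 ≤ j + 1 := mem_vseg

private theorem body_ring_of (hr : Upper k a b r) (hl : Lower k a b l) :
    body (ring (r ++ l)) = body (pedges r) ∪ body (pedges l) ∪ vs a k ∪ vs b k := by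
  ext x
  constructor
  · rintro ⟨u, v, huv, hx⟩
    rcases (mem_ring_of hr hl).1 huv with h | h | h | h
    · exact Or.inl (Or.inl (Or.inl ⟨u, v, h, hx⟩))
    · exact Or.inl (Or.inl (Or.inr ⟨u, v, h, hx⟩))
    · exact Or.inl (Or.inr (seg_of_eq h hx))
    · exact Or.inr (seg_of_eq h hx)
  · rintro (((⟨u, v, huv, hx⟩ | ⟨u, v, huv, hx⟩) | hx) | hx)
    · exact ⟨u, v, (mem_ring_of hr hl).2 (Or.inl huv), hx⟩
    · exact ⟨u, v, (mem_ring_of hr hl).2 (Or.inr (Or.inl huv)), hx⟩
    · exact ⟨_, _, (mem_ring_of hr hl).2 (Or.inr (Or.inr (Or.inl rfl))), hx⟩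
    · exact ⟨_, _, (mem_ring_of hr hl).2 (Or.inr (Or.inr (Or.inr rfl))), hx⟩

private theorem toR_h (c : ℤ × ℤ) (j : ℤ) :
    toR (c.1 + 1, c.2, j) = toR (c.1, c.2, j) + (1, 0, 0) := by
  simp [toR]

private theorem toR_s (c : ℤ × ℤ) (j : ℤ) :
    toR (c.1 + 1, c.2, j + 1) = toR (c.1, c.2, j) + (1, 0, 1) := by
  simp [toR]

private theorem body_lower (hl : Lower k a b l) :
    body (pedges ([(b.1 + 1, b.2, k + 1), (b.1, b.2, k + 1)] ++
      (l ++ [(a.1, a.2, k + 1), (a.1 + 1, a.2, k + 1)]))) =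
    body (pedges l) ∪ vs a k ∪ vs b k ∪
      (segment ℝ (toR (a.1, a.2, k + 1)) (toR (a.1, a.2, k + 1) + (1, 0, 0)) ∪
        segment ℝ (toR (b.1, b.2, k + 1)) (toR (b.1, b.2, k + 1) + (1, 0, 0))) := by
  have hh : (l ++ [((a.1, a.2, k + 1) : P3), (a.1 + 1, a.2, k + 1)]).head? =
      some (b.1, b.2, k) := by
    rw [List.head?_append, hl.head]
    rfl
  have key : ∀ e : Sym2 P3, e ∈ pedges ([((b.1 + 1, b.2, k + 1) : P3), (b.1, b.2, k + 1)] ++
      (l ++ [(a.1, a.2, k + 1), (a.1 + 1, a.2, k + 1)])) ↔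
      e = s((b.1 + 1, b.2, k + 1), (b.1, b.2, k + 1)) ∨
      e = s((b.1, b.2, k + 1), (b.1, b.2, k)) ∨ e ∈ pedges l ∨
      e = s((a.1, a.2, k), (a.1, a.2, k + 1)) ∨
      e = s((a.1, a.2, k + 1), (a.1 + 1, a.2, k + 1)) := by
    intro e
    rw [mem_pedges_cat (A := [((b.1 + 1, b.2, k + 1) : P3), (b.1, b.2, k + 1)])
      (a := ((b.1, b.2, k + 1) : P3)) rfl hh,
      mem_pedges_cat (B := [((a.1, a.2, k + 1) : P3), (a.1 + 1, a.2, k + 1)])
      (b := ((a.1, a.2, k + 1) : P3)) hl.last rfl]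
    simp only [LatticeTube.pedges, Finset.mem_insert, Finset.notMem_empty, or_false]
  ext x
  constructor
  · rintro ⟨u, v, huv, hx⟩
    rcases (key _).1 huv with h | h | h | h | h
    · refine Or.inr (Or.inr ?_)
      have := seg_of_eq h hx
      rwa [toR_h, segment_symm] at this
    · refine Or.inl (Or.inr ?_)
      have := seg_of_eq h hx
      rwa [segment_symm] at this
    · exact Or.inl (Or.inl (Or.inl ⟨u, v, h, hx⟩))
    · exact Or.inl (Or.inl (Or.inr (seg_of_eq h hx)))
    · refine Or.inr (Or.inl ?_)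
      have := seg_of_eq h hx
      rwa [toR_h] at this
  · rintro (((⟨u, v, huv, hx⟩ | hx) | hx) | (hx | hx))
    · exact ⟨u, v, (key _).2 (Or.inr (Or.inr (Or.inl huv))), hx⟩
    · exact ⟨_, _, (key _).2 (Or.inr (Or.inr (Or.inr (Or.inl rfl)))), hx⟩
    · refine ⟨_, _, (key _).2 (Or.inr (Or.inl rfl)), ?_⟩
      rw [segment_symm]
      exact hx
    · refine ⟨_, _, (key _).2 (Or.inr (Or.inr (Or.inr (Or.inr rfl)))), ?_⟩
      rw [toR_h]
      exact hx
    · refine ⟨_, _, (key _).2 (Or.inl rfl), ?_⟩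
      rw [toR_h, segment_symm]
      exact hx

/-! ### The homeomorphism -/

private noncomputable def sf (k : ℤ) (z : ℝ) : ℝ := max 0 (min 1 (z - (k + 1)))

private theorem sf_low {z : ℝ} (hz : z ≤ k + 1) : sf k z = 0 := by
  rw [sf, min_eq_right (by linarith), max_eq_left (by linarith)]

private theorem sf_high {z : ℝ} (hz : (k : ℝ) + 2 ≤ z) : sf k z = 1 := by
  rw [sf, min_eq_left (by linarith), max_eq_right (by linarith)]

private theorem sf_mid {z : ℝ} (hz : (k : ℝ) + 1 ≤ z) (hz' : z ≤ k + 2) :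
    sf k z = z - (k + 1) := by
  rw [sf, min_eq_right (by linarith), max_eq_right (by linarith)]

private theorem continuous_sf : Continuous (sf k) := by
  unfold sf
  fun_prop

/-- The levels between `k + 1` and `k + 2` sheared. -/
private noncomputable def shH (k : ℤ) : R3 ≃ₜ R3 where
  toFun p := (p.1 + sf k p.2.2, p.2)
  invFun p := (p.1 - sf k p.2.2, p.2)
  left_inv p := by simp
  right_inv p := by simp
  continuous_toFun := by
    have := continuous_sf (k := k)
    fun_prop
  continuous_invFun := by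
    have := continuous_sf (k := k)
    fun_prop

private noncomputable def tot (k : ℤ) : R3 ≃ₜ R3 := (strH k 1).trans (shH k)

private theorem tot_apply (p : R3) :
    tot k p = (p.1 + sf k (psi k 1 p.2.2), p.2.1, psi k 1 p.2.2) := rfl

private theorem tot_low {p : R3} (h : p.2.2 ≤ k) : tot k p = p := by
  rw [tot_apply, psi_low h, sf_low (by linarith), add_zero]

private theorem tot_high {p : R3} (h : (k : ℝ) + 1 ≤ p.2.2) : tot k p = p + toR (1, 0, 1) := by
  rw [tot_apply, psi_high h, sf_high (by push_cast; linarith)]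
  refine Prod.ext ?_ (Prod.ext ?_ ?_) <;> simp [toR]

private theorem tot_image_vs (c : ℤ × ℤ) : tot k '' vs c k =
    vs c k ∪ segment ℝ (toR (c.1, c.2, k + 1)) (toR (c.1, c.2, k + 1) + (1, 0, 1)) := by
  ext y
  constructor
  · rintro ⟨x, hx, rfl⟩
    rw [mem_vs] at hx
    obtain ⟨h1, h2, h3, h4⟩ := hx
    rw [tot_apply, psi_mid h3 h4]
    rcases le_total (x.2.2 - k) (1 / 2) with h5 | h5
    · left
      rw [mem_vs]
      rw [sf_low (by push_cast; linarith)]
      refine ⟨by simpa using h1, h2, ?_, ?_⟩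
      · simp only
        push_cast
        linarith
      · simp only
        push_cast
        linarith
    · right
      rw [mem_slseg, sf_mid (by push_cast; linarith) (by push_cast; linarith)]
      simp only [toR]
      push_cast
      refine ⟨by linarith, h2, by linarith, by linarith⟩
  · rintro (hy | hy)
    · rw [mem_vs] at hy
      obtain ⟨h1, h2, h3, h4⟩ := hy
      refine ⟨(c.1, c.2, k + (y.2.2 - k) / 2), ?_, ?_⟩
      · rw [mem_vs]
        refine ⟨rfl, rfl, ?_, ?_⟩
        · simp only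
          linarith
        · simp only
          linarith
      · rw [tot_apply]
        simp only
        rw [psi_mid (by linarith) (by linarith)]
        have e : (k : ℝ) + (((1 : ℕ) : ℝ) + 1) * (k + (y.2.2 - k) / 2 - k) = y.2.2 := by
          push_cast
          ring
        rw [e, sf_low h4, add_zero]
        exact Prod.ext h1.symm (Prod.ext h2.symm rfl)
    · rw [mem_slseg] at hy
      simp only [toR] at hy
      push_cast at hy
      obtain ⟨h1, h2, h3, h4⟩ := hy
      refine ⟨(c.1, c.2, k + (y.2.2 - k) / 2), ?_, ?_⟩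
      · rw [mem_vs]
        refine ⟨rfl, rfl, ?_, ?_⟩
        · simp only
          linarith
        · simp only
          linarith
      · rw [tot_apply]
        simp only
        rw [psi_mid (by linarith) (by linarith)]
        have e : (k : ℝ) + (((1 : ℕ) : ℝ) + 1) * (k + (y.2.2 - k) / 2 - k) = y.2.2 := by
          push_cast
          ring
        rw [e, sf_mid h3 (by linarith)]
        refine Prod.ext ?_ (Prod.ext h2.symm rfl)
        simp only
        linarith

private theorem body_lev_le {E : Finset (Sym2 P3)} {j : ℤ}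
    (h : ∀ u v, s(u, v) ∈ E → u.2.2 ≤ j ∧ v.2.2 ≤ j) {x : R3} (hx : x ∈ body E) : x.2.2 ≤ j := by
  obtain ⟨u, v, huv, hx⟩ := hx
  obtain ⟨h1, h2⟩ := h u v huv
  exact seg_bounds hx (by exact_mod_cast h1) (by exact_mod_cast h2)

private theorem le_body_lev {E : Finset (Sym2 P3)} {j : ℤ}
    (h : ∀ u v, s(u, v) ∈ E → j ≤ u.2.2 ∧ j ≤ v.2.2) {x : R3} (hx : x ∈ body E) :
    (j : ℝ) ≤ x.2.2 := by
  obtain ⟨u, v, huv, hx⟩ := hx
  obtain ⟨h1, h2⟩ := h u v huv
  exact seg_bounds' hx (by exact_mod_cast h1) (by exact_mod_cast h2)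

private theorem tot_image_low {X : Set R3} (h : ∀ x ∈ X, x.2.2 ≤ k) : tot k '' X = X := by
  ext y
  constructor
  · rintro ⟨x, hx, rfl⟩
    rwa [tot_low (h x hx)]
  · exact fun hy => ⟨y, hy, tot_low (h y hy)⟩

private theorem tot_image_high {X : Set R3} (h : ∀ x ∈ X, (k : ℝ) + 1 ≤ x.2.2) :
    tot k '' X = (fun x => x + toR (1, 0, 1)) '' X :=
  Set.image_congr fun x hx => tot_high (h x hx)

/-! ### The other strand -/

private theorem far_strand {c d : ℤ × ℤ} (h0 : c ≠ d) (h1 : c + (1, 0) ≠ d) (h2 : d + (1, 0) ≠ c)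
    {x : R3} (hx : x ∈ Cn (toR (c.1, c.2, k + 1))) (h3 : x.2.1 = d.2) (h4 : (d.1 : ℝ) ≤ x.1)
    (h5 : x.1 ≤ d.1 + 1) : False := by
  obtain ⟨g1, g2, g3, -, -⟩ := cn_bounds hx
  simp only [toR] at g1 g2 g3
  rw [h3, abs_le] at g3
  have e2 : d.2 = c.2 := by
    have i1 : (d.2 : ℝ) < c.2 + 1 := by linarith [g3.2]
    have i2 : (c.2 : ℝ) < d.2 + 1 := by linarith [g3.1]
    have i1' : d.2 < c.2 + 1 := by exact_mod_cast i1
    have i2' : c.2 < d.2 + 1 := by exact_mod_cast i2
    omega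
  have i1 : (d.1 : ℝ) < c.1 + 2 := by linarith
  have i2 : (c.1 : ℝ) ≤ d.1 + 1 := by linarith
  have i1' : d.1 < c.1 + 2 := by exact_mod_cast i1
  have i2' : c.1 ≤ d.1 + 1 := by exact_mod_cast i2
  have i3 : d.1 = c.1 - 1 ∨ d.1 = c.1 ∨ d.1 = c.1 + 1 := by omega
  rcases i3 with i | i | i
  · refine h2 (Prod.ext ?_ ?_)
    · change d.1 + 1 = c.1
      omega
    · change d.2 + 0 = c.2
      omega
  · exact h0 (Prod.ext i.symm e2.symm)
  · refine h1 (Prod.ext ?_ ?_)
    · change c.1 + 1 = d.1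
      omega
    · change c.2 + 0 = d.2
      omega

/-- **The upper part moved by the first unit vector (and one level up), both strands bent.** -/
theorem shear_x (hab : a ≠ b) (h1 : a + (1, 0) ≠ b) (h2 : b + (1, 0) ≠ a) (hr : Upper k a b r)
    (hl : Lower k a b l) : SameType (ring (r ++ l))
      (ring (r.map (· + ((1 : ℤ), (0 : ℤ), (1 : ℤ))) ++
        ([(b.1 + 1, b.2, k + 1), (b.1, b.2, k + 1)] ++
          (l ++ [(a.1, a.2, k + 1), (a.1 + 1, a.2, k + 1)])))) := by
  -- the new halves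
  have hr' : Upper (k + 1) (a.1 + 1, a.2) (b.1 + 1, b.2)
      (r.map (· + ((1 : ℤ), (0 : ℤ), (1 : ℤ)))) := by
    have := hr.shift (1, 0, 1)
    simp only [csh, add_zero] at this
    exact this
  have hl' : Lower (k + 1) (a.1 + 1, a.2) (b.1 + 1, b.2)
      ([(b.1 + 1, b.2, k + 1), (b.1, b.2, k + 1)] ++
        (l ++ [(a.1, a.2, k + 1), (a.1 + 1, a.2, k + 1)])) := by
    have n1 : ¬ (b.1 = a.1 ∧ b.2 = a.2) := fun h => hab (Prod.ext h.1.symm h.2.symm)
    have n2 : ¬ (b.1 = a.1 + 1 ∧ b.2 = a.2) := by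
      rintro ⟨e1, e2⟩
      refine h1 (Prod.ext ?_ ?_)
      · change a.1 + 1 = b.1
        omega
      · change a.2 + 0 = b.2
        omega
    have n3 : ¬ (b.1 + 1 = a.1 ∧ b.2 = a.2) := by
      rintro ⟨e1, e2⟩
      refine h2 (Prod.ext ?_ ?_)
      · change b.1 + 1 = a.1
        omega
      · change b.2 + 0 = a.2
        omega
    have hlev : ∀ u : P3, u ∈ l → u.2.2 ≠ k + 1 := by
      intro u hu
      have := hl.lev u hu
      omega
    refine ⟨?_, ?_, rfl, ?_, ?_⟩
    · simp only [List.cons_append, List.nil_append, List.nodup_cons, List.mem_cons,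
        List.mem_append, List.not_mem_nil, or_false, Prod.mk.injEq, and_true, not_or]
      refine ⟨⟨?_, ?_, ?_, ?_⟩, ⟨?_, ?_, ?_⟩, ?_⟩
      · omega
      · exact fun h => hlev _ h rfl
      · exact n3
      · omega
      · exact fun h => hlev _ h rfl
      · exact n1
      · exact n2
      · refine List.nodup_append.2 ⟨hl.nodup, ?_, ?_⟩
        · simp
        · intro u hu v hv huv
          subst huv
          refine hlev u hu ?_
          simp only [List.mem_cons, List.not_mem_nil, or_false] at hv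
          rcases hv with rfl | rfl <;> rfl
    · refine List.IsChain.append ?_ ?_ ?_
      · simp [Adj]
      · refine List.IsChain.append hl.chain ?_ ?_
        · simp [Adj]
        · intro x hx y hy
          rw [hl.last] at hx
          simp only [List.head?_cons, Option.mem_def, Option.some.injEq] at hx hy
          subst hx hy
          exact adj_leg a k
      · intro x hx y hy
        rw [List.head?_append, hl.head] at hy
        simp only [List.getLast?_cons_cons, List.getLast?_singleton, Option.some_or,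
          Option.mem_def, Option.some.injEq] at hx hy
        subst hx hy
        exact (adj_leg b k).symm
    · rw [List.getLast?_append, List.getLast?_append]
      rfl
    · intro u hu
      simp only [List.cons_append, List.nil_append, List.mem_cons,
        List.mem_append, List.not_mem_nil, or_false] at hu
      rcases hu with rfl | rfl | hu | rfl | rfl
      · exact le_rfl
      · exact le_rfl
      · have := hl.lev u hu
        omega
      · exact le_rfl
      · exact le_rfl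
  -- levels
  have hU : ∀ x ∈ body (pedges r), (k : ℝ) + 1 ≤ x.2.2 := by
    intro x hx
    have := le_body_lev (j := k + 1) (fun u v huv => pedges_lev hr.lev huv) hx
    push_cast at this
    exact this
  have hL : ∀ x ∈ body (pedges l), x.2.2 ≤ k := fun x hx =>
    body_lev_le (j := k) (fun u v huv => pedges_lev hl.lev huv) hx
  have hU' : ∀ x ∈ body (pedges (r.map (· + ((1 : ℤ), (0 : ℤ), (1 : ℤ))))),
      (k : ℝ) + 2 ≤ x.2.2 := by
    intro x hx
    have := le_body_lev (j := k + 1 + 1) (fun u v huv => pedges_lev hr'.lev huv) hx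
    push_cast at this
    linarith
  have hUim : (fun x => x + toR (1, 0, 1)) '' body (pedges r) =
      body (pedges (r.map (· + ((1 : ℤ), (0 : ℤ), (1 : ℤ))))) := by
    rw [pedges_map]
    exact (body_shift _ _).symm
  -- first homeomorphism
  set U := body (pedges (r.map (· + ((1 : ℤ), (0 : ℤ), (1 : ℤ))))) with hUdef
  set L := body (pedges l) with hLdef
  set pa := toR (a.1, a.2, k + 1) with hpa
  set pb := toR (b.1, b.2, k + 1) with hpb
  have t1 : tot k '' body (ring (r ++ l)) =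
      (U ∪ L ∪ vs a k ∪ vs b k ∪ segment ℝ pb (pb + (1, 0, 1))) ∪
        segment ℝ pa (pa + (1, 0, 1)) := by
    rw [body_ring_of hr hl, Set.image_union, Set.image_union, Set.image_union,
      tot_image_high hU, hUim, tot_image_low hL, tot_image_vs, tot_image_vs]
    ext x
    simp only [Set.mem_union]
    tauto
  have za : pa.2.2 = k + 1 := by
    simp [hpa, toR]
  have zb : pb.2.2 = k + 1 := by
    simp [hpb, toR]
  have common : ∀ {c d : ℤ × ℤ} (h0 : c ≠ d) (h1 : c + (1, 0) ≠ d) (h2 : d + (1, 0) ≠ c) {x : R3},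
      x ∈ Cn (toR (c.1, c.2, k + 1)) → (x ∈ U ∨ x ∈ L ∨ x ∈ vs c k ∨
        (x.2.1 = d.2 ∧ (d.1 : ℝ) ≤ x.1 ∧ x.1 ≤ d.1 + 1)) →
      x = toR (c.1, c.2, k + 1) ∨ x = toR (c.1, c.2, k + 1) + (1, 0, 1) := by
    intro c d h0 h1 h2 x hx hx'
    obtain ⟨g1, g2, g3, g4, g5⟩ := cn_bounds hx
    have zc : (toR (c.1, c.2, k + 1)).2.2 = (k : ℝ) + 1 := by simp [toR]
    rw [zc] at g4 g5
    rcases hx' with h | h | h | ⟨h3, h4, h5⟩
    · right
      refine cn_top hx ?_
      rw [zc]
      have := hU' x h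
      linarith
    · have := hL x h
      linarith
    · left
      refine cn_left hx ?_
      rw [(mem_vs.1 h).1]
      simp [toR]
    · exact (far_strand h0 h1 h2 hx h3 h4 h5).elim
  -- second homeomorphism
  obtain ⟨φ₁, t2⟩ := slant_union (p := pa)
    (R := U ∪ L ∪ vs a k ∪ vs b k ∪ segment ℝ pb (pb + (1, 0, 1))) (by
      rintro x ((((h | h) | h) | h) | h) hx
      · exact common hab h1 h2 hx (Or.inl h)
      · exact common hab h1 h2 hx (Or.inr (Or.inl h))
      · exact common hab h1 h2 hx (Or.inr (Or.inr (Or.inl h)))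
      · refine common hab h1 h2 hx (Or.inr (Or.inr (Or.inr ?_)))
        obtain ⟨g1, g2, -, -⟩ := mem_vs.1 h
        exact ⟨g2, by rw [g1], by rw [g1]; linarith⟩
      · refine common hab h1 h2 hx (Or.inr (Or.inr (Or.inr ?_)))
        obtain ⟨g1, g2, g3, g4⟩ := mem_slseg.1 h
        have e1 : pb.1 = b.1 := by simp [hpb, toR]
        have e2 : pb.2.1 = b.2 := by simp [hpb, toR]
        rw [e1] at g1
        exact ⟨by rw [g2, e2], by linarith, by linarith⟩)
  -- third homeomorphism
  obtain ⟨φ₂, t3⟩ := slant_union (p := pb)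
    (R := U ∪ L ∪ vs a k ∪ vs b k ∪
      (segment ℝ pa (pa + (1, 0, 0)) ∪ segment ℝ (pa + (1, 0, 0)) (pa + (1, 0, 1)))) (by
      have e1 : pa.1 = a.1 := by simp [hpa, toR]
      have e2 : pa.2.1 = a.2 := by simp [hpa, toR]
      rintro x ((((h | h) | h) | h) | (h | h)) hx
      · exact common hab.symm h2 h1 hx (Or.inl h)
      · exact common hab.symm h2 h1 hx (Or.inr (Or.inl h))
      · refine common hab.symm h2 h1 hx (Or.inr (Or.inr (Or.inr ?_)))
        obtain ⟨g1, g2, -, -⟩ := mem_vs.1 h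
        exact ⟨g2, by rw [g1], by rw [g1]; linarith⟩
      · exact common hab.symm h2 h1 hx (Or.inr (Or.inr (Or.inl h)))
      · refine common hab.symm h2 h1 hx (Or.inr (Or.inr (Or.inr ?_)))
        obtain ⟨g1, g2, g3, g4⟩ := mem_hzseg.1 h
        rw [e1] at g3 g4
        exact ⟨by rw [g2, e2], g3, g4⟩
      · refine common hab.symm h2 h1 hx (Or.inr (Or.inr (Or.inr ?_)))
        obtain ⟨g1, g2, g3, g4⟩ := mem_vtseg.1 h
        rw [e1] at g1
        exact ⟨by rw [g2, e2], by linarith, by linarith⟩)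
  refine ⟨((tot k).trans φ₁).trans φ₂, ?_⟩
  have t4 : (((tot k).trans φ₁).trans φ₂) '' body (ring (r ++ l)) =
      φ₂ '' (φ₁ '' (tot k '' body (ring (r ++ l)))) := by
    rw [Set.image_image, Set.image_image]
    rfl
  rw [t4, t1, t2]
  have t5 : (U ∪ L ∪ vs a k ∪ vs b k ∪ segment ℝ pb (pb + (1, 0, 1))) ∪
      (segment ℝ pa (pa + (1, 0, 0)) ∪ segment ℝ (pa + (1, 0, 0)) (pa + (1, 0, 1))) =
      (U ∪ L ∪ vs a k ∪ vs b k ∪
      (segment ℝ pa (pa + (1, 0, 0)) ∪ segment ℝ (pa + (1, 0, 0)) (pa + (1, 0, 1)))) ∪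
        segment ℝ pb (pb + (1, 0, 1)) := by
    ext x
    simp only [Set.mem_union]
    tauto
  rw [t5, t3, body_ring_of hr' hl', body_lower hl]
  have va : vs (a.1 + 1, a.2) (k + 1) = segment ℝ (pa + (1, 0, 0)) (pa + (1, 0, 1)) := by
    unfold vs
    simp only
    rw [toR_h a (k + 1), toR_s a (k + 1)]
  have vb : vs (b.1 + 1, b.2) (k + 1) = segment ℝ (pb + (1, 0, 0)) (pb + (1, 0, 1)) := by
    unfold vs
    simp only
    rw [toR_h b (k + 1), toR_s b (k + 1)]
  rw [va, vb]
  ext x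
  simp only [Set.mem_union]
  tauto

end Pool.Agent.KTop
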