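import Pool.Agent.KRing.Block
import Pool.Agent.KTen.PlaceA
import Pool.Agent.MP_aea6d5_co.StdMoves

/-! KT2a: a slanted segment replaced by two lattice edges. -/

set_option autoImplicit false

open Pool.Agent.LK Set

namespace Pool.Agent.KTop

open Pool.Agent.KTube Pool.Agent.KRing

/-- A convex neighbourhood of the triangle `p`, `p + (1, 0, 0)`, `p + (1, 0, 1)` without its two
ends `p` and `p + (1, 0, 1)`, which lie on its boundary. -/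
def Cn (p : R3) : Set R3 := {q | |(q.1 - p.1) + (q.2.2 - p.2.2) - 1| +
  max (4 / 5 * ((q.1 - p.1) - (q.2.2 - p.2.2))) (-4 * ((q.1 - p.1) - (q.2.2 - p.2.2))) +
  4 * |q.2.1 - p.2.1| ≤ 1}

/-- The affine functions of the body. -/
private def ln (p : R3) (s k t : ℝ) : ℝ × ℝ × ℝ × ℝ :=
  (s + k, 4 * t, s - k, -s - 1 - ((s + k) * p.1 + 4 * t * p.2.1 + (s - k) * p.2.2))

private lemma val_ln (p : R3) (s k t : ℝ) (q : R3) : val (ln p s k t) q =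
    s * ((q.1 - p.1) + (q.2.2 - p.2.2) - 1) + k * ((q.1 - p.1) - (q.2.2 - p.2.2)) +
      4 * t * (q.2.1 - p.2.1) - 1 := by
  simp only [val, ln]
  ring

private noncomputable def Ls (p : R3) : List (ℝ × ℝ × ℝ × ℝ) :=
  [ln p 1 (4 / 5) 1, ln p 1 (4 / 5) (-1), ln p 1 (-4) 1, ln p 1 (-4) (-1),
    ln p (-1) (4 / 5) 1, ln p (-1) (4 / 5) (-1), ln p (-1) (-4) 1, ln p (-1) (-4) (-1)]

private lemma ineqs {p q : R3} (h : q ∈ Cn p) :
    (∀ s t : ℝ, (s = 1 ∨ s = -1) → (t = 1 ∨ t = -1) →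
      s * ((q.1 - p.1) + (q.2.2 - p.2.2) - 1) + 4 / 5 * ((q.1 - p.1) - (q.2.2 - p.2.2)) +
        4 * t * (q.2.1 - p.2.1) - 1 ≤ 0 ∧
      s * ((q.1 - p.1) + (q.2.2 - p.2.2) - 1) + -4 * ((q.1 - p.1) - (q.2.2 - p.2.2)) +
        4 * t * (q.2.1 - p.2.1) - 1 ≤ 0) := by
  have h0 : |(q.1 - p.1) + (q.2.2 - p.2.2) - 1| +
    max (4 / 5 * ((q.1 - p.1) - (q.2.2 - p.2.2))) (-4 * ((q.1 - p.1) - (q.2.2 - p.2.2))) +
    4 * |q.2.1 - p.2.1| ≤ 1 := h
  have a1 := le_abs_self ((q.1 - p.1) + (q.2.2 - p.2.2) - 1)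
  have a2 := neg_abs_le ((q.1 - p.1) + (q.2.2 - p.2.2) - 1)
  have b1 := le_abs_self (q.2.1 - p.2.1)
  have b2 := neg_abs_le (q.2.1 - p.2.1)
  have c1 := le_max_left (4 / 5 * ((q.1 - p.1) - (q.2.2 - p.2.2)))
    (-4 * ((q.1 - p.1) - (q.2.2 - p.2.2)))
  have c2 := le_max_right (4 / 5 * ((q.1 - p.1) - (q.2.2 - p.2.2)))
    (-4 * ((q.1 - p.1) - (q.2.2 - p.2.2)))
  rintro s t (rfl | rfl) (rfl | rfl) <;> constructor <;> linarith

private lemma cn_eq (p : R3) : Cn p = poly (Ls p) := by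
  ext q
  constructor
  · intro h l hl
    have h1 := ineqs h
    simp only [Ls, List.mem_cons, List.not_mem_nil, or_false] at hl
    rcases hl with rfl | rfl | rfl | rfl | rfl | rfl | rfl | rfl <;> rw [val_ln]
    · exact (h1 1 1 (Or.inl rfl) (Or.inl rfl)).1
    · exact (h1 1 (-1) (Or.inl rfl) (Or.inr rfl)).1
    · exact (h1 1 1 (Or.inl rfl) (Or.inl rfl)).2
    · exact (h1 1 (-1) (Or.inl rfl) (Or.inr rfl)).2
    · exact (h1 (-1) 1 (Or.inr rfl) (Or.inl rfl)).1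
    · exact (h1 (-1) (-1) (Or.inr rfl) (Or.inr rfl)).1
    · exact (h1 (-1) 1 (Or.inr rfl) (Or.inl rfl)).2
    · exact (h1 (-1) (-1) (Or.inr rfl) (Or.inr rfl)).2
  · intro h
    have h1 := h _ (show ln p 1 (4 / 5) 1 ∈ Ls p by simp [Ls])
    have h2 := h _ (show ln p 1 (4 / 5) (-1) ∈ Ls p by simp [Ls])
    have h3 := h _ (show ln p 1 (-4) 1 ∈ Ls p by simp [Ls])
    have h4 := h _ (show ln p 1 (-4) (-1) ∈ Ls p by simp [Ls])
    have h5 := h _ (show ln p (-1) (4 / 5) 1 ∈ Ls p by simp [Ls])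
    have h6 := h _ (show ln p (-1) (4 / 5) (-1) ∈ Ls p by simp [Ls])
    have h7 := h _ (show ln p (-1) (-4) 1 ∈ Ls p by simp [Ls])
    have h8 := h _ (show ln p (-1) (-4) (-1) ∈ Ls p by simp [Ls])
    rw [val_ln] at h1 h2 h3 h4 h5 h6 h7 h8
    show |(q.1 - p.1) + (q.2.2 - p.2.2) - 1| +
      max (4 / 5 * ((q.1 - p.1) - (q.2.2 - p.2.2))) (-4 * ((q.1 - p.1) - (q.2.2 - p.2.2))) +
      4 * |q.2.1 - p.2.1| ≤ 1
    rcases abs_cases ((q.1 - p.1) + (q.2.2 - p.2.2) - 1) with ⟨e1, -⟩ | ⟨e1, -⟩ <;>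
    rcases abs_cases (q.2.1 - p.2.1) with ⟨e2, -⟩ | ⟨e2, -⟩ <;>
    rcases max_cases (4 / 5 * ((q.1 - p.1) - (q.2.2 - p.2.2)))
      (-4 * ((q.1 - p.1) - (q.2.2 - p.2.2))) with ⟨e3, -⟩ | ⟨e3, -⟩ <;>
    rw [e1, e2, e3] <;> linarith

theorem cn_bounds {p q : R3} (h : q ∈ Cn p) : p.1 ≤ q.1 ∧ q.1 ≤ p.1 + 9 / 8 ∧
    |q.2.1 - p.2.1| ≤ 1 / 4 ∧ p.2.2 - 1 / 8 ≤ q.2.2 ∧ q.2.2 ≤ p.2.2 + 1 := by
  have h1 := ineqs h
  have a1 := h1 1 1 (Or.inl rfl) (Or.inl rfl)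
  have a2 := h1 1 (-1) (Or.inl rfl) (Or.inr rfl)
  have a3 := h1 (-1) 1 (Or.inr rfl) (Or.inl rfl)
  have a4 := h1 (-1) (-1) (Or.inr rfl) (Or.inr rfl)
  obtain ⟨a11, a12⟩ := a1
  obtain ⟨a21, a22⟩ := a2
  obtain ⟨a31, a32⟩ := a3
  obtain ⟨a41, a42⟩ := a4
  refine ⟨?_, ?_, ?_, ?_, ?_⟩
  · linarith
  · linarith
  · rw [abs_le]
    constructor <;> linarith
  · linarith
  · linarith

theorem cn_left {p q : R3} (h : q ∈ Cn p) (h1 : q.1 = p.1) : q = p := by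
  have h1' := ineqs h
  obtain ⟨a11, a12⟩ := h1' 1 1 (Or.inl rfl) (Or.inl rfl)
  obtain ⟨a21, a22⟩ := h1' 1 (-1) (Or.inl rfl) (Or.inr rfl)
  obtain ⟨a31, a32⟩ := h1' (-1) 1 (Or.inr rfl) (Or.inl rfl)
  obtain ⟨a41, a42⟩ := h1' (-1) (-1) (Or.inr rfl) (Or.inr rfl)
  refine Prod.ext h1 (Prod.ext ?_ ?_)
  · refine le_antisymm ?_ ?_ <;> linarith
  · refine le_antisymm ?_ ?_ <;> linarith

theorem cn_top {p q : R3} (h : q ∈ Cn p) (h1 : q.2.2 = p.2.2 + 1) : q = p + (1, 0, 1) := by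
  have h1' := ineqs h
  obtain ⟨a11, a12⟩ := h1' 1 1 (Or.inl rfl) (Or.inl rfl)
  obtain ⟨a21, a22⟩ := h1' 1 (-1) (Or.inl rfl) (Or.inr rfl)
  obtain ⟨a31, a32⟩ := h1' (-1) 1 (Or.inr rfl) (Or.inl rfl)
  obtain ⟨a41, a42⟩ := h1' (-1) (-1) (Or.inr rfl) (Or.inr rfl)
  refine Prod.ext ?_ (Prod.ext ?_ ?_)
  · show q.1 = p.1 + 1
    refine le_antisymm ?_ ?_ <;> linarith
  · show q.2.1 = p.2.1 + 0
    refine le_antisymm ?_ ?_ <;> linarith
  · exact h1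

private lemma p_mem (p : R3) : p ∈ Cn p := by
  show |(p.1 - p.1) + (p.2.2 - p.2.2) - 1| +
    max (4 / 5 * ((p.1 - p.1) - (p.2.2 - p.2.2))) (-4 * ((p.1 - p.1) - (p.2.2 - p.2.2))) +
    4 * |p.2.1 - p.2.1| ≤ 1
  simp

private lemma p1_mem (p : R3) : p + (1, 0, 1) ∈ Cn p := by
  rw [cn_eq]
  intro l hl
  simp only [Ls, List.mem_cons, List.not_mem_nil, or_false] at hl
  rcases hl with rfl | rfl | rfl | rfl | rfl | rfl | rfl | rfl <;> rw [val_ln] <;>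
    simp only [Prod.fst_add, Prod.snd_add] <;> linarith

theorem seg_sub_cn (p : R3) : segment ℝ p (p + (1, 0, 1)) ⊆ Cn p := by
  have h1 := p_mem p
  have h2 := p1_mem p
  rw [cn_eq] at h1 h2 ⊢
  exact (poly_convex _).segment_subset h1 h2

private lemma body_cn (p : R3) : Body (poly (Ls p)) := by
  refine ⟨poly_convex _, ?_⟩
  rw [← cn_eq, Metric.isBounded_iff_subset_closedBall p]
  refine ⟨2, fun q hq => ?_⟩
  obtain ⟨h1, h2, h3, h4, h5⟩ := cn_bounds hq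
  rw [Metric.mem_closedBall, Prod.dist_eq, Prod.dist_eq, max_le_iff, max_le_iff, Real.dist_eq,
    Real.dist_eq, Real.dist_eq]
  refine ⟨abs_le.2 ⟨?_, ?_⟩, ?_, abs_le.2 ⟨?_, ?_⟩⟩ <;> linarith

/-- **The slanted segment is replaced by a horizontal and a vertical edge.** -/
theorem slant {X : Set R3} {p : R3} (hX : X ∩ Cn p = segment ℝ p (p + (1, 0, 1))) :
    ∃ φ : R3 ≃ₜ R3, φ '' X = (X \ segment ℝ p (p + (1, 0, 1))) ∪
      (segment ℝ p (p + (1, 0, 0)) ∪ segment ℝ (p + (1, 0, 0)) (p + (1, 0, 1))) := by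
  have ha : p + (1 / 2, 0, 1 / 2) ∈ interior (poly (Ls p)) := by
    apply mem_interior_poly
    intro l hl
    simp only [Ls, List.mem_cons, List.not_mem_nil, or_false] at hl
    rcases hl with rfl | rfl | rfl | rfl | rfl | rfl | rfl | rfl <;> rw [val_ln] <;>
      simp only [Prod.fst_add, Prod.snd_add] <;> linarith
  have hb : p + (1, 0, 0) ∈ interior (poly (Ls p)) := by
    apply mem_interior_poly
    intro l hl
    simp only [Ls, List.mem_cons, List.not_mem_nil, or_false] at hl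
    rcases hl with rfl | rfl | rfl | rfl | rfl | rfl | rfl | rfl <;> rw [val_ln] <;>
      simp only [Prod.fst_add, Prod.snd_add] <;> linarith
  have h1 := p_mem p
  have h2 := p1_mem p
  rw [cn_eq] at h1 h2 hX
  have hu : p ∈ frontier (poly (Ls p)) := by
    apply mem_frontier_poly (a := p + (1 / 2, 0, 1 / 2)) h1 (l := ln p (-1) (4 / 5) 1)
    · simp [Ls]
    · rw [val_ln]
      ring
    · rw [val_ln]
      simp only [Prod.fst_add, Prod.snd_add]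
      linarith
  have hv : p + (1, 0, 1) ∈ frontier (poly (Ls p)) := by
    apply mem_frontier_poly (a := p + (1 / 2, 0, 1 / 2)) h2 (l := ln p 1 (4 / 5) 1)
    · simp [Ls]
    · rw [val_ln]
      simp only [Prod.fst_add, Prod.snd_add]
      ring
    · rw [val_ln]
      simp only [Prod.fst_add, Prod.snd_add]
      linarith
  have hm : p + (1 / 2, 0, 1 / 2) ∈ segment ℝ p (p + (1, 0, 1)) := by
    rw [segment_eq_image']
    refine ⟨1 / 2, by norm_num, ?_⟩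
    refine Prod.ext ?_ (Prod.ext ?_ ?_) <;> simp
  have hseg : segment ℝ p (p + (1, 0, 1)) ⊆ poly (Ls p) := by
    rw [← cn_eq]
    exact seg_sub_cn p
  have hX' : X ∩ poly (Ls p) = segment ℝ p (p + (1 / 2, 0, 1 / 2)) ∪
      segment ℝ (p + (1 / 2, 0, 1 / 2)) (p + (1, 0, 1)) := by
    rw [segment_split hm, hX]
  have key := vmove_image (b := p + (1, 0, 0)) (body_cn p) ha hu hv hX'
  have h3 : X \ poly (Ls p) = X \ segment ℝ p (p + (1, 0, 1)) := by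
    rw [← hX, sdiff_self_inter]
  rw [h3] at key
  exact ⟨vmoveHomeo (body_cn p) ha hb, key⟩

end Pool.Agent.KTop
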